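import Mathlib

/-!
# Spanning hypercubes: random placement with slack, general cells, definitions

`X = P × I` is the set of even vertices of the cube (`I` groups), `Y` the set of odd vertices, `T` the set
of directions.  The group `i` is placed injectively in a set of positions `S` with `|S| > |P|`.  The odd
vertices are divided into cells, `Q` is the set of the cells.  Every cell `q` carries a label `ω q : W`
(a tuple of anchor vertices); the position `s` of the group `i` is allowed for the even vertex `(p, i)` if
it is `ok` with the labels of all cells of `star p i`.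
-/

set_option autoImplicit false

noncomputable section

open Classical Finset

namespace Pool.Agent.Lib.MP_33d9ce_co.Star

/-- the abstract placement problem -/
structure Data (P Q I S Y T W : Type) where
  /-- the neighbours of an odd vertex -/
  nb : Y → T → P × I
  /-- the cells of odd vertices whose labels are seen by an even vertex -/
  star : P → I → Finset Q
  /-- the cell of an odd vertex -/
  cell : Y → Q
  /-- the position `s` of the group `i` is adjacent to all vertices of the label `w` -/
  ok : I → S → W → Prop

variable {P Q I S Y T W : Type} [Fintype P] [Fintype Q] [Fintype I] [Fintype S] [Fintype Y] [Fintype T] [Fintype W]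

namespace Data

variable (D : Data P Q I S Y T W)

/-- allowed positions -/
def al (ω : Q → W) (p : P) (i : I) : Finset S := {s | ∀ q ∈ D.star p i, D.ok i s (ω q)}

/-- the uniform law on the allowed positions -/
def u (ω : Q → W) (p : P) (i : I) (s : S) : ℝ :=
  if s ∈ D.al ω p i then ((D.al ω p i).card : ℝ)⁻¹ else 0

/-- the law of the images of the neighbours of `y` -/
def law (ω : Q → W) (y : Y) (a : T → S) : ℝ := ∏ t, D.u ω (D.nb y t).1 (D.nb y t).2 (a t)

/-- the labels compatible with the images `a` of the neighbours of `y` -/
def comp (y : Y) (a : T → S) : Finset W := {w | ∀ t, D.ok (D.nb y t).2 (a t) w}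

/-- the posterior distribution of the label of the cell of `y` -/
def post (ω : Q → W) (y : Y) (a : T → S) (w : W) : ℝ :=
  D.law (Function.update ω (D.cell y) w) y a /
    ∑ w', D.law (Function.update ω (D.cell y) w') y a

/-- the images of the neighbours of `y` -/
def im (σ : I → P → S) (y : Y) : T → S := fun t => σ (D.nb y t).2 (D.nb y t).1

/-- the cells whose labels influence the law of the images of the neighbours of `y` -/
def zone (y : Y) : Finset Q := univ.biUnion fun t => D.star (D.nb y t).1 (D.nb y t).2

/-- two odd vertices without common groups and common zone -/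
def Far (y y' : Y) : Prop :=
  (∀ t t', (D.nb y t).2 ≠ (D.nb y' t').2) ∧ Disjoint (D.zone y) (D.zone y')

/-- standing hypotheses (`θ` bounds the proportion killed by one label) -/
structure Good (θ : ℝ) : Prop where
  ginj : ∀ y, Function.Injective fun t => (D.nb y t).2
  cell_mem : ∀ y t, D.cell y ∈ D.star (D.nb y t).1 (D.nb y t).2
  fair : ∀ i w, (({s | ¬ D.ok i s w} : Finset S).card : ℝ) ≤ θ * Fintype.card P
  room : ∀ p i, (Fintype.card P : ℝ) + (D.star p i).card * (θ * Fintype.card P) ≤ Fintype.card S
  nonempty : Nonempty P
  theta_nonneg : 0 ≤ θ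
  theta_lt : θ < 1
  nonemptyT : Nonempty T
  nonemptyW : Nonempty W

/-- random injections with the right marginals -/
structure IsLaw (μ : (Q → W) → I → (P → S) → ℝ) : Prop where
  nonneg : ∀ ω i τ, 0 ≤ μ ω i τ
  sum_one : ∀ ω i, ∑ τ, μ ω i τ = 1
  inj : ∀ ω i τ, μ ω i τ ≠ 0 → Function.Injective τ
  marg : ∀ ω i p s, ∑ τ, (if τ p = s then μ ω i τ else 0) = D.u ω p i s

/-- the expectation over the labels and the placements -/
def Ex (μ : (Q → W) → I → (P → S) → ℝ) (F : (Q → W) → (I → P → S) → ℝ) : ℝ :=
  ((Fintype.card W : ℝ) ^ Fintype.card Q)⁻¹ *
    ∑ ω : Q → W, ∑ σ : I → P → S, (∏ i, μ ω i (σ i)) * F ω σ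

end Data

end Pool.Agent.Lib.MP_33d9ce_co.Star
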