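import Pool.Agent.Lib.MP_33d9ce_co.Slack.CubeA
import Pool.Agent.Lib.MP_33d9ce_co.Star.Defs

/-!
# Spanning hypercubes: the cube with a general partition of the odd vertices as a placement problem

Groups and positions as in `Slack/CubeDefs.lean`; `lab` is the map from the odd vertices to their cells.
-/

set_option autoImplicit false
set_option linter.unusedSectionVars false

noncomputable section

open Classical Finset

namespace Pool.Agent.Lib.MP_33d9ce_co.Star

open Slack (R Dir Cell Ev Od Lab cand nbr shift dc dg grp cel spread code sum_dg)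

variable {κ m r : ℕ} {V S Q : Type} [Fintype V] [Fintype S] [Fintype Q]

/-- the neighbour of the even vertex `x` in the direction `t` -/
def nbo (x : Cell κ × Ev κ m r) (t : Dir κ m r) : Cell κ × Od κ m r :=
  (x.1 + dc t, ⟨x.2.1 + dg t, by
    have h := x.2.2
    have h' := sum_dg t
    simp only [Pi.add_apply, Finset.sum_add_distrib, h, h']
    decide⟩)

theorem cube_two {ι : Type} (c : ι → ZMod 2) : c + c = 0 := by
  funext i
  have : ∀ a : ZMod 2, a + a = 0 := by decide
  exact this (c i)

theorem nbo_nbr (y : Cell κ × Od κ m r) (t : Dir κ m r) : nbo (nbr y t) t = y := by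
  refine Prod.ext ?_ (Subtype.ext ?_)
  · show y.1 + dc t + dc t = y.1
    rw [add_assoc, cube_two, add_zero]
  · show y.2.1 + dg t + dg t = y.2.1
    rw [add_assoc, cube_two, add_zero]

theorem nbr_nbo (x : Cell κ × Ev κ m r) (t : Dir κ m r) : nbr (nbo x t) t = x := by
  refine Prod.ext ?_ (Subtype.ext ?_)
  · show x.1 + dc t + dc t = x.1
    rw [add_assoc, cube_two, add_zero]
  · show x.2.1 + dg t + dg t = x.2.1
    rw [add_assoc, cube_two, add_zero]

/-- the placement problem of the cube `Q_{4κ+4m+r}`; the position `s` of the group `i` is `f i s`, the cell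
of the odd vertex `y` is `lab y` -/
def data (lab : Cell κ × Od κ m r → Q) (A : Finset V) (adj : V → V → Prop) (f : Ev κ m r → S → V) :
    Data (Cell κ) Q (Ev κ m r) S (Cell κ × Od κ m r) (Dir κ m r) (Lab A) where
  nb := nbr
  star p i := univ.image fun t => lab (nbo (p, i) t)
  cell y := lab y
  ok i s w := adj (f i s) w.1.1 ∧ adj (f i s) w.1.2 ∧ adj (f i s) w.2.1 ∧ adj (f i s) w.2.2

private lemma cube_dg_inj : Function.Injective (dg (k := κ) (m := m) (r := r)) := by
  have h01 : (1 : ZMod 2) ≠ 0 := by decide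
  have key : ∀ (i : Fin κ) (s : R κ m r), dg (.inl i) ≠ dg (k := κ) (m := m) (r := r) (.inr s) := by
    intro i s h
    have h0 := congrFun h (.inl (0, i))
    have h1 := congrFun h (.inl (1, i))
    simp only [dg, spread, Pi.single_eq_same] at h0 h1
    have e0 : s = .inl (0, i) := by
      by_contra hne
      rw [Pi.single_eq_of_ne (Ne.symm hne)] at h0
      exact h01 h0
    have e1 : s = .inl (1, i) := by
      by_contra hne
      rw [Pi.single_eq_of_ne (Ne.symm hne)] at h1
      exact h01 h1
    rw [e0] at e1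
    simp at e1
  intro t t' h
  rcases t with i | s <;> rcases t' with i' | s'
  · have h0 := congrFun h (.inl (0, i))
    simp only [dg, spread, Pi.single_eq_same] at h0
    have : i = i' := by
      by_contra hne
      rw [Pi.single_eq_of_ne hne] at h0
      exact h01 h0
    rw [this]
  · exact absurd h (key i s')
  · exact absurd h.symm (key i' s)
  · have h0 := congrFun h s
    simp only [dg, Pi.single_eq_same] at h0
    have : s = s' := by
      by_contra hne
      rw [Pi.single_eq_of_ne hne] at h0
      exact h01 h0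
    rw [this]

theorem good {k : ℕ} (lab : Cell κ × Od κ m r → Q)
    (hk : ∀ x : Cell κ × Ev κ m r, (univ.image fun t => lab (nbo x t)).card ≤ k)
    (A : Finset V) (adj : V → V → Prop) (f : Ev κ m r → S → V) {η : ℝ} (h0 : 0 ≤ η)
    (h1 : 4 * η < 1)
    (hf : ∀ v i, (({s | ¬ adj (f i s) v} : Finset S).card : ℝ) ≤ η * Fintype.card (Cell κ))
    (room : (Fintype.card (Cell κ) : ℝ) + k * (4 * η * Fintype.card (Cell κ)) ≤
      Fintype.card S) (hW : Nonempty (Lab A)) (hκ : 0 < κ) : (data lab A adj f).Good (4 * η) := by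
  refine ⟨?_, ?_, ?_, ?_, ?_, ?_, h1, ?_, hW⟩
  · intro y t t' h
    have h2 : (nbr y t).2 = (nbr y t').2 := h
    have h3 := congrArg Subtype.val h2
    simp only [nbr] at h3
    exact cube_dg_inj (add_left_cancel h3)
  · intro y t
    refine mem_image.2 ⟨t, mem_univ _, ?_⟩
    show lab (nbo (nbr y t) t) = lab y
    rw [nbo_nbr]
  · intro i w
    have hsub : ({s | ¬ (data lab A adj f).ok i s w} : Finset S) ⊆
        (({s | ¬ adj (f i s) w.1.1} : Finset S) ∪ ({s | ¬ adj (f i s) w.1.2} : Finset S)) ∪
        (({s | ¬ adj (f i s) w.2.1} : Finset S) ∪ ({s | ¬ adj (f i s) w.2.2} : Finset S)) := by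
      intro s hs
      simp only [Finset.mem_filter, Finset.mem_univ, true_and, Finset.mem_union] at hs ⊢
      by_contra hcon
      push Not at hcon
      exact hs ⟨hcon.1.1, hcon.1.2, hcon.2.1, hcon.2.2⟩
    have hc := (Finset.card_le_card hsub).trans ((Finset.card_union_le _ _).trans
      (add_le_add (Finset.card_union_le _ _) (Finset.card_union_le _ _)))
    have hc' : (({s | ¬ (data lab A adj f).ok i s w} : Finset S).card : ℝ) ≤
        ((({s | ¬ adj (f i s) w.1.1} : Finset S).card : ℝ) +
          (({s | ¬ adj (f i s) w.1.2} : Finset S).card : ℝ)) +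
        ((({s | ¬ adj (f i s) w.2.1} : Finset S).card : ℝ) +
          (({s | ¬ adj (f i s) w.2.2} : Finset S).card : ℝ)) := by exact_mod_cast hc
    have e1 := hf w.1.1 i
    have e2 := hf w.1.2 i
    have e3 := hf w.2.1 i
    have e4 := hf w.2.2 i
    linarith
  · intro p i
    have hc' : (((data lab A adj f).star p i).card : ℝ) ≤ k := by exact_mod_cast hk (p, i)
    refine le_trans ?_ room
    refine add_le_add le_rfl (mul_le_mul_of_nonneg_right hc' ?_)
    positivity
  · exact ⟨0⟩
  · linarith
  · exact ⟨.inl ⟨0, hκ⟩⟩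

theorem card_comp (lab : Cell κ × Od κ m r → Q) (A : Finset V) (adj : V → V → Prop)
    (f : Ev κ m r → S → V) (σ : Ev κ m r → Cell κ → S) (y : Cell κ × Od κ m r) :
    ((data lab A adj f).comp y ((data lab A adj f).im σ y)).card =
      ((cand adj f σ y).filter (· ∉ A)).card ^ 2 * ((cand adj f σ y).filter (· ∈ A)).card ^ 2 :=
  Slack.card_comp A adj f σ y

/-- near pairs: `M` bounds the sizes of the cells -/
theorem far_count (lab : Cell κ × Od κ m r → Q) {M : ℝ}
    (hM : ∀ y, (({y' | lab y' = lab y} : Finset (Cell κ × Od κ m r)).card : ℝ) ≤ M)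
    (A : Finset V) (adj : V → V → Prop) (f : Ev κ m r → S → V) (y : Cell κ × Od κ m r) :
    (({y' | ¬ (data lab A adj f).Far y y'} : Finset (Cell κ × Od κ m r)).card : ℝ) ≤
      (Fintype.card (Dir κ m r)) ^ 4 * M +
        (Fintype.card (Dir κ m r)) ^ 2 * Fintype.card (Cell κ) := by
  set T := Dir κ m r with hT
  -- the two parts
  set G : Finset (Cell κ × Od κ m r) :=
    (univ : Finset (T × T)).biUnion fun tt =>
      univ.filter fun y' : Cell κ × Od κ m r => y'.2.1 = y.2.1 + dg tt.1 + dg tt.2 with hG
  set Z : Finset (Cell κ × Od κ m r) :=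
    (univ : Finset ((T × T) × (T × T))).biUnion fun o =>
      (univ.filter fun z : Cell κ × Od κ m r => lab z = lab (nbo (nbr y o.1.1) o.1.2)).image fun z =>
        nbo (nbr z o.2.1) o.2.2 with hZ
  have hsub : ({y' | ¬ (data lab A adj f).Far y y'} : Finset (Cell κ × Od κ m r)) ⊆ Z ∪ G := by
    intro y' hy'
    have hy : ¬ (data lab A adj f).Far y y' := (Finset.mem_filter.mp hy').2
    unfold Data.Far at hy
    rw [not_and_or] at hy
    rcases hy with hy | hy
    · refine Finset.mem_union_right _ ?_
      push Not at hy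
      obtain ⟨t, t', htt⟩ := hy
      have h1 : y.2.1 + dg t = y'.2.1 + dg t' := congrArg Subtype.val htt
      refine Finset.mem_biUnion.mpr ⟨(t, t'), Finset.mem_univ _, Finset.mem_filter.mpr
        ⟨Finset.mem_univ _, ?_⟩⟩
      show y'.2.1 = y.2.1 + dg t + dg t'
      rw [h1, add_assoc, cube_two, add_zero]
    · refine Finset.mem_union_left _ ?_
      rw [Finset.not_disjoint_iff] at hy
      obtain ⟨q, hq, hq'⟩ := hy
      unfold Data.zone at hq hq'
      obtain ⟨t1, -, h1⟩ := Finset.mem_biUnion.mp hq
      obtain ⟨t2, -, h2⟩ := Finset.mem_image.mp h1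
      obtain ⟨t3, -, h3⟩ := Finset.mem_biUnion.mp hq'
      obtain ⟨t4, -, h4⟩ := Finset.mem_image.mp h3
      have h2' : lab (nbo (nbr y t1) t2) = q := h2
      have h4' : lab (nbo (nbr y' t3) t4) = q := h4
      refine Finset.mem_biUnion.mpr ⟨((t1, t2), (t4, t3)), Finset.mem_univ _, ?_⟩
      refine Finset.mem_image.mpr ⟨nbo (nbr y' t3) t4, Finset.mem_filter.mpr
        ⟨Finset.mem_univ _, by rw [h4', h2']⟩, ?_⟩
      show nbo (nbr (nbo (nbr y' t3) t4) t4) t3 = y'
      rw [nbr_nbo, nbo_nbr]
  have hZc : (Z.card : ℝ) ≤ (Fintype.card T) ^ 4 * M := by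
    have h1 : (Z.card : ℝ) ≤ ∑ o : (T × T) × (T × T), M := by
      calc (Z.card : ℝ) ≤ ((∑ o : (T × T) × (T × T),
            ((univ.filter fun z : Cell κ × Od κ m r =>
              lab z = lab (nbo (nbr y o.1.1) o.1.2)).image fun z =>
                nbo (nbr z o.2.1) o.2.2).card : ℕ) : ℝ) := by
            exact_mod_cast Finset.card_biUnion_le
        _ = ∑ o : (T × T) × (T × T), (((univ.filter fun z : Cell κ × Od κ m r =>
              lab z = lab (nbo (nbr y o.1.1) o.1.2)).image fun z =>
                nbo (nbr z o.2.1) o.2.2).card : ℝ) := by push_cast; rfl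
        _ ≤ ∑ o : (T × T) × (T × T), M := by
            refine Finset.sum_le_sum fun o _ => le_trans ?_ (hM (nbo (nbr y o.1.1) o.1.2))
            exact_mod_cast Finset.card_image_le
    refine h1.trans (le_of_eq ?_)
    rw [Finset.sum_const, Finset.card_univ, nsmul_eq_mul]
    simp only [Fintype.card_prod]
    push_cast
    ring
  have hGc : G.card ≤ Fintype.card T ^ 2 * Fintype.card (Cell κ) := by
    refine Finset.card_biUnion_le.trans ?_
    have h1 : ∀ tt ∈ (univ : Finset (T × T)),
        (univ.filter fun y' : Cell κ × Od κ m r => y'.2.1 = y.2.1 + dg tt.1 + dg tt.2).card ≤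
          Fintype.card (Cell κ) := by
      intro tt _
      rw [← Finset.card_univ]
      refine Finset.card_le_card_of_injOn (fun y' => y'.1) (fun _ _ => Finset.mem_univ _) ?_
      intro a ha b hb hab
      have ha' := (Finset.mem_filter.mp ha).2
      have hb' := (Finset.mem_filter.mp hb).2
      exact Prod.ext hab (Subtype.ext (ha'.trans hb'.symm))
    refine (Finset.sum_le_card_nsmul _ _ _ h1).trans (le_of_eq ?_)
    rw [Finset.card_univ, Fintype.card_prod, smul_eq_mul]
    ring
  have hGc' : (G.card : ℝ) ≤ (Fintype.card T : ℝ) ^ 2 * Fintype.card (Cell κ) := by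
    exact_mod_cast hGc
  have hc : ((({y' | ¬ (data lab A adj f).Far y y'} : Finset (Cell κ × Od κ m r)).card : ℕ) : ℝ) ≤
      (Z.card : ℝ) + G.card := by
    exact_mod_cast (Finset.card_le_card hsub).trans (Finset.card_union_le _ _)
  linarith

end Pool.Agent.Lib.MP_33d9ce_co.Star
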