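import Mathlib

/-!
# Spanning hypercubes: partitions of the cube into small cells, every vertex seeing few cells
-/

set_option autoImplicit false

noncomputable section

open Classical Finset

namespace Pool.Agent.Lib.MP_33d9ce_co.Star

/-- The vertices of the cube can be labelled such that the neighbours of every vertex carry at most `k`
labels, and every set of vertices with a common label is contained in a Hamming ball of radius `n / 4`. -/
def HasPartition (n k : ℕ) : Prop :=
  ∃ (Q : Type) (lab : (Fin n → Bool) → Q),
    (∀ x, (({y | hammingDist x y = 1} : Finset (Fin n → Bool)).image lab).card ≤ k) ∧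
    ∀ y, ∃ z, ∀ y', lab y' = lab y → 4 * hammingDist y' z ≤ n

theorem HasPartition.mono {n k k' : ℕ} (h : HasPartition n k) (hk : k ≤ k') : HasPartition n k' := by
  obtain ⟨Q, lab, h1, h2⟩ := h
  exact ⟨Q, lab, fun x => (h1 x).trans hk, h2⟩

end Pool.Agent.Lib.MP_33d9ce_co.Star
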