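import Pool.Agent.Lib.MP_33d9ce_co.Slack.CubeB
import Pool.Agent.Lib.MP_33d9ce_co.Star.Cube
import Pool.Agent.Lib.MP_33d9ce_co.Star.Partition

/-!
# Spanning hypercubes: from partitions of the cube to labels of the odd vertices
-/

set_option autoImplicit false

noncomputable section

open Classical Finset

namespace Pool.Agent.Lib.MP_33d9ce_co.Star

open Slack (R Dir Cell Ev Od nbr dc dg grp cel spread)

/-- a Hamming ball of radius `n / 4` is exponentially small -/
theorem ball_card (n : ℕ) (z : Fin n → Bool) :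
    (({y | 4 * hammingDist y z ≤ n} : Finset (Fin n → Bool)).card : ℝ) ≤ (337 / 192) ^ n := by
  have h1 : ∀ y : Fin n → Bool, (3 / 4 : ℝ) ^ (4 * hammingDist y z) =
      ∏ i, (if y i ≠ z i then (81 / 256 : ℝ) else 1) := by
    intro y
    rw [pow_mul, hammingDist, Finset.prod_ite, Finset.prod_const, Finset.prod_const_one, mul_one]
    norm_num
  have h2 : ∑ y : Fin n → Bool, (3 / 4 : ℝ) ^ (4 * hammingDist y z) = (337 / 256) ^ n := by
    rw [Finset.sum_congr rfl fun y _ => h1 y]
    have h3 := Finset.prod_univ_sum (fun _ : Fin n => (Finset.univ : Finset Bool))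
      (fun i b => if b ≠ z i then (81 / 256 : ℝ) else 1)
    rw [Fintype.piFinset_univ] at h3
    rw [← h3]
    have h4 : ∀ i : Fin n, ∑ b : Bool, (if b ≠ z i then (81 / 256 : ℝ) else 1) = 337 / 256 := by
      intro i
      cases z i <;> simp <;> norm_num
    rw [Finset.prod_congr rfl fun i _ => h4 i, Finset.prod_const, Finset.card_univ, Fintype.card_fin]
  have h5 : (({y | 4 * hammingDist y z ≤ n} : Finset (Fin n → Bool)).card : ℝ) * (3 / 4) ^ n ≤
      (337 / 256) ^ n := by
    rw [← h2, ← nsmul_eq_mul, ← Finset.sum_const]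
    calc ∑ _y ∈ ({y | 4 * hammingDist y z ≤ n} : Finset (Fin n → Bool)), (3 / 4 : ℝ) ^ n
        ≤ ∑ y ∈ ({y | 4 * hammingDist y z ≤ n} : Finset (Fin n → Bool)),
          (3 / 4 : ℝ) ^ (4 * hammingDist y z) := by
          refine Finset.sum_le_sum fun y hy => ?_
          exact pow_le_pow_of_le_one (by norm_num) (by norm_num) (Finset.mem_filter.1 hy).2
      _ ≤ _ := Finset.sum_le_sum_of_subset_of_nonneg (Finset.subset_univ _) fun y _ _ => by positivity
  have h6 : (337 / 256 : ℝ) ^ n = (337 / 192) ^ n * (3 / 4) ^ n := by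
    rw [← mul_pow]
    norm_num
  rw [h6] at h5
  exact le_of_mul_le_mul_right h5 (by positivity)

variable {κ m r n : ℕ}

/-- the vertex of the cube in the cell `p` and the group `g` -/
def pt (p : Cell κ) (g : R κ m r → ZMod 2) : Dir κ m r → ZMod 2
  | .inl i => p i
  | .inr j => g j + spread m r p j

theorem cel_pt (p : Cell κ) (g : R κ m r → ZMod 2) : cel (pt p g) = p := rfl

theorem grp_pt (p : Cell κ) (g : R κ m r → ZMod 2) : grp (pt p g) = g := by
  funext j
  show g j + spread m r p j + spread m r p j = g j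
  have : ∀ a b : ZMod 2, a + b + b = a := by decide
  exact this _ _

theorem pt_add (p : Cell κ) (g : R κ m r → ZMod 2) (t : Dir κ m r) :
    pt (p + dc t) (g + dg t) = pt p g + Pi.single t 1 := by
  refine Slack.cubeB_inj ?_ ?_
  · rw [cel_pt, Slack.cubeB_cel_add, cel_pt]
  · rw [grp_pt, Slack.cubeB_grp_add, grp_pt]

theorem pt_inj {p p' : Cell κ} {g g' : R κ m r → ZMod 2} (h : pt p g = pt p' g') :
    p = p' ∧ g = g' :=
  ⟨by rw [← cel_pt p g, h, cel_pt], by rw [← grp_pt p g, h, grp_pt]⟩

/-- vertices as strings -/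
def bo (e : Fin n ≃ Dir κ m r) (X : Dir κ m r → ZMod 2) : Fin n → Bool := fun i => decide (X (e i) = 1)

theorem bo_inj (e : Fin n ≃ Dir κ m r) : Function.Injective (bo e) := by
  intro X X' h
  funext j
  have h1 := congrFun h (e.symm j)
  simp only [bo, Equiv.apply_symm_apply, decide_eq_decide] at h1
  revert h1
  generalize X j = a
  generalize X' j = b
  revert a b
  decide

theorem bo_add (e : Fin n ≃ Dir κ m r) (X : Dir κ m r → ZMod 2) (t : Dir κ m r) :
    hammingDist (bo e X) (bo e (X + Pi.single t 1)) = 1 := by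
  unfold hammingDist
  rw [Finset.card_eq_one]
  refine ⟨e.symm t, ?_⟩
  ext i
  rw [Finset.mem_filter, Finset.mem_singleton]
  constructor
  · rintro ⟨-, h⟩
    by_contra hi
    apply h
    have h1 : e i ≠ t := fun h2 => hi (by rw [← h2, Equiv.symm_apply_apply])
    simp only [bo, Pi.add_apply, Pi.single_eq_of_ne h1, add_zero]
  · rintro rfl
    refine ⟨Finset.mem_univ _, ?_⟩
    simp only [bo, Pi.add_apply, Equiv.apply_symm_apply, Pi.single_eq_same]
    generalize X t = a
    revert a
    decide

/-- a partition of the cube gives labels of the odd vertices -/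
theorem exists_lab {k : ℕ} (hn : n = 4 * κ + 4 * m + r) (h : HasPartition n k) :
    ∃ lab : Cell κ × Od κ m r → (Fin n → Bool),
      (∀ x : Cell κ × Ev κ m r, (univ.image fun t => lab (nbo x t)).card ≤ k) ∧
      ∀ y, (({y' | lab y' = lab y} : Finset (Cell κ × Od κ m r)).card : ℝ) ≤ (337 / 192) ^ n := by
  obtain ⟨Q, lb, h1, h2⟩ := h
  have hcard : Fintype.card (Fin n) = Fintype.card (Dir κ m r) := by
    simp only [Fintype.card_fin, Fintype.card_sum, Fintype.card_prod]
    omega
  have e : Fin n ≃ Dir κ m r := Fintype.equivOfCardEq hcard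
  set rep : Q → (Fin n → Bool) := Function.invFun lb with hrep
  have hr : ∀ v, lb (rep (lb v)) = lb v := fun v => Function.invFun_eq ⟨v, rfl⟩
  refine ⟨fun y => rep (lb (bo e (pt y.1 y.2.1))), ?_, ?_⟩
  · intro x
    refine le_trans ?_ (h1 (bo e (pt x.1 x.2.1)))
    have h3 : (univ.image fun t => rep (lb (bo e (pt (nbo x t).1 (nbo x t).2.1)))) ⊆
        ((({y | hammingDist (bo e (pt x.1 x.2.1)) y = 1} : Finset (Fin n → Bool)).image lb).image
          rep) := by
      intro v hv
      obtain ⟨t, -, rfl⟩ := Finset.mem_image.1 hv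
      refine Finset.mem_image_of_mem _ (Finset.mem_image_of_mem _ ?_)
      refine Finset.mem_filter.2 ⟨Finset.mem_univ _, ?_⟩
      show hammingDist (bo e (pt x.1 x.2.1)) (bo e (pt (x.1 + dc t) (x.2.1 + dg t))) = 1
      rw [pt_add]
      exact bo_add e _ t
    exact (Finset.card_le_card h3).trans Finset.card_image_le
  · intro y
    obtain ⟨z, hz⟩ := h2 (bo e (pt y.1 y.2.1))
    refine le_trans ?_ (ball_card n z)
    have h3 : ({y' | rep (lb (bo e (pt y'.1 y'.2.1))) = rep (lb (bo e (pt y.1 y.2.1)))} :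
        Finset (Cell κ × Od κ m r)).card ≤
        ({y | 4 * hammingDist y z ≤ n} : Finset (Fin n → Bool)).card := by
      refine Finset.card_le_card_of_injOn (fun y' => bo e (pt y'.1 y'.2.1)) ?_ ?_
      · intro y' hy'
        have h4 : rep (lb (bo e (pt y'.1 y'.2.1))) = rep (lb (bo e (pt y.1 y.2.1))) :=
          (Finset.mem_filter.1 (Finset.mem_coe.1 hy')).2
        have h5 := congrArg lb h4
        rw [hr, hr] at h5
        exact Finset.mem_coe.2 (Finset.mem_filter.2 ⟨Finset.mem_univ _, hz _ h5⟩)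
      · intro a _ b _ hab
        obtain ⟨h4, h5⟩ := pt_inj (bo_inj e hab)
        exact Prod.ext h4 (Subtype.ext h5)
    exact_mod_cast h3

end Pool.Agent.Lib.MP_33d9ce_co.Star
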