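import Pool.Agent.Lib.MP_33d9ce_co.Star.Law
import Pool.Agent.Lib.MP_33d9ce_co.Slack.Cyl

/-!
# Spanning hypercubes, slack scheme: blocks
-/

set_option autoImplicit false

noncomputable section

open Classical Finset

namespace Pool.Agent.Lib.MP_33d9ce_co.Star

variable {P Q I S Y T W : Type} [Fintype P] [Fintype Q] [Fintype I] [Fintype S] [Fintype Y] [Fintype T] [Fintype W]

namespace Data

variable (D : Data P Q I S Y T W) {θ : ℝ} {μ : (Q → W) → I → (P → S) → ℝ}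

/-- the mass of the good positions is at least `1 - η` -/
theorem block_mass {D : Data P Q I S Y T W} (h : D.Good θ) (ω : Q → W)
    (okv : I → S → Prop) {η : ℝ} (h0 : 0 ≤ η)
    (hv : ∀ i, (({s | ¬ okv i s} : Finset S).card : ℝ) ≤ η * Fintype.card P) (p : P) (i : I) :
    1 - η ≤ ∑ s, D.u ω p i s * (if okv i s then 1 else 0) := by
  have hP : 0 < (Fintype.card P : ℝ) := by
    have := h.nonempty
    exact_mod_cast Fintype.card_pos
  have hal : (Fintype.card P : ℝ) ≤ ((D.al ω p i).card : ℝ) := by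
    exact_mod_cast card_al h ω p i
  have halpos : 0 < ((D.al ω p i).card : ℝ) := lt_of_lt_of_le hP hal
  have hsum := sum_u h ω p i
  have h1 : ∑ s, D.u ω p i s * (if okv i s then (1 : ℝ) else 0) =
      1 - ∑ s, D.u ω p i s * (if okv i s then (0 : ℝ) else 1) := by
    have hs2 : ∑ s, D.u ω p i s * (if okv i s then (1 : ℝ) else 0) +
        ∑ s, D.u ω p i s * (if okv i s then (0 : ℝ) else 1) = ∑ s, D.u ω p i s := by
      rw [← Finset.sum_add_distrib]
      refine Finset.sum_congr rfl fun s _ => ?_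
      split_ifs <;> ring
    linarith
  rw [h1]
  have h2 : ∑ s, D.u ω p i s * (if okv i s then (0 : ℝ) else 1) ≤
      ∑ s ∈ ({s | ¬ okv i s} : Finset S), ((D.al ω p i).card : ℝ)⁻¹ := by
    rw [Finset.sum_filter]
    refine Finset.sum_le_sum fun s _ => ?_
    by_cases hs : okv i s
    · simp [hs]
    · simp only [hs, if_false, mul_one, not_false_eq_true, if_true]
      unfold Data.u
      split_ifs
      · exact le_rfl
      · positivity
  have h3 : ∑ s ∈ ({s | ¬ okv i s} : Finset S), ((D.al ω p i).card : ℝ)⁻¹ ≤ η := by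
    rw [Finset.sum_const, nsmul_eq_mul]
    calc ((({s | ¬ okv i s} : Finset S).card : ℝ)) * ((D.al ω p i).card : ℝ)⁻¹
        ≤ (η * Fintype.card P) * ((D.al ω p i).card : ℝ)⁻¹ :=
          mul_le_mul_of_nonneg_right (hv i) (by positivity)
      _ ≤ (η * ((D.al ω p i).card : ℝ)) * ((D.al ω p i).card : ℝ)⁻¹ := by
          apply mul_le_mul_of_nonneg_right _ (by positivity)
          exact mul_le_mul_of_nonneg_left hal h0
      _ = η := by
          rw [mul_assoc, mul_inv_cancel₀ halpos.ne', mul_one]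
  linarith

/-- `okv i s`: the position `s` of the group `i` is adjacent to a fixed vertex `v` -/
theorem block {D : Data P Q I S Y T W} (h : D.Good θ) (hμ : D.IsLaw μ) (ω : Q → W)
    (okv : I → S → Prop) {η : ℝ} (h0 : 0 ≤ η) (h1 : η ≤ 1)
    (hv : ∀ i, (({s | ¬ okv i s} : Finset S).card : ℝ) ≤ η * Fintype.card P)
    (β : Finset Y) (hβ : ∀ y ∈ β, ∀ y' ∈ β, y ≠ y' → ∀ t t', (D.nb y t).2 ≠ (D.nb y' t').2) :
    ∑ σ : I → P → S, (∏ i, μ ω i (σ i)) *
        (if ∀ y ∈ β, ¬ ∀ t, okv (D.nb y t).2 (D.im σ y t) then 1 else 0) ≤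
      (1 - (1 - η) ^ Fintype.card T) ^ β.card := by
  have hginj : Function.Injective (fun j : ↥β × T => (D.nb j.1.1 j.2).2) := by
    rintro ⟨⟨y, hy⟩, t⟩ ⟨⟨y', hy'⟩, t'⟩ hjj
    by_cases hyy : y = y'
    · subst hyy
      have := h.ginj y hjj
      simp only at this
      subst this
      rfl
    · exact absurd hjj (hβ y hy y' hy' hyy t t')
  have key := Slack.cyl (fun i τ => μ ω i τ) (fun i => hμ.sum_one ω i)
    (fun j : ↥β × T => (D.nb j.1.1 j.2).2) hginj
    (fun j : ↥β × T => (D.nb j.1.1 j.2).1)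
    (fun a => if ∀ y : ↥β, ¬ ∀ t, okv (D.nb y.1 t).2 (a (y, t)) then (1 : ℝ) else 0)
  have hL : ∑ σ : I → P → S, (∏ i, μ ω i (σ i)) *
        (if ∀ y ∈ β, ¬ ∀ t, okv (D.nb y t).2 (D.im σ y t) then (1 : ℝ) else 0) =
      ∑ a : ↥β × T → S, (∏ j : ↥β × T, D.u ω (D.nb j.1.1 j.2).1 (D.nb j.1.1 j.2).2 (a j)) *
        (if ∀ y : ↥β, ¬ ∀ t, okv (D.nb y.1 t).2 (a (y, t)) then (1 : ℝ) else 0) := by
    have e1 : ∀ j : ↥β × T, ∀ s : S,
        ∑ τ, (if τ (D.nb j.1.1 j.2).1 = s then μ ω (D.nb j.1.1 j.2).2 τ else 0) =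
          D.u ω (D.nb j.1.1 j.2).1 (D.nb j.1.1 j.2).2 s := fun j s => hμ.marg ω _ _ _
    have e2 : ∑ σ : I → P → S, (∏ i, μ ω i (σ i)) *
        (if ∀ y ∈ β, ¬ ∀ t, okv (D.nb y t).2 (D.im σ y t) then (1 : ℝ) else 0) =
        ∑ σ : I → P → S, (∏ i, μ ω i (σ i)) *
        (if ∀ y : ↥β, ¬ ∀ t, okv (D.nb y.1 t).2 (σ (D.nb y.1 t).2 (D.nb y.1 t).1)
          then (1 : ℝ) else 0) := by
      refine Finset.sum_congr rfl fun σ _ => ?_
      congr 1
      refine if_congr ?_ rfl rfl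
      constructor
      · intro hh y
        exact hh y.1 y.2
      · intro hh y hy
        exact hh ⟨y, hy⟩
    rw [e2]
    refine key.trans ?_
    refine Finset.sum_congr (by ext; simp) fun a _ => ?_
    congr 1
    exact Finset.prod_congr rfl fun j _ => e1 j (a j)
  rw [hL]
  -- curry
  have hcurry : ∑ a : ↥β × T → S,
        (∏ j : ↥β × T, D.u ω (D.nb j.1.1 j.2).1 (D.nb j.1.1 j.2).2 (a j)) *
        (if ∀ y : ↥β, ¬ ∀ t, okv (D.nb y.1 t).2 (a (y, t)) then (1 : ℝ) else 0) =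
      ∑ b : ↥β → T → S, ∏ y : ↥β,
        ((∏ t, D.u ω (D.nb y.1 t).1 (D.nb y.1 t).2 (b y t)) *
          (if ∀ t, okv (D.nb y.1 t).2 (b y t) then (0 : ℝ) else 1)) := by
    refine Fintype.sum_equiv (Equiv.curry ↥β T S) _ _ fun a => ?_
    rw [Finset.prod_mul_distrib, Fintype.prod_prod_type]
    congr 1
    by_cases hc : ∀ y : ↥β, ¬ ∀ t, okv (D.nb y.1 t).2 (a (y, t))
    · rw [if_pos hc]
      symm
      refine Finset.prod_eq_one fun y _ => ?_
      exact if_neg (hc y)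
    · rw [if_neg hc]
      symm
      obtain ⟨y, hy⟩ := not_forall.mp hc
      refine Finset.prod_eq_zero (Finset.mem_univ y) ?_
      exact if_pos (not_not.mp hy)
  rw [hcurry]
  have hprod : ∑ b : ↥β → T → S, ∏ y : ↥β,
        ((∏ t, D.u ω (D.nb y.1 t).1 (D.nb y.1 t).2 (b y t)) *
          (if ∀ t, okv (D.nb y.1 t).2 (b y t) then (0 : ℝ) else 1)) =
      ∏ y : ↥β, ∑ c : T → S, ((∏ t, D.u ω (D.nb y.1 t).1 (D.nb y.1 t).2 (c t)) *
          (if ∀ t, okv (D.nb y.1 t).2 (c t) then (0 : ℝ) else 1)) := by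
    rw [Finset.prod_univ_sum, Fintype.piFinset_univ]
  rw [hprod]
  have hone : ∀ y : ↥β, ∑ c : T → S, ((∏ t, D.u ω (D.nb y.1 t).1 (D.nb y.1 t).2 (c t)) *
          (if ∀ t, okv (D.nb y.1 t).2 (c t) then (0 : ℝ) else 1)) =
        1 - ∏ t, ∑ s, D.u ω (D.nb y.1 t).1 (D.nb y.1 t).2 s *
          (if okv (D.nb y.1 t).2 s then (1 : ℝ) else 0) := by
    intro y
    have hpt : ∀ c : T → S, ((∏ t, D.u ω (D.nb y.1 t).1 (D.nb y.1 t).2 (c t)) *
          (if ∀ t, okv (D.nb y.1 t).2 (c t) then (0 : ℝ) else 1)) +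
        ∏ t, (D.u ω (D.nb y.1 t).1 (D.nb y.1 t).2 (c t) *
          (if okv (D.nb y.1 t).2 (c t) then (1 : ℝ) else 0)) =
        ∏ t, D.u ω (D.nb y.1 t).1 (D.nb y.1 t).2 (c t) := by
      intro c
      rw [Finset.prod_mul_distrib]
      by_cases hc : ∀ t, okv (D.nb y.1 t).2 (c t)
      · rw [if_pos hc]
        have : ∏ t, (if okv (D.nb y.1 t).2 (c t) then (1 : ℝ) else 0) = 1 :=
          Finset.prod_eq_one fun t _ => if_pos (hc t)
        rw [this]; ring
      · rw [if_neg hc]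
        have : ∏ t, (if okv (D.nb y.1 t).2 (c t) then (1 : ℝ) else 0) = 0 := by
          simp only [not_forall] at hc
          obtain ⟨t, ht⟩ := hc
          exact Finset.prod_eq_zero (Finset.mem_univ t) (if_neg ht)
        rw [this]; ring
    have e1 : ∏ t : T, ∑ s, D.u ω (D.nb y.1 t).1 (D.nb y.1 t).2 s = 1 :=
      Finset.prod_eq_one fun t _ => sum_u h ω _ _
    have e2 : ∏ t : T, ∑ s, D.u ω (D.nb y.1 t).1 (D.nb y.1 t).2 s =
        ∑ c : T → S, ∏ t, D.u ω (D.nb y.1 t).1 (D.nb y.1 t).2 (c t) := by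
      rw [Finset.prod_univ_sum, Fintype.piFinset_univ]
    have e3 : ∏ t, ∑ s, D.u ω (D.nb y.1 t).1 (D.nb y.1 t).2 s *
          (if okv (D.nb y.1 t).2 s then (1 : ℝ) else 0) =
        ∑ c : T → S, ∏ t, (D.u ω (D.nb y.1 t).1 (D.nb y.1 t).2 (c t) *
          (if okv (D.nb y.1 t).2 (c t) then (1 : ℝ) else 0)) := by
      rw [Finset.prod_univ_sum, Fintype.piFinset_univ]
    have e12 : ∑ c : T → S, ∏ t, D.u ω (D.nb y.1 t).1 (D.nb y.1 t).2 (c t) = 1 := by
      rw [← e2, e1]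
    have e4 : ∑ c : T → S, ((∏ t, D.u ω (D.nb y.1 t).1 (D.nb y.1 t).2 (c t)) *
          (if ∀ t, okv (D.nb y.1 t).2 (c t) then (0 : ℝ) else 1)) +
        ∑ c : T → S, ∏ t, (D.u ω (D.nb y.1 t).1 (D.nb y.1 t).2 (c t) *
          (if okv (D.nb y.1 t).2 (c t) then (1 : ℝ) else 0)) =
        ∑ c : T → S, ∏ t, D.u ω (D.nb y.1 t).1 (D.nb y.1 t).2 (c t) := by
      rw [← Finset.sum_add_distrib]
      refine Finset.sum_congr rfl fun c _ => ?_
      exact hpt c
    rw [e3]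
    linarith
  have hη : 0 ≤ 1 - η := by linarith
  have hle : ∀ y : ↥β, ∑ c : T → S, ((∏ t, D.u ω (D.nb y.1 t).1 (D.nb y.1 t).2 (c t)) *
          (if ∀ t, okv (D.nb y.1 t).2 (c t) then (0 : ℝ) else 1)) ≤
        1 - (1 - η) ^ Fintype.card T := by
    intro y
    rw [hone y]
    have : (1 - η) ^ Fintype.card T ≤ ∏ t, ∑ s, D.u ω (D.nb y.1 t).1 (D.nb y.1 t).2 s *
          (if okv (D.nb y.1 t).2 s then (1 : ℝ) else 0) := by
      calc (1 - η) ^ Fintype.card T = ∏ _t : T, (1 - η) := by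
            rw [Finset.prod_const, Finset.card_univ]
        _ ≤ _ := Finset.prod_le_prod (fun _ _ => hη) fun t _ =>
            block_mass h ω okv h0 hv _ _
    linarith
  calc ∏ y : ↥β, ∑ c : T → S, ((∏ t, D.u ω (D.nb y.1 t).1 (D.nb y.1 t).2 (c t)) *
          (if ∀ t, okv (D.nb y.1 t).2 (c t) then (0 : ℝ) else 1))
      ≤ ∏ _y : ↥β, (1 - (1 - η) ^ Fintype.card T) := by
        refine Finset.prod_le_prod (fun y _ => ?_) fun y _ => hle y
        refine Finset.sum_nonneg fun c _ => mul_nonneg (Finset.prod_nonneg fun t _ =>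
          u_nonneg D ω _ _ _) ?_
        split_ifs <;> norm_num
    _ = (1 - (1 - η) ^ Fintype.card T) ^ β.card := by
        rw [Finset.prod_const, Finset.card_univ, Fintype.card_coe]

end Data

end Pool.Agent.Lib.MP_33d9ce_co.Star
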