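import Pool.Agent.Lib.MP_33d9ce_co.Star.Main

/-!
# Spanning hypercubes, general cells: parameters
-/

set_option autoImplicit false

noncomputable section

open Classical Finset

namespace Pool.Agent.Lib.MP_33d9ce_co.Star

/-- powers of `1 - x` -/
private lemma par_pow {x : ℝ} (h1 : x < 1) (n : ℕ) {c : ℝ}
    (hc : n * (x / (1 - x)) ≤ c) : Real.exp (-c) ≤ (1 - x) ^ n := by
  have hp : 0 < 1 - x := by linarith
  have h2 := Real.one_sub_inv_le_log_of_pos hp
  have h3 : 1 - (1 - x)⁻¹ = -(x / (1 - x)) := by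
    field_simp
    ring
  rw [h3] at h2
  have h4 : (1 - x) ^ n = Real.exp (n * Real.log (1 - x)) := by
    rw [mul_comm, Real.exp_mul, Real.exp_log hp, Real.rpow_natCast]
  rw [h4]
  apply Real.exp_le_exp.2
  have h5 : (n : ℝ) * -(x / (1 - x)) ≤ n * Real.log (1 - x) :=
    mul_le_mul_of_nonneg_left h2 (Nat.cast_nonneg _)
  linarith

private lemma par_big {C a : ℝ} (hC : 0 < C) (ha : 0 < a) :
    ∀ᶠ s : ℝ in Filter.atTop, C * s ^ 4 < Real.exp (a * s) := by
  have h1 := Real.tendsto_pow_mul_exp_neg_atTop_nhds_zero 4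
  have h2 : Filter.Tendsto (fun s : ℝ => a * s) Filter.atTop Filter.atTop :=
    Filter.tendsto_id.const_mul_atTop ha
  have h3 := (h1.comp h2).eventually (gt_mem_nhds (show (0 : ℝ) < a ^ 4 / C by positivity))
  filter_upwards [h3] with s hs
  simp only [Function.comp_apply] at hs
  rw [Real.exp_neg, ← div_eq_mul_inv, div_lt_div_iff₀ (Real.exp_pos _) hC] at hs
  have h4 : a ^ 4 * (C * s ^ 4) < a ^ 4 * Real.exp (a * s) := by
    calc a ^ 4 * (C * s ^ 4) = (a * s) ^ 4 * C := by ring
      _ < _ := hs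
  exact lt_of_mul_lt_mul_left h4 (by positivity)

private lemma par_two (s : ℝ) {k : ℕ} (hk : s ≤ k) : Real.exp (s / 2) ≤ 2 ^ k := by
  have h1 : (2 : ℝ) ^ k = Real.exp (k * Real.log 2) := by
    rw [mul_comm, Real.exp_mul, Real.exp_log (by norm_num), Real.rpow_natCast]
  rw [h1]
  apply Real.exp_le_exp.2
  have h2 := Real.log_two_gt_d9
  nlinarith

theorem exists_par : ∃ n0 : ℕ, ∀ n ≥ n0, ∀ k : ℕ, 100 ≤ k → (k : ℝ) ≤ √n →
    ∃ (κ m r h : ℕ) (η : ℝ), Par κ m r n h k η (2 * (337 / 384) ^ n) ∧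
      2 ^ n / (512 * k) ≤ (h : ℝ) := by
  have hsq : Filter.Tendsto (fun n : ℕ => √(n : ℝ)) Filter.atTop Filter.atTop :=
    Real.tendsto_sqrt_atTop.comp tendsto_natCast_atTop_atTop
  have hev := ((hsq.eventually (par_big (C := 1000) (a := 1 / 5) (by norm_num) (by norm_num))).and
    (hsq.eventually (Filter.eventually_ge_atTop (20 : ℝ)))).and
    (tendsto_natCast_atTop_atTop.eventually
      (par_big (C := 1000) (a := 1 / 1000) (by norm_num) (by norm_num)))
  obtain ⟨n0, hn0⟩ := Filter.eventually_atTop.1 hev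
  refine ⟨n0, fun n hn k hk hks => ?_⟩
  obtain ⟨⟨hbig, hs20⟩, hbign⟩ := hn0 n hn
  set s : ℝ := √(n : ℝ) with hs
  set x : ℝ := (n : ℝ) with hx
  have hs0 : 0 < s := by linarith
  have hsn : s ^ 2 = x := Real.sq_sqrt (Nat.cast_nonneg n)
  have hn400 : (400 : ℝ) ≤ x := by nlinarith
  have hx0 : 0 < x := by linarith
  have hsle : s ≤ x := by nlinarith
  have hs20x : 20 * s ≤ x := by nlinarith
  have hk' : (100 : ℝ) ≤ k := by exact_mod_cast hk
  have hk0 : (0 : ℝ) < k := by linarith
  -- `κ`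
  set κ : ℕ := ⌈s⌉₊ with hκ
  have hκ1 : s ≤ κ := Nat.le_ceil s
  have hκ2 : (κ : ℝ) < s + 1 := Nat.ceil_lt_add_one hs0.le
  -- `η`
  set η : ℝ := 1 / (64 * k) with hη
  have hη0 : 0 < η := by positivity
  have h2s := par_two s hκ1
  have h2n := par_two s (k := n) hsle
  have he2 : Real.exp (1 / 5 * s) ≤ Real.exp (s / 2) := Real.exp_le_exp.2 (by linarith)
  have hs4 : s ^ 3 ≤ s ^ 4 := pow_le_pow_right₀ (by linarith) (by norm_num)
  have hs4' : s ≤ s ^ 4 := by
    calc s = s ^ 1 := (pow_one s).symm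
      _ ≤ s ^ 4 := pow_le_pow_right₀ (by linarith) (by norm_num)
  -- powers
  have hq1 : Real.exp (-(x / 6000)) ≤ (1 - η) ^ n := by
    refine par_pow ?_ n ?_
    · rw [hη, div_lt_one (by positivity)]
      nlinarith
    · have e1 : η / (1 - η) = 1 / (64 * k - 1) := by
        rw [hη]
        have : (64 * (k : ℝ) - 1) ≠ 0 := by nlinarith
        field_simp
      have h1 : 1 / (64 * (k : ℝ) - 1) ≤ 1 / 6000 :=
        one_div_le_one_div_of_le (by positivity) (by linarith)
      rw [e1]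
      calc (n : ℝ) * (1 / (64 * (k : ℝ) - 1)) ≤ n * (1 / 6000) :=
            mul_le_mul_of_nonneg_left h1 (Nat.cast_nonneg _)
        _ = x / 6000 := by ring
  have h4η : 4 * η < 1 := by
    rw [hη, mul_one_div, div_lt_one (by positivity)]
    nlinarith
  have hq4 : Real.exp (-(x / 1500)) ≤ (1 - 4 * η) ^ n := by
    have e0 : 4 * η = 1 / (16 * k) := by
      rw [hη]
      field_simp
      norm_num
    refine par_pow h4η n ?_
    have e1 : 4 * η / (1 - 4 * η) = 1 / (16 * k - 1) := by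
      rw [e0]
      have : (16 * (k : ℝ) - 1) ≠ 0 := by nlinarith
      field_simp
    have h1 : 1 / (16 * (k : ℝ) - 1) ≤ 1 / 1500 :=
      one_div_le_one_div_of_le (by positivity) (by linarith)
    rw [e1]
    calc (n : ℝ) * (1 / (16 * (k : ℝ) - 1)) ≤ n * (1 / 1500) :=
          mul_le_mul_of_nonneg_left h1 (Nat.cast_nonneg _)
      _ = x / 1500 := by ring
  -- polynomials and exponentials of `x`
  have hx4 : x ≤ x ^ 4 := by
    calc x = x ^ 1 := (pow_one x).symm
      _ ≤ x ^ 4 := pow_le_pow_right₀ (by linarith) (by norm_num)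
  have hx43 : x ^ 3 ≤ x ^ 4 := pow_le_pow_right₀ (by linarith) (by norm_num)
  have hx42 : x ^ 2 ≤ x ^ 4 := pow_le_pow_right₀ (by linarith) (by norm_num)
  have hbx : Real.exp (1 / 1000 * x) ≤ Real.exp (x / 25) := Real.exp_le_exp.2 (by linarith)
  -- `m`
  have hy1 : (1 : ℝ) ≤ 4 * x * Real.exp (x / 6000) := by
    have : (1 : ℝ) ≤ Real.exp (x / 6000) := Real.one_le_exp (by positivity)
    nlinarith
  obtain ⟨m, hm1, hm2⟩ : ∃ m : ℕ, 4 * x * Real.exp (x / 6000) ≤ (2 : ℝ) ^ m ∧
      (2 : ℝ) ^ m ≤ 8 * x * Real.exp (x / 6000) := by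
    obtain ⟨m, h1, h2⟩ := exists_nat_pow_near hy1 (one_lt_two)
    refine ⟨m + 1, h2.le, ?_⟩
    rw [pow_succ]
    linarith
  have hmle : (m : ℝ) ≤ x / 100 := by
    have h1 : (2 : ℝ) ^ m ≤ Real.exp (x / 500) := by
      refine hm2.trans ?_
      have e1 : Real.exp (x / 500) = Real.exp (1 / 1000 * x) * Real.exp (x / 1000) := by
        rw [← Real.exp_add]
        congr 1
        ring
      rw [e1]
      refine mul_le_mul ?_ (Real.exp_le_exp.2 (by linarith)) (Real.exp_pos _).le (Real.exp_pos _).le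
      linarith
    have h2 : (2 : ℝ) ^ m = Real.exp (m * Real.log 2) := by
      rw [mul_comm, Real.exp_mul, Real.exp_log (by norm_num), Real.rpow_natCast]
    rw [h2, Real.exp_le_exp] at h1
    have h3 := Real.log_two_gt_d9
    have h4 : (0 : ℝ) ≤ m := Nat.cast_nonneg _
    nlinarith
  have hroom : 4 * κ + 4 * m ≤ n := by
    have h1 : (4 * κ + 4 * m : ℝ) ≤ n := by
      rw [← hx]
      nlinarith
    exact_mod_cast h1
  -- `h`
  set h : ℕ := ⌊η * 2 ^ n / 4⌋₊ with hh
  have hh1 : (h : ℝ) ≤ η * 2 ^ n / 4 := Nat.floor_le (by positivity)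
  have hh2 : η * 2 ^ n / 4 < h + 1 := Nat.lt_floor_add_one _
  refine ⟨κ, m, n - (4 * κ + 4 * m), h, η, ?_, ?_⟩
  swap
  · -- the size of `h`
    have h1 : η * 2 ^ n / 4 = 2 * (2 ^ n / (512 * k)) := by
      rw [hη]
      field_simp
      norm_num
    have h2 : 1 ≤ (2 : ℝ) ^ n / (512 * k) := by
      rw [one_le_div (by positivity)]
      linarith
    linarith
  -- the error
  have hδ : 2 * (337 / 384 : ℝ) ^ n ≤ 2 * Real.exp (-(x / 10)) := by
    have h1 : (337 / 384 : ℝ) ≤ Real.exp (-(1 / 10)) := by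
      have := Real.add_one_le_exp (-(1 / 10) : ℝ)
      linarith
    have h2 := pow_le_pow_left₀ (by norm_num) h1 n
    rw [← Real.exp_nat_mul] at h2
    have h3 : (n : ℝ) * -(1 / 10) = -(x / 10) := by
      rw [← hx]
      ring
    rw [h3] at h2
    linarith
  have herr : err n κ η (2 * (337 / 384) ^ n) ≤ 4 * x ^ 2 * Real.exp (-(x * (49 / 1000))) := by
    have e1 : x ^ 4 * (2 * (337 / 384 : ℝ) ^ n) ≤ x ^ 4 * (2 * Real.exp (-(x / 10))) :=
      mul_le_mul_of_nonneg_left hδ (by positivity)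
    have e2 : x ^ 2 * 2 ^ κ / 2 ^ (n - 1) ≤ x ^ 4 * Real.exp (-(x / 10)) := by
      have h1 : (2 : ℝ) ^ κ / 2 ^ (n - 1) ≤ Real.exp (-(x / 10)) := by
        have hn1 : 1 ≤ n := by
          have : (1 : ℝ) ≤ n := by linarith
          exact_mod_cast this
        have h1 : ∀ j : ℕ, (2 : ℝ) ^ j = Real.exp (j * Real.log 2) := fun j => by
          rw [mul_comm, Real.exp_mul, Real.exp_log (by norm_num), Real.rpow_natCast]
        rw [h1, h1, ← Real.exp_sub]
        apply Real.exp_le_exp.2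
        rw [Nat.cast_sub hn1, Nat.cast_one]
        have h2 := Real.log_two_gt_d9
        have h3 := Real.log_two_lt_d9
        have h4 : (κ : ℝ) - (n - 1) ≤ -(x / 2) := by
          rw [← hx]
          linarith
        nlinarith
      calc x ^ 2 * 2 ^ κ / 2 ^ (n - 1) = x ^ 2 * (2 ^ κ / 2 ^ (n - 1)) := by ring
        _ ≤ _ := mul_le_mul hx42 h1 (by positivity) (by positivity)
    have e3 : √(x ^ 4 * (2 * (337 / 384 : ℝ) ^ n) + x ^ 2 * 2 ^ κ / 2 ^ (n - 1)) ≤
        2 * x ^ 2 * Real.exp (-(x / 20)) := by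
      apply Real.sqrt_le_iff.2
      refine ⟨by positivity, ?_⟩
      have e4 : (2 * x ^ 2 * Real.exp (-(x / 20))) ^ 2 =
          4 * (x ^ 4 * Real.exp (-(x / 10))) := by
        rw [mul_pow, ← Real.exp_nat_mul]
        have : ((2 : ℕ) : ℝ) * -(x / 20) = -(x / 10) := by
          push_cast
          ring
        rw [this]
        ring
      rw [e4]
      have := mul_nonneg (by positivity : 0 ≤ x ^ 4) (Real.exp_pos (-(x / 10))).le
      linarith
    have e5 : ((1 - 4 * η) ^ n)⁻¹ ≤ Real.exp (x / 1500) := by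
      rw [inv_le_comm₀ (lt_of_lt_of_le (Real.exp_pos _) hq4) (Real.exp_pos _), ← Real.exp_neg]
      exact hq4
    unfold err
    rw [← hx]
    calc 2 * ((1 - 4 * η) ^ n)⁻¹ * √(x ^ 4 * (2 * (337 / 384 : ℝ) ^ n) +
          x ^ 2 * 2 ^ κ / 2 ^ (n - 1)) ≤
        2 * Real.exp (x / 1500) * (2 * x ^ 2 * Real.exp (-(x / 20))) :=
          mul_le_mul (mul_le_mul_of_nonneg_left e5 (by norm_num)) e3 (Real.sqrt_nonneg _)
            (by positivity)
      _ = 4 * x ^ 2 * Real.exp (x / 1500 + -(x / 20)) := by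
          rw [Real.exp_add]
          ring
      _ ≤ 4 * x ^ 2 * Real.exp (-(x * (49 / 1000))) :=
          mul_le_mul_of_nonneg_left (Real.exp_le_exp.2 (by linarith)) (by positivity)
  have hb2 : x ^ 4 * Real.exp (-(x / 25)) < 1 / 1000 := by
    rw [Real.exp_neg, ← div_eq_mul_inv, div_lt_iff₀ (Real.exp_pos _)]
    linarith
  refine ⟨by omega, ?_, hη0, h4η, ?_, ?_, ?_, ?_, ?_, ?_⟩
  · have : (4 : ℝ) ≤ κ := by linarith
    exact_mod_cast this
  · apply le_of_eq
    rw [hη]
    field_simp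
    norm_num
  · linarith
  · -- array
    have h1 : (2 : ℝ) ^ n * 2 ^ (n - 1 - κ) ≤ Real.exp (2 * x * Real.log 2) := by
      have h2 : Real.exp (2 * x * Real.log 2) = (2 : ℝ) ^ n * 2 ^ n := by
        rw [← pow_add, ← two_mul]
        have h3 : (2 : ℝ) * x = ((2 * n : ℕ) : ℝ) := by push_cast; ring
        rw [h3, mul_comm, Real.exp_mul, Real.exp_log (by norm_num), Real.rpow_natCast]
      rw [h2]
      exact mul_le_mul_of_nonneg_left (pow_le_pow_right₀ (by norm_num) (by omega)) (by positivity)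
    refine lt_of_le_of_lt (mul_le_mul_of_nonneg_right h1 (Real.exp_pos _).le) ?_
    rw [← Real.exp_add, Real.exp_lt_one_iff]
    have h4 : 2 * x ≤ η * 2 ^ κ / 6 := by
      have e : η * 2 ^ κ / 6 = 2 ^ κ / (384 * k) := by
        rw [hη]
        field_simp
        norm_num
      rw [e, le_div_iff₀ (by positivity)]
      have h5 : x * k ≤ s ^ 3 := by
        calc x * k ≤ x * s := mul_le_mul_of_nonneg_left hks hx0.le
          _ = s ^ 3 := by rw [← hsn]; ring
      nlinarith
    have h5 := Real.log_two_lt_d9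
    have h6 : 2 * x * Real.log 2 < 2 * x := by nlinarith
    linarith
  · -- blocks
    have h0 : (0 : ℝ) < (1 - η) ^ n := lt_of_lt_of_le (Real.exp_pos _) hq1
    have hη1 : η ≤ 1 := by linarith
    have h1' : (1 - η) ^ n ≤ 1 := pow_le_one₀ (by linarith) (by linarith)
    have h1 : (1 - (1 - η) ^ n) ^ (2 ^ m) ≤ Real.exp (-(4 * x)) := by
      have h2 : 1 - (1 - η) ^ n ≤ Real.exp (-(1 - η) ^ n) := by
        have := Real.add_one_le_exp (-(1 - η) ^ n)
        linarith
      calc (1 - (1 - η) ^ n) ^ (2 ^ m) ≤ Real.exp (-(1 - η) ^ n) ^ (2 ^ m) :=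
            pow_le_pow_left₀ (by linarith) h2 _
        _ = Real.exp (-((2 : ℝ) ^ m * (1 - η) ^ n)) := by
            rw [← Real.exp_nat_mul]
            congr 1
            push_cast
            ring
        _ ≤ _ := by
            apply Real.exp_le_exp.2
            apply neg_le_neg
            have h3 : Real.exp (x / 6000) * (1 - η) ^ n ≥ 1 := by
              have h4 : Real.exp (x / 6000) * Real.exp (-(x / 6000)) = 1 := by
                rw [← Real.exp_add]
                simp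
              exact h4.symm.le.trans (mul_le_mul_of_nonneg_left hq1 (Real.exp_pos _).le)
            calc 4 * x ≤ 4 * x * (Real.exp (x / 6000) * (1 - η) ^ n) :=
                  le_mul_of_one_le_right (by positivity) h3
              _ = 4 * x * Real.exp (x / 6000) * (1 - η) ^ n := by ring
              _ ≤ _ := mul_le_mul_of_nonneg_right hm1 h0.le
    have h2 : (2 : ℝ) ^ (n - 1) * (2 ^ n * (1 - (1 - η) ^ n) ^ (2 ^ m)) ≤
        2 ^ n * (2 ^ n * Real.exp (-(4 * x))) := by
      refine mul_le_mul (pow_le_pow_right₀ (by norm_num) (by omega))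
        (mul_le_mul_of_nonneg_left h1 (by positivity)) ?_ (by positivity)
      exact mul_nonneg (by positivity) (pow_nonneg (by linarith) _)
    refine lt_of_le_of_lt h2 ?_
    have h3 : (2 : ℝ) ^ n ≤ Real.exp x := by
      have := pow_le_pow_left₀ (by norm_num) (by
        have := Real.add_one_le_exp (1 : ℝ)
        linarith : (2 : ℝ) ≤ Real.exp 1) n
      refine this.trans_eq ?_
      rw [← Real.exp_nat_mul, mul_one]
    calc (2 : ℝ) ^ n * (2 ^ n * Real.exp (-(4 * x))) ≤
        Real.exp x * (Real.exp x * Real.exp (-(4 * x))) :=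
          mul_le_mul h3 (mul_le_mul_of_nonneg_right h3 (Real.exp_pos _).le) (by positivity)
            (Real.exp_pos _).le
      _ = Real.exp (-(2 * x)) := by
          rw [← Real.exp_add, ← Real.exp_add]
          congr 1
          ring
      _ < 1 / 4 := by
          rw [Real.exp_neg, ← one_div]
          apply one_div_lt_one_div_of_lt (by norm_num)
          have := Real.add_one_le_exp (2 * x)
          linarith
  · -- err_small
    refine lt_of_le_of_lt herr ?_
    have h1 : (8 * x * Real.exp (x / 6000))⁻¹ / 4 ≤ ((2 : ℝ) ^ m)⁻¹ / 4 :=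
      div_le_div_of_nonneg_right (inv_anti₀ (by positivity) hm2) (by norm_num)
    refine lt_of_lt_of_le ?_ h1
    rw [← one_div, div_div, lt_div_iff₀ (by positivity)]
    have e1 : Real.exp (-(x * (49 / 1000))) * Real.exp (x / 6000) ≤ Real.exp (-(x / 25)) := by
      rw [← Real.exp_add]
      exact Real.exp_le_exp.2 (by linarith)
    have e2 : 4 * x ^ 2 * Real.exp (-(x * (49 / 1000))) * (8 * x * Real.exp (x / 6000) * 4) =
        128 * x ^ 3 * (Real.exp (-(x * (49 / 1000))) * Real.exp (x / 6000)) := by ring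
    rw [e2]
    calc 128 * x ^ 3 * (Real.exp (-(x * (49 / 1000))) * Real.exp (x / 6000)) ≤
        128 * x ^ 4 * Real.exp (-(x / 25)) :=
          mul_le_mul (mul_le_mul_of_nonneg_left hx43 (by norm_num)) e1 (by positivity)
            (by positivity)
      _ < 1 := by linarith
  · -- err_large
    refine lt_of_le_of_lt herr ?_
    have h1 : Real.exp (-(x / 1500)) / 5 / 4 ≤ (1 - 4 * η) ^ n / 5 / 4 := by linarith
    refine lt_of_lt_of_le ?_ h1
    have e1 : Real.exp (-(x * (49 / 1000))) ≤ Real.exp (-(x / 1500)) * Real.exp (-(x / 25)) := by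
      rw [← Real.exp_add]
      exact Real.exp_le_exp.2 (by linarith)
    have hE := Real.exp_pos (-(x / 1500))
    have e2 : 4 * x ^ 2 * Real.exp (-(x / 25)) < 1 / 20 := by
      have := mul_le_mul_of_nonneg_right hx42 (Real.exp_pos (-(x / 25))).le
      linarith
    calc 4 * x ^ 2 * Real.exp (-(x * (49 / 1000))) ≤
        4 * x ^ 2 * (Real.exp (-(x / 1500)) * Real.exp (-(x / 25))) :=
          mul_le_mul_of_nonneg_left e1 (by positivity)
      _ = Real.exp (-(x / 1500)) * (4 * x ^ 2 * Real.exp (-(x / 25))) := by ring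
      _ < Real.exp (-(x / 1500)) * (1 / 20) := mul_lt_mul_of_pos_left e2 hE
      _ = Real.exp (-(x / 1500)) / 5 / 4 := by ring

end Pool.Agent.Lib.MP_33d9ce_co.Star
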