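import Pool.Agent.Lib.MP_33d9ce_co.Star.Inst
import Pool.Agent.Lib.MP_33d9ce_co.Star.Params
import Pool.Agent.Lib.MP_33d9ce_co.Star.Transport
import Pool.Agent.Lib.MP_33d9ce_co.Upper

/-!
# Spanning hypercubes: from partitions of the cube to the minimum degree threshold
-/

set_option autoImplicit false

noncomputable section

open Classical Finset

namespace Pool.Agent.Lib.MP_33d9ce_co.Star

theorem mem_admissible {κ m r n h k : ℕ} {η : ℝ}
    (hp : Par κ m r n h k η (2 * (337 / 384) ^ n)) (hP : HasPartition n k) :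
    h + 1 ∈ admissible n := by
  refine ⟨by omega, ?_⟩
  intro G _ hdeg
  obtain ⟨lab, h1, h2⟩ := exists_lab hp.n_eq hP
  have hn : 1 ≤ n := by
    have := hp.n_eq
    have := hp.κ_ge
    omega
  have hM : (337 / 192 : ℝ) ^ n = 2 * (337 / 384) ^ n * 2 ^ (n - 1) := by
    have e1 : (2 : ℝ) ^ n = 2 * 2 ^ (n - 1) := by
      rw [← pow_succ']
      congr 1
      omega
    have e2 : (337 / 192 : ℝ) ^ n = (337 / 384) ^ n * 2 ^ n := by
      rw [← mul_pow]
      norm_num
    rw [e2, e1]
    ring
  refine main_param (V := Fin (2 ^ n)) (S := Fin (17 * 2 ^ (κ - 4))) hp (by positivity) lab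
    (fun x => card_image_inst (h1 x)) (fun y => by
      rw [← hM]
      refine le_trans (le_of_eq ?_) (h2 y)
      exact congrArg Nat.cast card_filter_inst) (by simp) (by simp) G ?_
  intro v
  have h1 := hdeg v
  have h2 : ({a | ¬ G.Adj a v} : Finset (Fin (2 ^ n))).card + G.degree v = 2 ^ n := by
    have h3 : (univ.filter fun a => G.Adj a v) = G.neighborFinset v := by
      ext a
      simp [SimpleGraph.adj_comm]
    have h4 := Finset.card_filter_add_card_filter_not (s := (univ : Finset (Fin (2 ^ n))))
      (fun a => G.Adj a v)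
    rw [h3, SimpleGraph.card_neighborFinset_eq_degree, Finset.card_univ, Fintype.card_fin] at h4
    rw [add_comm]
    refine Eq.trans (congrArg (G.degree v + ·) ?_) h4
    exact card_filter_inst
  have h6 : ({a | ¬ G.Adj a v} : Finset (Fin (2 ^ n))).card ≤ h := by omega
  exact le_trans (le_of_eq card_filter_inst) h6

/-- If the cube `{0,1}^n` has a partition into sets contained in Hamming balls of radius `n / 4` such that
the neighbours of every vertex meet at most `k` of them, then `u_n ≥ 2 ^ n / (512 k)`. -/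
theorem threshold_of_partition : ∃ k0 n0 : ℕ, ∀ n ≥ n0, ∀ k ≥ k0, (k : ℝ) ≤ √n → HasPartition n k →
    2 ^ n / (512 * k) ≤ (threshold n : ℝ) := by
  obtain ⟨n0, hn0⟩ := exists_par
  refine ⟨100, max n0 1, fun n hn k hk hks hP => ?_⟩
  obtain ⟨κ, m, r, h, η, hp, hle⟩ := hn0 n (le_trans (le_max_left _ _) hn) k hk hks
  have h1 : h + 1 ≤ threshold n :=
    (threshold_isGreatest (le_trans (le_max_right _ _) hn)).2 (mem_admissible hp hP)
  have h2 : (h : ℝ) ≤ threshold n := by exact_mod_cast le_trans (Nat.le_succ h) h1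
  exact hle.trans h2

end Pool.Agent.Lib.MP_33d9ce_co.Star
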