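import Pool.Agent.Lib.MP_33d9ce_co.Star.Bayes
import Pool.Agent.Lib.MP_33d9ce_co.Slack.Cyl

/-!
# Spanning hypercubes, slack scheme: expectations of one odd vertex
-/

set_option autoImplicit false

noncomputable section

open Classical Finset

namespace Pool.Agent.Lib.MP_33d9ce_co.Star

variable {P Q I S Y T W : Type} [Fintype P] [Fintype Q] [Fintype I] [Fintype S] [Fintype Y] [Fintype T] [Fintype W]

namespace Data

variable (D : Data P Q I S Y T W) {θ : ℝ} {μ : (Q → W) → I → (P → S) → ℝ}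

theorem Ex_mono (hμ : D.IsLaw μ) {F G : (Q → W) → (I → P → S) → ℝ}
    (hFG : ∀ ω σ, (∏ i, μ ω i (σ i)) ≠ 0 → F ω σ ≤ G ω σ) : Ex μ F ≤ Ex μ G := by
  unfold Ex
  refine mul_le_mul_of_nonneg_left ?_ (by positivity)
  refine Finset.sum_le_sum fun ω _ => Finset.sum_le_sum fun σ _ => ?_
  by_cases h : (∏ i, μ ω i (σ i)) = 0
  · rw [h, zero_mul, zero_mul]
  · exact mul_le_mul_of_nonneg_left (hFG ω σ h) (Finset.prod_nonneg fun i _ => hμ.nonneg ω i _)

theorem Ex_im {D : Data P Q I S Y T W} (h : D.Good θ) (hμ : D.IsLaw μ) (y : Y)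
    (F : (Q → W) → (T → S) → ℝ) :
    Ex μ (fun ω σ => F ω (D.im σ y)) =
      ((Fintype.card W : ℝ) ^ Fintype.card Q)⁻¹ * ∑ ω : Q → W, ∑ a, D.law ω y a * F ω a := by
  unfold Ex
  congr 1
  refine Finset.sum_congr rfl fun ω _ => ?_
  have h1 := Slack.cyl (μ ω) (hμ.sum_one ω) (fun t => (D.nb y t).2) (h.ginj y)
    (fun t => (D.nb y t).1) (F ω)
  refine Eq.trans h1 (Finset.sum_congr rfl fun a _ => ?_)
  congr 1
  unfold law
  refine Finset.prod_congr rfl fun t _ => ?_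
  exact hμ.marg ω (D.nb y t).2 (D.nb y t).1 (a t)

/-- averaging over all labels can be done by first resampling the label of one cell -/
theorem resample (p : Q) (G : (Q → W) → ℝ) :
    (Fintype.card W : ℝ) * ∑ ω : Q → W, G ω = ∑ ω : Q → W, ∑ w, G (Function.update ω p w) := by
  have inv : Function.Involutive
      (fun x : (Q → W) × W => ((Function.update x.1 p x.2, x.1 p) : (Q → W) × W)) := by
    rintro ⟨ω, w⟩
    simp
  have h1 := Equiv.sum_comp (inv.toPerm _) (fun x : (Q → W) × W => G x.1)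
  have h2 : ∑ x : (Q → W) × W, G x.1 = (Fintype.card W : ℝ) * ∑ ω : Q → W, G ω := by
    rw [Fintype.sum_prod_type, Finset.mul_sum]
    refine Finset.sum_congr rfl fun ω _ => ?_
    simp
  rw [← h2, ← h1, Fintype.sum_prod_type]
  rfl

private lemma ExA_cardW {D : Data P Q I S Y T W} (h : D.Good θ) : (0 : ℝ) < Fintype.card W := by
  have := h.nonemptyW
  exact_mod_cast Fintype.card_pos

private lemma ExA_card_fun : (∑ _ω : Q → W, (1 : ℝ)) = (Fintype.card W : ℝ) ^ Fintype.card Q := by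
  simp

theorem Ex_post {D : Data P Q I S Y T W} (h : D.Good θ) (hμ : D.IsLaw μ) (y : Y) (w : W) :
    Ex μ (fun ω σ => D.post ω y (D.im σ y) w) = (Fintype.card W : ℝ)⁻¹ := by
  rw [Ex_im h hμ y (fun ω a => D.post ω y a w)]
  have h0 := ExA_cardW h
  have h1 := resample (D.cell y) (fun ω : Q → W => ∑ a, D.law ω y a * D.post ω y a w)
  simp only [bayes h] at h1
  rw [ExA_card_fun] at h1
  have h2 : (0 : ℝ) < (Fintype.card W : ℝ) ^ Fintype.card Q := by positivity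
  have h3 : ∑ ω : Q → W, ∑ a, D.law ω y a * D.post ω y a w =
      (Fintype.card W : ℝ)⁻¹ * (Fintype.card W : ℝ) ^ Fintype.card Q := by
    rw [← h1, ← mul_assoc, inv_mul_cancel₀ h0.ne', one_mul]
  rw [h3, mul_comm, mul_assoc, mul_inv_cancel₀ h2.ne', mul_one]

theorem Ex_comp {D : Data P Q I S Y T W} (h : D.Good θ) (hμ : D.IsLaw μ) (y : Y) :
    Ex μ (fun _ σ => ((D.comp y (D.im σ y)).card : ℝ)⁻¹) ≤
      ((1 - θ) ^ Fintype.card T)⁻¹ * (Fintype.card W : ℝ)⁻¹ := by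
  rw [Ex_im h hμ y (fun _ a => ((D.comp y a).card : ℝ)⁻¹)]
  have h0 := ExA_cardW h
  have h1 := resample (D.cell y) (fun ω : Q → W => ∑ a, D.law ω y a * ((D.comp y a).card : ℝ)⁻¹)
  have h2 : (0 : ℝ) < (Fintype.card W : ℝ) ^ Fintype.card Q := by positivity
  have h4 : (Fintype.card W : ℝ) * ∑ ω : Q → W, ∑ a, D.law ω y a * ((D.comp y a).card : ℝ)⁻¹ ≤
      (Fintype.card W : ℝ) ^ Fintype.card Q * ((1 - θ) ^ Fintype.card T)⁻¹ := by
    rw [h1]
    refine (Finset.sum_le_sum fun ω _ => planted h ω y).trans (le_of_eq ?_)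
    simp
  have h3 : ∑ ω : Q → W, ∑ a, D.law ω y a * ((D.comp y a).card : ℝ)⁻¹ ≤
      (Fintype.card W : ℝ)⁻¹ * ((Fintype.card W : ℝ) ^ Fintype.card Q *
        ((1 - θ) ^ Fintype.card T)⁻¹) := by
    rw [← div_eq_inv_mul, le_div_iff₀ h0, mul_comm]
    exact h4
  refine (mul_le_mul_of_nonneg_left h3 (by positivity)).trans (le_of_eq ?_)
  field_simp

private lemma ExA_sum (μ : (Q → W) → I → (P → S) → ℝ) (F : W → (Q → W) → (I → P → S) → ℝ) :
    ∑ w, Ex μ (F w) = Ex μ (fun ω σ => ∑ w, F w ω σ) := by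
  unfold Ex
  rw [← Finset.mul_sum]
  congr 1
  refine Finset.sum_comm.trans (Finset.sum_congr rfl fun ω _ => ?_)
  refine Finset.sum_comm.trans (Finset.sum_congr rfl fun σ _ => ?_)
  rw [Finset.mul_sum]

private lemma ExA_cmul (μ : (Q → W) → I → (P → S) → ℝ) (c : ℝ)
    (F : (Q → W) → (I → P → S) → ℝ) :
    Ex μ (fun ω σ => c * F ω σ) = c * Ex μ F := by
  unfold Ex
  rw [mul_left_comm c]
  congr 1
  rw [Finset.mul_sum]
  refine Finset.sum_congr rfl fun ω _ => ?_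
  rw [Finset.mul_sum]
  refine Finset.sum_congr rfl fun σ _ => ?_
  ring

theorem Ex_post_sq {D : Data P Q I S Y T W} (h : D.Good θ) (hμ : D.IsLaw μ) (y : Y) :
    ∑ w, Ex μ (fun ω σ => D.post ω y (D.im σ y) w ^ 2) ≤
      (((1 - θ) ^ Fintype.card T)⁻¹) ^ 2 * (Fintype.card W : ℝ)⁻¹ := by
  have hΛ : (0 : ℝ) ≤ ((1 - θ) ^ Fintype.card T)⁻¹ := by
    have := h.theta_lt
    exact inv_nonneg.2 (pow_nonneg (by linarith) _)
  rw [ExA_sum]
  have h1 : Ex μ (fun ω σ => ∑ w, D.post ω y (D.im σ y) w ^ 2) ≤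
      Ex μ (fun _ σ => ((1 - θ) ^ Fintype.card T)⁻¹ * ((D.comp y (D.im σ y)).card : ℝ)⁻¹) := by
    refine D.Ex_mono hμ fun ω σ _ => ?_
    have hc : (0 : ℝ) ≤ ((1 - θ) ^ Fintype.card T)⁻¹ * ((D.comp y (D.im σ y)).card : ℝ)⁻¹ := by
      positivity
    calc ∑ w, D.post ω y (D.im σ y) w ^ 2
        ≤ ∑ w, ((1 - θ) ^ Fintype.card T)⁻¹ * ((D.comp y (D.im σ y)).card : ℝ)⁻¹ *
            D.post ω y (D.im σ y) w := by
          refine Finset.sum_le_sum fun w _ => ?_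
          rw [sq]
          exact mul_le_mul_of_nonneg_right (post_le h ω y _ w) (D.post_nonneg ω y _ w)
      _ = ((1 - θ) ^ Fintype.card T)⁻¹ * ((D.comp y (D.im σ y)).card : ℝ)⁻¹ *
            ∑ w, D.post ω y (D.im σ y) w := by rw [Finset.mul_sum]
      _ ≤ ((1 - θ) ^ Fintype.card T)⁻¹ * ((D.comp y (D.im σ y)).card : ℝ)⁻¹ * 1 :=
          mul_le_mul_of_nonneg_left (D.sum_post_le ω y _) hc
      _ = _ := mul_one _
  refine h1.trans ?_
  rw [ExA_cmul μ _ (fun _ σ => ((D.comp y (D.im σ y)).card : ℝ)⁻¹), sq, mul_assoc]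
  exact mul_le_mul_of_nonneg_left (Ex_comp h hμ y) hΛ

end Data

end Pool.Agent.Lib.MP_33d9ce_co.Star
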