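import Pool.Agent.Lib.MP_33d9ce_co.Star.PDefs

/-!
# Spanning hypercubes: partitions of the cube with small star multiplicity, statements

Conventions: `n = Fintype.card ι`, `r = n / 4` (natural division), `d = hammingDist`.
-/

set_option autoImplicit false

noncomputable section

open Classical Finset

namespace Pool.Agent.Lib.MP_33d9ce_co.Star

/-- **hit** (abstract first hit lemma).  Proof by induction on `L`, for all `T`.  `L = 0`: `List.ofFn ω = []`,
`fst B [] = none`, so nothing is bad; if `T` is empty the left side is `1 = q ^ 0 * N ^ 0`, otherwise it is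
`0`.  `L + 1`: write `ω = Fin.cons c ω'` (`Fin.consEquiv`, or `Fintype.card_congr` with `Fin.cons`), so
`List.ofFn ω = c :: List.ofFn ω'` and `fst B (c :: l) = if c ∈ B then some c else fst B l`
(`List.find?_cons`).  For fixed `c` let `I = {t ∈ T | c ∈ B t}`.  All `t ∈ T` are bad for `ω` iff `c ∈ S t` for all
`t ∈ I` and all `t ∈ T \ I` are bad for `ω'`.  So the number of `ω` is
`∑_c [c ∈ S t for all t ∈ I] * #{ω' | all t ∈ T \ I bad} ≤ ∑_c [ok] * q ^ (|T| - |I|) * N ^ L` by induction (the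
hypothesis holds for the subsets of `T \ I`), and
`∑_c [ok] q ^ (|T| - |I|) = q ^ |T| * ∑_c [ok] (q⁻¹) ^ |I| ≤ q ^ |T| * (#{c | I = ∅} + |⋃ B t|) = q ^ |T| * N`
by the hypothesis for `T' = T` (the `c` with `I = ∅` are ok and contribute `1` each; they are exactly the `c` outside
`T.biUnion B`). -/
def S_hit : Prop := ∀ (Ω τ : Type) [Fintype Ω] (B S : τ → Finset Ω) (q : ℝ) (T : Finset τ) (L : ℕ),
  (∀ t, S t ⊆ B t) → 0 < q → q ≤ 1 →
  (∀ T' ⊆ T, ∑ c : Ω, (if (∃ t ∈ T', c ∈ B t) ∧ (∀ t ∈ T', c ∈ B t → c ∈ S t) then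
    (q⁻¹) ^ (T'.filter fun t => c ∈ B t).card else 0) ≤ ((T'.biUnion B).card : ℝ)) →
  (({ω : Fin L → Ω | ∀ t ∈ T, BadAt (B t) (S t) ω} : Finset (Fin L → Ω)).card : ℝ) ≤
    q ^ T.card * (Fintype.card Ω : ℝ) ^ L

/-- **pair** (a sum over pairs).  `∑_{t < s in T} 4^{-(s-t)} (1 + (21/20)^(s-t+1)) ≤ 7/3 |T|`: for fixed `t` the sum over
`s ∈ T, s > t` is at most `∑_{j ≥ 1} 4^{-j} (1 + 2^{j+1}) = 1/3 + 2` (`(21/20)^(j+1) ≤ 2^(j+1)`; compare with a finite geometric
sum over `j ∈ range`; injectivity of `s ↦ s - t` on `s > t`). -/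
def S_pair : Prop := ∀ T : Finset ℕ,
  ∑ t ∈ T, ∑ s ∈ T.filter (t < ·), ((1 / 4 : ℝ)) ^ (s - t) * (1 + (21 / 20 : ℝ) ^ (s - t + 1)) ≤
    7 / 3 * T.card

/-- **ineq** (the inequality of Lemma A), from `pair`.  For `c : Ω` let `I = {t ∈ T | c ∈ B t}` and
`P = ∑_{t < s in I} 1`, `Q = ∑_{t < s in I} (21/20)^(s-t+1)`.  Pointwise: (1) the summand on the left is at most
`(21/20) * #{t ∈ T | c ∈ S t} + Q`: if `I` has one element `t` then `c ∈ S t`, value `21/20`; if `|I| ≥ 2` let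
`t < s` be its minimum and maximum, `|I| ≤ s - t + 1` (`I ⊆ Icc t s`), so the value `(21/20)^|I|` is at most one term of `Q`.
(2) `[I ≠ ∅] ≥ |I| - P` (for `|I| = m`: `P = m (m-1)/2` and `1 ≥ m - m (m-1)/2` for `m ≥ 1`; or induction; or: for the minimum
`t₀` of `I` the pairs `(t₀, s)` give `P ≥ |I| - 1`).  Sum over `c` (exchange sums): the left side is at most
`(21/20) * ∑_t |S t| + ∑_{t<s} |B t ∩ B s| (21/20)^(s-t+1)`, the right side is at least
`∑_t |B t| - ∑_{t<s} |B t ∩ B s|`.  With the bounds: it suffices that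
`(21/20)(10/11) b |T| + (b/100) ∑_{t<s} 4^{-(s-t)} (1 + (21/20)^(s-t+1)) ≤ b |T|`, and
`21/22 + 7/300 < 1`. -/
def S_ineq : Prop := ∀ (Ω : Type) [Fintype Ω] (B S : ℕ → Finset Ω) (b : ℝ) (T : Finset ℕ), 0 ≤ b →
  (∀ t ∈ T, ((B t).card : ℝ) = b) → (∀ t ∈ T, ((S t).card : ℝ) ≤ 10 / 11 * b) →
  (∀ t ∈ T, ∀ s ∈ T, t < s → ((B t ∩ B s).card : ℝ) ≤ b / 100 * (1 / 4) ^ (s - t)) →
  ∑ c : Ω, (if (∃ t ∈ T, c ∈ B t) ∧ (∀ t ∈ T, c ∈ B t → c ∈ S t) then
    ((21 / 20 : ℝ)) ^ (T.filter fun t => c ∈ B t).card else 0) ≤ ((T.biUnion B).card : ℝ)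

/-- **bc** (cardinality of spheres and balls).  The map `c ↦ {a | c a ≠ w a}` is a bijection from the points onto the subsets of
`ι` (`Bool`: inverse `F ↦ fun a => if a ∈ F then !w a else w a`), and `hammingDist c w` is the size of the subset
(`Finset.card_powersetCard`). -/
def S_bc : Prop := ∀ (ι : Type) [Fintype ι] (w : Pt ι),
  (∀ i, ({c | hammingDist c w = i} : Finset (Pt ι)).card = (Fintype.card ι).choose i) ∧
  ∀ r, (ball r w).card = ∑ i ∈ range (r + 1), (Fintype.card ι).choose i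

/-- **shell**, from `bc`.  Let `n ≥ 1000`, `r = n / 4`.  `C(n,i) ≤ 10 C(n,i-2)` for `i = r - 1, r`
(`C(n,i) i = C(n,i-1) (n-i+1)`, `C(n,i-1) (i-1) = C(n,i-2)(n-i+2)`, so
`C(n,i) i (i-1) = C(n,i-2) (n-i+1)(n-i+2)` and `(n-i+1)(n-i+2) ≤ 10 i (i-1)` since `n ≤ 4 i + 7`, `i ≥ 249`).  The shell consists
of the spheres of radius `r - 1`, `r`: `|shell| = C(n,r-1) + C(n,r) ≤ 10 (C(n,r-3) + C(n,r-2)) ≤ 10 (|ball| - |shell|)`
(`|ball| = ∑_{i ≤ r} C(n,i)`), so `11 |shell| ≤ 10 |ball|`. -/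
def S_shell : Prop := ∀ (ι : Type) [Fintype ι] (w : Pt ι), 1000 ≤ Fintype.card ι →
  ((shell (Fintype.card ι / 4) w).card : ℝ) ≤ 10 / 11 * (ball (Fintype.card ι / 4) w).card

/-- **mom** (an exponential moment on a sphere).  Let `A` be a finite set of coordinates, `D = |A|`.
`∑_{d(c,w) = i} 3^{#{a ∈ A | c a ≠ w a}} ≤ C(n,i) (1 + 2 i / n)^D`, stated for `4 i ≤ n` as `≤ C(n,i) (3/2)^D`.
Proof: `3^m = ∑_{j} C(m,j) 2^j = ∑_{F ⊆ A, c ≠ w on F} 2^|F|`, so the left side is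
`∑_{F ⊆ A} 2^|F| #{c | d(c,w) = i, c ≠ w on F} = ∑_{F ⊆ A} 2^|F| C(n-|F|, i-|F|)` (subsets of size `i` containing `F`; `0` if
`|F| > i`), and `C(n-j,i-j) ≤ C(n,i) (1/4)^j` (`C(n-j,i-j) = C(n,i) i(i-1)...(i-j+1)/(n(n-1)...(n-j+1))`; induction on `j`:
`C(n-j-1,i-j-1) (n-j) = C(n-j,i-j) (i-j)` and `4 (i-j) ≤ n-j`).  So the left side is at most
`C(n,i) ∑_{F ⊆ A} (2/4)^|F| = C(n,i) (3/2)^D`.  (An induction on `A` is also possible.) -/
def S_mom : Prop := ∀ (ι : Type) [Fintype ι] (w : Pt ι) (A : Finset ι) (i : ℕ), 4 * i ≤ Fintype.card ι →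
  ∑ c ∈ ({c | hammingDist c w = i} : Finset (Pt ι)), (3 : ℝ) ^ (A.filter fun a => c a ≠ w a).card ≤
    (Fintype.card ι).choose i * (3 / 2) ^ A.card

/-- **inter** (intersection of balls), from `bc` and `mom`.  Let `D = d(w,w')`, `r = n / 4`, `s = √3`, `A` the set of coordinates
where `w ≠ w'`.  If `d(c,w) = i ≤ r` and `c` disagrees with `w` on exactly `a` coordinates of `A` then
`d(c,w') = i + D - 2a` (in `Bool`: on `A`, `c` agrees with exactly one of `w, w'`), so `d(c,w') ≤ r` gives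
`D ≤ (r - i) + 2 a` and `1 ≤ s^(r-i) 3^a / s^D`.  Summing with `mom`:
`|ball r w ∩ ball r w'| ≤ ∑_{i ≤ r} C(n,i) (3/2)^D s^(r-i) / s^D`.  `3 C(n,i-1) ≤ C(n,i)` for `1 ≤ i ≤ r`
(`C(n,i) i = C(n,i-1)(n-i+1)`, `n - i + 1 ≥ 3 i`), so `C(n,i) ≤ C(n,r) 3^(-(r-i))` and
`∑_i C(n,i) s^(r-i) ≤ C(n,r) ∑_j (s/3)^j ≤ (12/5) C(n,r) ≤ (12/5) |ball r w|` (`s/3 = 1/√3 < 0.5774`, `1/(1-0.5774) < 2.4`).
Total: `≤ (12/5) ((3/2)/s)^D |ball|`, `((3/2)/s)^2 = 3/4`. -/
def S_inter : Prop := ∀ (ι : Type) [Fintype ι] (w w' : Pt ι),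
  ((ball (Fintype.card ι / 4) w ∩ ball (Fintype.card ι / 4) w').card : ℝ) ≤
    12 / 5 * (3 / 2 / √3) ^ hammingDist w w' * (ball (Fintype.card ι / 4) w).card

/-- **poly**: a ball of radius `a` has at most `(n+1)^a` points.  Induction on `a`: every point of the ball of radius `a + 1` is
a point of the ball of radius `a`, or such a point changed in one coordinate (map `(x, none) ↦ x`, `(x, some i) ↦ Function.update x i (!x i)`
from `ball a w × Option ι`, onto `ball (a+1) w`). -/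
def S_poly : Prop := ∀ (ι : Type) [Fintype ι] (w : Pt ι) (a : ℕ),
  (ball a w).card ≤ (Fintype.card ι + 1) ^ a

/-- **sep** (Lemma A), from `hit`, `ineq`, `bc`, `shell`, `inter`.  Apply `hit` with `Ω = Pt ι`, `q = 20/21`,
`B t = ball r (w t)`, `S t = shell r (w t)`; the hypothesis for `T' ⊆ T` is `ineq` with `b = |ball r (w t)|` (all balls have the
same size by `bc`), `shell`, and `inter`: for `t < s` in `T`, `d(w t, w s) ≥ 48 (s - t)`, and
`(12/5) x^d ≤ (12/5) (3/4)^(24 (s-t)) ≤ (1/100) (1/4)^(s-t)` where `x = (3/2)/√3 < 1`, `x^2 = 3/4`, since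
`(3/4)^24 ≤ 1/960` and `s - t ≥ 1`.  `|Pt ι| = 2 ^ n`. -/
def S_sep : Prop := ∀ (ι : Type) [Fintype ι] (w : ℕ → Pt ι) (T : Finset ℕ) (L : ℕ),
  1000 ≤ Fintype.card ι → (∀ t ∈ T, ∀ s ∈ T, t < s → 48 * (s - t) ≤ hammingDist (w t) (w s)) →
  (({ω : Fin L → Pt ι | ∀ t ∈ T, BadAt (ball (Fintype.card ι / 4) (w t))
    (shell (Fintype.card ι / 4) (w t)) ω} : Finset (Fin L → Pt ι)).card : ℝ) ≤
    (20 / 21) ^ T.card * ((2 : ℝ) ^ Fintype.card ι) ^ L

/-- **wlen**: length and extent of dyadic sequences.  Induction on `k` (for all `z`).  `W lam (k+1) z`: `l = u ++ v`, `u ∈ W k z`,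
`v ∈ W k z'`, `d(z', z) ≤ a + 1` with `a = ak lam k`: the entries of `u` are within `dk lam k ≤ dk lam (k+1)` of `z`, those of `v` within
`a + 1 + dk lam k = dk lam (k+1)`. -/
def S_wlen : Prop := ∀ (ι : Type) [Fintype ι] (lam k : ℕ) (z : Pt ι), ∀ l ∈ W lam k z,
  l.length = 2 ^ k ∧ ∀ x ∈ l, hammingDist z x ≤ dk lam k

/-- **wsep**, from `wlen`: dyadic sequences are linearly separated.  Induction on `k`.  For `l = u ++ v` in `W lam (k+1) z` and
`t < s < 2^(k+1)`: both `< 2^k`: induction for `u`; both `≥ 2^k`: induction for `v` (indices shifted by `2^k`); `t < 2^k ≤ s`: the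
entry `t` is within `dk lam k` of `z`, the entry `s` is at distance `≥ ak lam k = dk lam k + lam 2^(k+1)` from `z` (the filter in
the definition), and `s - t ≤ 2^(k+1)`. -/
def S_wsep : Prop := ∀ (ι : Type) [Fintype ι] (lam k : ℕ) (z : Pt ι), ∀ l ∈ W lam k z,
  ∀ t s, t < s → s < 2 ^ k → lam * (s - t) ≤ hammingDist (l.getD t fun _ => false) (l.getD s fun _ => false)

/-- **wcard**, from `poly`: `card_biUnion_le`, `card_image_le`, `card_filter_le`, induction:
`|W (k+1) z| ≤ |ball (a+1) z| * (max |W k|)^2 ≤ (n+1)^(a+1) * ((n+1)^ek)^2`. -/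
def S_wcard : Prop := ∀ (ι : Type) [Fintype ι] (lam k : ℕ) (z : Pt ι),
  (W lam k z).card ≤ (Fintype.card ι + 1) ^ ek lam k

/-- **wex** (Lemma B): every connection to a point at distance `≥ dk lam k` contains a dyadic sequence (`lam ≥ 1`).  Induction on `k`,
for all `A`, `z`.  `k = 0`: `[z]`.  `k → k + 1`, `a = ak lam k > 0`: `u ∈ W k z` with entries in `A` by induction (`dk lam k ≤ dk lam (k+1)`).
LAST EXIT: for every `y'` with `Conn A z y'` and `a ≤ d(z,y')` there is `z'` with `a ≤ d(z,z') ≤ a + 1` and `Conn A' z' y'`,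
`A' = {x ∈ A | a ≤ d(z,x)}`: induction on the chain (`Relation.ReflTransGen.head_induction_on` or plain induction on the last step):
the base `y' = z` is impossible (`d = 0 < a`); last step `x → y'`: if `a ≤ d(z,x)` extend the chain given by induction; otherwise
`d(z,y') ≤ d(z,x) + 2 ≤ a + 1`, take `z' = y'`.  Then `d(z',y) ≥ dk lam (k+1) - (a+1) = dk lam k`, so by induction (for `A'`) there is
`v ∈ W k z'` with entries in `A'`; `u ++ v ∈ W (k+1) z` (`z' ∈ ball (a+1) z`, `hammingDist_comm`). -/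
def S_wex : Prop := ∀ (ι : Type) [Fintype ι] (lam k : ℕ) (A : Set (Pt ι)) (z y : Pt ι), 0 < lam →
  Conn A z y → dk lam k ≤ hammingDist z y → ∃ l ∈ W lam k z, ∀ x ∈ l, x ∈ A

/-- **out** (the random choice), from `sep`, `wlen`, `wsep`, `wcard`.  Let `n ≥ 1000`, `N = 2^n`, `r = n/4`, `M = 2^K`, and suppose
`2^n (n+1)^(ek 48 K) (20/21)^(J M) < 1/2`.  Choose `L` with `2^n J (1 - 1/N)^L < 1/2` (`tendsto_pow_atTop_nhds_zero_of_lt_one`).
Count the `ω : Fin J → Fin L → Pt ι` (there are `(N^L)^J`).  (1) for `w` and `j` the `ω` for which no `ω j i` lies in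
`ball r w`: at most `(N-1)^L (N^L)^(J-1)` (the ball contains `w`); total over `w, j`: `< (N^L)^J / 2`.  (2) for `z` and `l ∈ W 48 K z`
the `ω` such that all entries of `l` are bad at all levels: `(#{ω' | all bad})^J ≤ ((20/21)^M N^L)^J` by `sep` (`w t = l.getD t (fun _ => false)`,
`T = range M`; `Fintype.piFinset`, `Fintype.card_piFinset_const`); number of `(z,l)`: `≤ 2^n (n+1)^(ek 48 K)`; total
`< (N^L)^J / 2`.  So some `ω` avoids all of this.  `(fst B l).isSome` iff some element of `l` lies in `B`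
(`List.find?_isSome`), `List.mem_ofFn`. -/
def S_out : Prop := ∀ (ι : Type) [Fintype ι] (J K : ℕ), 1000 ≤ Fintype.card ι →
  (2 : ℝ) ^ Fintype.card ι * ((Fintype.card ι + 1 : ℝ)) ^ ek 48 K * (20 / 21) ^ (J * 2 ^ K) < 1 / 2 →
  ∃ (L : ℕ) (ω : Fin J → Fin L → Pt ι),
    (∀ w j, (fst (ball (Fintype.card ι / 4) w) (List.ofFn (ω j))).isSome) ∧
    ∀ z, ∀ l ∈ W 48 K z, ∃ x ∈ l, x ∉ rest (Fintype.card ι / 4) ω

/-- **one** (a star sees at most one good centre per level).  If `d(w,w') ≤ 2`, the first centres `c`, `c'` in the balls of radius `r`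
around `w`, `w'` exist and are not in the shells, then `c = c'`.  Proof: `c ∈ ball r w`, `c ∉ shell r w`: `d(c,w) + 2 ≤ r`, so
`d(c,w') ≤ r`; symmetric.  So `c` is in both balls, `c'` too; the first element of the list in `ball r w` is `c` and the first in
`ball r w'` is `c'`: by `List.find?` induction on the list: the head is either in neither ball (recurse), or in one of them, say in
`ball r w`, then it is `c`, so also in `ball r w'`, so it is `c'`. -/
def S_one : Prop := ∀ (ι : Type) [Fintype ι] (r : ℕ) (w w' c c' : Pt ι) (l : List (Pt ι)),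
  hammingDist w w' ≤ 2 → fst (ball r w) l = some c → c ∉ shell r w → fst (ball r w') l = some c' →
  c' ∉ shell r w' → c = c'

/-- **part** (the partition for a given choice), from `out`, `wex`, `one`.  Let `ω` be as in `out`, `r = n / 4`, `E = rest r ω`.  Label of
`y`: if `y ∉ E`, let `j` be the least level at which `y` is not bad, `c` the first centre in `ball r y` at this level (it exists, and
`c ∉ shell r y`), label `inl (j, c)`; if `y ∈ E`: label `inr (component)`, the component being the finite set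
`{y' | Conn E y y'}` (symmetric and transitive relation on `E`, so equal for connected points).  STAR: `N(x) = {y | d(x,y) = 1}` has
diameter `≤ 2`: for every `j` at most one label `inl (j, ·)` (`one`), and all points of `E` in `N(x)` have the same
component; so the map `inl (j,c) ↦ some j`, `inr _ ↦ none` is injective on the labels of `N(x)`, and there are at most `J + 1`.
EXTENT: the label `inl (j,c)`: all `y'` with this label satisfy `d(c,y') ≤ r`, take `z = c`.  The label `inr F` of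
`y ∈ E`, `F` the component of `y`: all `y'` with this label lie in `F` (`y'` is in its own component), and
`d(y,y') < dk 48 K ≤ n/4` by `wex` and the second property of `ω`; take `z = y`. -/
def S_part : Prop := ∀ (ι : Type) [Fintype ι] (J K : ℕ), 1000 ≤ Fintype.card ι →
  (2 : ℝ) ^ Fintype.card ι * ((Fintype.card ι + 1 : ℝ)) ^ ek 48 K * (20 / 21) ^ (J * 2 ^ K) < 1 / 2 →
  dk 48 K ≤ Fintype.card ι / 4 →
  ∃ lab : Pt ι → (Fin J × Pt ι) ⊕ Finset (Pt ι),
    (∀ x, (({y | hammingDist x y = 1} : Finset (Pt ι)).image lab).card ≤ J + 1) ∧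
    ∀ y, ∃ z, ∀ y', lab y' = lab y → 4 * hammingDist y' z ≤ Fintype.card ι

/-- **num** (parameters).  `dk 48 k ≤ 2^k (48 k + 1)`, `ek 48 k ≤ 2^k (12 k (k+3) + k)` (inductions: `dk/2^k` increases by
`48 + 2^-(k+1)` at each step, `ek/2^k` by `(ak + 1)/2^(k+1) ≤ (48 (k+2) + 2)/2`).  For large `n` let `K` be the largest
integer with `2^K ≤ n / (400 log n)`, so `2^K > n / (800 log n)`, `K ≤ log n / log 2`, and `dk 48 K ≤ 2^K (48 K + 1) ≤ n/4`
(`48 / log 2 < 70`, `(70 log n + 1)/(400 log n) < 1/4 - 1/n`).  Then with `x = log (21/20) > 0.048`, the condition is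
`J 2^K x > ek log (n+1) + (n+1) log 2`; `ek log (n+1) ≤ 2^K (12 K^2 + 37 K) log (n+1)` and `(n+1) log 2 ≤ 2^K * 600 log n`; so it is enough that
`0.048 J ≥ (12 K^2 + 37 K) log (n+1) + 600 log n`, where `12 K^2 ≤ 25 (log n)^2`; `J = ⌈600 (log n)^3⌉ ` works for large `n`, and
`J + 1 ≤ 700 (log n)^3`. -/
def S_num : Prop := ∃ n0 : ℕ, ∀ n : ℕ, n0 ≤ n → ∃ J K : ℕ, 1000 ≤ n ∧
  (2 : ℝ) ^ n * ((n + 1 : ℝ)) ^ ek 48 K * (20 / 21) ^ (J * 2 ^ K) < 1 / 2 ∧
  dk 48 K ≤ n / 4 ∧ (J + 1 : ℝ) ≤ 700 * Real.log n ^ 3 ∧ Real.log n ≤ J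

end Pool.Agent.Lib.MP_33d9ce_co.Star
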