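import Pool.Agent.Lib.MP_33d9ce_co.Star.QDefs
import Pool.Agent.Lib.MP_33d9ce_co.Star.PStm

/-!
# Spanning hypercubes: dyadic sequences with small gaps, statements

These pieces improve the partition theorem (`PStm`) from `(log n)^3` to `(log n)^2 log log n`.  Conventions:
`n = Fintype.card ι`, `r = n / 4`, `d = hammingDist`, `a k = aq kap G k`, `D k = dq kap G k`, so
`D (k+1) = D k + a k + 1` and `a k = D k + D k / kap + G`.
-/

set_option autoImplicit false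

noncomputable section

open Classical Finset

namespace Pool.Agent.Lib.MP_33d9ce_co.Star

/-- **vlen**: as `S_wlen` (see `P_wlen.lean`).  Induction on `k` (for all `z`): `l = u ++ v`, `u ∈ V k z`, `v ∈ V k z'`, `d(z',z) ≤ a k + 1`;
the entries of `u` are within `D k ≤ D (k+1)` of `z`, those of `v` within `a k + 1 + D k = D (k+1)`. -/
def S_vlen : Prop := ∀ (ι : Type) [Fintype ι] (kap G k : ℕ) (z : Pt ι), ∀ l ∈ V (aq kap G) k z,
  l.length = 2 ^ k ∧ ∀ x ∈ l, hammingDist z x ≤ dq kap G k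

/-- **vcard**: as `S_wcard` (see `P_wcard.lean`), from `poly`. -/
def S_vcard : Prop := ∀ (ι : Type) [Fintype ι] (kap G k : ℕ) (z : Pt ι),
  (V (aq kap G) k z).card ≤ (Fintype.card ι + 1) ^ enq kap G k

/-- **vex**: as `S_wex` (see `P_wex.lean`; the proof is the same with `a k = aq kap G k ≥ G > 0`, `D k ≤ a k ≤ D (k+1)`,
`D (k+1) = D k + a k + 1`). -/
def S_vex : Prop := ∀ (ι : Type) [Fintype ι] (kap G k : ℕ) (A : Set (Pt ι)) (z y : Pt ι), 0 < G →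
  Conn A z y → dq kap G k ≤ hammingDist z y → ∃ l ∈ V (aq kap G) k z, ∀ x ∈ l, x ∈ A

/-- **vout** (few points of a dyadic sequence are near the outer boundary of its ball), from `vlen`.  First
`2^k G ≤ D k + G ≤ a k` (induction: `D (k+1) ≥ 2 D k + G`).  Claim for all `Δ`, by induction on `k` (all `z`):
`G * #{x in l | D k ≤ d(z,x) + Δ} ≤ max G (2Δ)`.  `k = 0`: one entry.  `k → k+1`, `l = u ++ v`, `v ∈ V k z'`: if `a k ≤ Δ`: the
number is `≤ 2^(k+1)` and `2^(k+1) G ≤ 2 a k ≤ 2Δ`.  If `Δ < a k`: no entry `x` of `u` counts (`d(z,x) + Δ < D k + a k < D (k+1)`),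
and an entry `x` of `v` which counts satisfies `D k ≤ d(z',x) + Δ` (`D (k+1) ≤ d(z,x) + Δ ≤ d(z,z') + d(z',x) + Δ ≤ a k + 1 + d(z',x) + Δ`),
so induction for `v` (`List.countP_append`, `List.countP_mono_left`). -/
def S_vout : Prop := ∀ (ι : Type) [Fintype ι] (kap G k Δ : ℕ) (z : Pt ι), ∀ l ∈ V (aq kap G) k z,
  G * l.countP (fun x => decide (dq kap G k ≤ hammingDist z x + Δ)) ≤ max G (2 * Δ)

/-- **vone** (different entries are far apart): if `2Δ < G`, at most one entry of `l` is within `Δ` of a given point `x`.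
Induction on `k` (for all `z`), from `vlen`: `l = u ++ v`: if `y` in `u` and `y'` in `v` are both within `Δ` of `x`, then
`a k ≤ d(z,y') ≤ d(z,y) + d(y,y') ≤ D k + 2Δ < D k + G ≤ a k`, contradiction; so one of the two counts is `0`. -/
def S_vone : Prop := ∀ (ι : Type) [Fintype ι] (kap G k Δ : ℕ) (z x : Pt ι), ∀ l ∈ V (aq kap G) k z,
  2 * Δ < G → l.countP (fun y => decide (hammingDist x y ≤ Δ)) ≤ 1

/-- **logs** (powers of two in an interval).  The set is contained in `[j₀, j₀ + Nat.log 2 (2 kap)]` for its minimum `j₀`: for `j` in it,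
`2^(j-j₀) * (2Δ) < 2^(j-j₀) 2^j₀ G = 2^j G < 4 kap Δ`, so `2^(j-j₀) < 2 kap`, `j - j₀ ≤ Nat.log 2 (2 kap) = Nat.log 2 kap + 1` (`Nat.le_log_of_pow_le`,
`Nat.log_mul_base`); so at most `Nat.log 2 kap + 2` elements (`Finset.card_le_card` into an `Icc`). -/
def S_logs : Prop := ∀ (kap G k Δ : ℕ), 1 ≤ kap → 1 ≤ Δ →
  ((range k).filter fun j => 2 * Δ < 2 ^ j * G ∧ 2 ^ j * G < 4 * kap * Δ).card ≤ Nat.log 2 kap + 2

/-- **vcnt** (linear growth of dyadic sequences), from `vlen`, `vout`, `logs`.  Let `1 ≤ kap`, `1 ≤ G ≤ 2Δ`, and let `c` be the number of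
entries of `l` within `Δ` of the point `x`.  Claim, by induction on `k` (for all `z`):
`G c ≤ 4Δ (1 + N k)`, `N k = #{j < k | 2Δ < 2^j G < 4 kap Δ}`; the statement follows with `logs`.  `k = 0`: `c ≤ 1`, `G ≤ 4Δ`.
`k → k+1`, `l = u ++ v`: if `2^k G ≤ 2Δ`: `c ≤ 2^(k+1)` and `2^(k+1) G ≤ 4Δ`.  Let `2Δ < 2^k G`.  If no entry of `u` or no entry of `v` is
within `Δ` of `x`: induction.  Otherwise let `y` in `u`, `y'` in `v` be within `Δ` of `x`: `a k ≤ d(z,y') ≤ d(z,y) + 2Δ`; so (1)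
`a k ≤ D k + 2Δ`, that is `D k / kap + G ≤ 2Δ`, so `D k < kap (D k / kap + 1) ≤ kap (2Δ - G + 1) ≤ 2 kap Δ` and with
`(2^k - 1) G ≤ D k` (induction): `2^k G < 2 kap Δ + G ≤ 4 kap Δ`, so `N (k+1) = N k + 1`; (2) every entry `y` of `u` within `Δ` of `x` satisfies
`D k ≤ a k ≤ d(z,y) + 2Δ`, so by `vout` (with `2Δ`) `G #u ≤ max G (4Δ) = 4Δ`; together `G c ≤ 4Δ + 4Δ (1 + N k)`. -/
def S_vcnt : Prop := ∀ (ι : Type) [Fintype ι] (kap G k Δ : ℕ) (z x : Pt ι), ∀ l ∈ V (aq kap G) k z,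
  1 ≤ kap → 1 ≤ G → G ≤ 2 * Δ →
  G * l.countP (fun y => decide (hammingDist x y ≤ Δ)) ≤ 4 * Δ * (Nat.log 2 kap + 3)

/-- **vgrow**, from `vlen`, `vone`, `vcnt`: with `G = 400 (Nat.log 2 kap + 3)`, `w t = l.getD t (fun _ => false)`.  The number of `s < 2^k` with
`d(w t, w s) ≤ Δ` is `l.countP (fun y => d(w t, y) ≤ Δ)` (general fact by induction on the list:
`#{s ∈ range l.length | p (l.getD s x₀)} = l.countP p`).  If `2Δ < G` it is at most `1` by `vone`; otherwise `vcnt` gives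
`400 (Nat.log 2 kap + 3) c ≤ 4Δ (Nat.log 2 kap + 3)`, `100 c ≤ Δ`. -/
def S_vgrow : Prop := ∀ (ι : Type) [Fintype ι] (kap k : ℕ) (z : Pt ι), 1 ≤ kap →
  ∀ l ∈ V (aq kap (400 * (Nat.log 2 kap + 3))) k z, ∀ t < 2 ^ k, ∀ Δ : ℕ,
  ((range (2 ^ k)).filter fun s =>
    hammingDist (l.getD t fun _ => false) (l.getD s fun _ => false) ≤ Δ).card ≤ 1 ∨
  100 * ((range (2 ^ k)).filter fun s =>
    hammingDist (l.getD t fun _ => false) (l.getD s fun _ => false) ≤ Δ).card ≤ Δ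

/-- **qsum** (a sum over distances).  `t` is fixed, `δ s` is the distance of `s`; the number of `s ∈ T` with `δ s ≤ Δ` is `≤ 1` or
`≤ Δ/100`, and `δ t = 0`.  If `s ≠ t` then for `Δ = δ s` the number is at least `2`, so `200 ≤ δ s`.  The number of `s ∈ T` with
`δ s = Δ`, `s ≠ t`, is at most `Δ/100` (and `0` for `Δ < 200`).  So the sum is at most
`∑_{Δ ≥ 200} (Δ/100) (9/10)^Δ ≤ ∑_{Δ ≥ 200} (18/19)^Δ = 19 (18/19)^200 ≤ 1/200` (`Δ/100 ≤ (20/19)^Δ` by Bernoulli `one_add_mul_le_pow`; group the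
sum by the value of `δ`, `Finset.sum_fiberwise` or `Finset.sum_comp`; compare with a geometric series). -/
def S_qsum : Prop := ∀ (T : Finset ℕ) (t : ℕ) (δ : ℕ → ℕ), t ∈ T → δ t = 0 →
  (∀ Δ : ℕ, (T.filter fun s => δ s ≤ Δ).card ≤ 1 ∨ 100 * (T.filter fun s => δ s ≤ Δ).card ≤ Δ) →
  ∑ s ∈ T.erase t, (9 / 10 : ℝ) ^ δ s ≤ 1 / 200

/-- **qineq** (the inequality of Lemma A for linear growth), from `qsum`; compare `P_ineq.lean`.  For `c : Ω` let `I = {t ∈ T | c ∈ B t}`.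
Pointwise: (1) the summand on the left is at most `(21/20) #{t ∈ T | c ∈ S t} + ∑_{t ∈ I} ∑_{s ∈ I, s ≠ t} (36/35)^(δ t s)`: for `|I| = 1`
clear; for `|I| ≥ 2` let `t ∈ I` and let `s ∈ I` maximise `Δ = δ t s` on `I` (`s ≠ t` since some `s' ≠ t` in `I` has
`δ t s' ≥ 200 > 0`, see `qsum`); all of `I` is within `Δ` of `t`, so `100 |I| ≤ Δ` (the count is `≥ 2`) and
`(21/20)^|I| ≤ ((36/35)^100)^|I| ≤ (36/35)^Δ`.  (2) `[I ≠ ∅] ≥ |I| - ∑_{t ∈ I} ∑_{s ∈ I, s ≠ t} 1` (`1 ≥ m - m(m-1)`).  Sum over `c`: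
the left side is at most `(21/20) ∑_t |S t| + ∑_t ∑_{s ≠ t} |B t ∩ B s| (36/35)^(δ t s)`, the right side at least
`∑_t |B t| - ∑_t ∑_{s ≠ t} |B t ∩ B s|`.  With the bounds and `(7/8)(36/35) = 9/10`, `7/8 ≤ 9/10` and `qsum` (for every `t`, with `δ t`):
it is enough that `(21/22) b |T| + 2 (12/5) b |T| / 200 ≤ b |T|`. -/
def S_qineq : Prop := ∀ (Ω : Type) [Fintype Ω] (B S : ℕ → Finset Ω) (δ : ℕ → ℕ → ℕ) (b : ℝ) (T : Finset ℕ),
  0 ≤ b → (∀ t ∈ T, ((B t).card : ℝ) = b) → (∀ t ∈ T, ((S t).card : ℝ) ≤ 10 / 11 * b) →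
  (∀ t ∈ T, δ t t = 0) →
  (∀ t ∈ T, ∀ Δ : ℕ, (T.filter fun s => δ t s ≤ Δ).card ≤ 1 ∨
    100 * (T.filter fun s => δ t s ≤ Δ).card ≤ Δ) →
  (∀ t ∈ T, ∀ s ∈ T, t ≠ s → ((B t ∩ B s).card : ℝ) ≤ 12 / 5 * (7 / 8) ^ δ t s * b) →
  ∑ c : Ω, (if (∃ t ∈ T, c ∈ B t) ∧ (∀ t ∈ T, c ∈ B t → c ∈ S t) then
    ((21 / 20 : ℝ)) ^ (T.filter fun t => c ∈ B t).card else 0) ≤ ((T.biUnion B).card : ℝ)

/-- **qsep** (Lemma A for linear growth), from `hit`, `qineq`, `bc`, `shell`, `inter`; compare `P_sep.lean`.  Apply `hit` with `Ω = Pt ι`,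
`q = 20/21`, `B t = ball r (w t)`, `S t = shell r (w t)`; the hypothesis for `T' ⊆ T` is `qineq` for `T'` with `δ t s = d(w t, w s)`: the growth
condition passes to subsets (`card_le_card`), `bc` (equal sizes), `shell`, `inter` and `(3/2)/√3 ≤ 7/8`. -/
def S_qsep : Prop := ∀ (ι : Type) [Fintype ι] (w : ℕ → Pt ι) (T : Finset ℕ) (L : ℕ),
  1000 ≤ Fintype.card ι →
  (∀ t ∈ T, ∀ Δ : ℕ, (T.filter fun s => hammingDist (w t) (w s) ≤ Δ).card ≤ 1 ∨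
    100 * (T.filter fun s => hammingDist (w t) (w s) ≤ Δ).card ≤ Δ) →
  (({ω : Fin L → Pt ι | ∀ t ∈ T, BadAt (ball (Fintype.card ι / 4) (w t))
    (shell (Fintype.card ι / 4) (w t)) ω} : Finset (Fin L → Pt ι)).card : ℝ) ≤
    (20 / 21) ^ T.card * ((2 : ℝ) ^ Fintype.card ι) ^ L

/-- **qout** (the random choice), from `qsep`, `vlen`, `vgrow`, `vcard`: the proof of `P_out.lean` with `V (aq kap G)`, `G = 400 (Nat.log 2 kap + 3)`, in place of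
`W 48` (`T = range (2^K)`, `w t = l.getD t (fun _ => false)`, growth from `vgrow`). -/
def S_qout : Prop := ∀ (ι : Type) [Fintype ι] (J K kap : ℕ), 1000 ≤ Fintype.card ι → 1 ≤ kap →
  (2 : ℝ) ^ Fintype.card ι * ((Fintype.card ι + 1 : ℝ)) ^ enq kap (400 * (Nat.log 2 kap + 3)) K *
    (20 / 21) ^ (J * 2 ^ K) < 1 / 2 →
  ∃ (L : ℕ) (ω : Fin J → Fin L → Pt ι),
    (∀ w j, (fst (ball (Fintype.card ι / 4) w) (List.ofFn (ω j))).isSome) ∧
    ∀ z, ∀ l ∈ V (aq kap (400 * (Nat.log 2 kap + 3))) K z, ∃ x ∈ l, x ∉ rest (Fintype.card ι / 4) ω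

/-- **qpart** (the partition), from `qout`, `vex`, `one`: the proof of `P_part.lean` with `V`, `dq` in place of `W 48`, `dk 48`. -/
def S_qpart : Prop := ∀ (ι : Type) [Fintype ι] (J K kap : ℕ), 1000 ≤ Fintype.card ι → 1 ≤ kap →
  (2 : ℝ) ^ Fintype.card ι * ((Fintype.card ι + 1 : ℝ)) ^ enq kap (400 * (Nat.log 2 kap + 3)) K *
    (20 / 21) ^ (J * 2 ^ K) < 1 / 2 →
  dq kap (400 * (Nat.log 2 kap + 3)) K ≤ Fintype.card ι / 4 →
  ∃ lab : Pt ι → (Fin J × Pt ι) ⊕ Finset (Pt ι),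
    (∀ x, (({y | hammingDist x y = 1} : Finset (Pt ι)).image lab).card ≤ J + 1) ∧
    ∀ y, ∃ z, ∀ y', lab y' = lab y → 4 * hammingDist y' z ≤ Fintype.card ι

/-- **qbd** (size of the radii): for `K ≤ kap`, `1 ≤ kap`: `D K ≤ 2^(K+1) (G+1)` and `enq K ≤ 4 K 2^K (G+1)`.  Real induction:
`D (k+1) + (G+1) ≤ (2 + 1/kap) (D k + G + 1)`, so `D k + G + 1 ≤ (2 + 1/kap)^k (G+1) = 2^k (1 + 1/(2 kap))^k (G+1) ≤ 2^k e^(1/2) (G+1) ≤ 2^(k+1) (G+1)` for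
`k ≤ kap` (`Real.add_one_le_exp`, `e^(1/2) ≤ 2`).  `a k + 1 ≤ 2 (D k + G + 1) ≤ 2^(k+2) (G+1)`, so by induction
`enq (k+1) = 2 enq k + (a k + 1) ≤ 2 * 4 k 2^k (G+1) + 4 * 2^k (G+1) ≤ 4 (k+1) 2^(k+1) (G+1)`. -/
def S_qbd : Prop := ∀ kap G K : ℕ, 1 ≤ kap → K ≤ kap →
  dq kap G K ≤ 2 ^ (K + 1) * (G + 1) ∧ enq kap G K ≤ 4 * K * 2 ^ K * (G + 1)

/-- **qnum** (parameters), from `qbd`.  Let `kap = ⌈2 log n⌉`, `G = 400 (Nat.log 2 kap + 3)`; for large `n`, `Nat.log 2 kap + 3 ≤ 2 log log n` hence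
`G + 1 ≤ 900 log log n`.  Let `K` be maximal with `2^(K+1) (G+1) ≤ n/4 - 1`, so `2^K > n / (17 (G+1))` and `K ≤ log n / log 2 ≤ kap`; `D K ≤ n/4` by `qbd`.  With
`x = log (21/20) > 0.048` the condition is `J 2^K x > enq log (n+1) + (n+1) log 2`, and `enq ≤ 4 K 2^K (G+1)`, `(n+1) log 2 ≤ 2^K * 13 (G+1)`; so it is enough
that `0.048 J ≥ (4 K log (n+1) + 13) (G+1)`, `4 K log (n+1) + 13 ≤ 6 (log n)^2` for large `n`; `J = ⌈125 * 900 (log n)^2 log log n⌉` works, and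
`J + 1 ≤ 200000 (log n)^2 log log n`. -/
def S_qnum : Prop := ∃ n0 : ℕ, ∀ n : ℕ, n0 ≤ n → ∃ J K kap : ℕ, 1000 ≤ n ∧ 1 ≤ kap ∧
  (2 : ℝ) ^ n * ((n + 1 : ℝ)) ^ enq kap (400 * (Nat.log 2 kap + 3)) K * (20 / 21) ^ (J * 2 ^ K) < 1 / 2 ∧
  dq kap (400 * (Nat.log 2 kap + 3)) K ≤ n / 4 ∧
  (J + 1 : ℝ) ≤ 200000 * (Real.log n ^ 2 * Real.log (Real.log n)) ∧ Real.log n ≤ J

end Pool.Agent.Lib.MP_33d9ce_co.Star
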