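import Pool.Agent.Lib.MP_33d9ce_co.Star.Bound
import Pool.Agent.Lib.MP_33d9ce_co.Star.QStm

/-!
# Spanning hypercubes: the final assembly
-/

set_option autoImplicit false

noncomputable section

open Classical Finset

namespace Pool.Agent.Lib.MP_33d9ce_co.Star

/-- From partitions with `log n ≤ k ≤ C g(n)` to the threshold. -/
theorem threshold_of_partitions (g : ℕ → ℝ) (C : ℝ)
    (h2 : ∀ᶠ n : ℕ in Filter.atTop, C * g n ≤ √n)
    (h : ∀ᶠ n : ℕ in Filter.atTop, ∃ k : ℕ, (k : ℝ) ≤ C * g n ∧ Real.log n ≤ k ∧ HasPartition n k) :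
    ∃ n0 : ℕ, ∀ n ≥ n0, 2 ^ n / (512 * (C * g n)) ≤ (threshold n : ℝ) := by
  obtain ⟨k0, n1, hb⟩ := threshold_of_partition
  have h3 : ∀ᶠ n : ℕ in Filter.atTop, (max 1 k0 : ℝ) ≤ Real.log n :=
    (Real.tendsto_log_atTop.comp tendsto_natCast_atTop_atTop).eventually_ge_atTop _
  have h4 := (((h2.and h).and h3).and (Filter.eventually_ge_atTop n1))
  obtain ⟨n0, hn0⟩ := Filter.eventually_atTop.1 h4
  refine ⟨n0, fun n hn => ?_⟩
  obtain ⟨⟨⟨h2, k, hk1, hk2, hk3⟩, h3⟩, hn1⟩ := hn0 n hn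
  have hg1 : (1 : ℝ) ≤ k := (le_trans (le_max_left _ _) h3).trans hk2
  have hg2 : (k0 : ℝ) ≤ k := (le_trans (le_max_right _ _) h3).trans hk2
  have hkk : k0 ≤ k := by exact_mod_cast hg2
  have h5 := hb n hn1 k hkk (hk1.trans h2) hk3
  refine le_trans ?_ h5
  refine div_le_div_of_nonneg_left (by positivity) (by positivity) ?_
  linarith

/-- A lower bound for large `n` gives one for all `n ≥ 3`. -/
theorem all_of_large (g : ℕ → ℝ) (c : ℝ) (hc : 0 < c) (hg : ∀ n : ℕ, 3 ≤ n → 0 < g n)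
    (h : ∃ n0 : ℕ, ∀ n ≥ n0, c * 2 ^ n / g n ≤ (threshold n : ℝ)) :
    ∃ ε : ℝ, 0 < ε ∧ ∀ n : ℕ, 3 ≤ n → ε * 2 ^ n / g n ≤ (threshold n : ℝ) := by
  obtain ⟨n0, hn0⟩ := h
  -- the finitely many small `n`
  have h1 : ∀ N : ℕ, ∃ ε : ℝ, 0 < ε ∧ ∀ n : ℕ, 3 ≤ n → n < N → ε * 2 ^ n / g n ≤ 1 := by
    intro N
    induction N with
    | zero => exact ⟨1, one_pos, fun n _ hn => absurd hn (Nat.not_lt_zero n)⟩
    | succ N ih =>
      obtain ⟨ε, h1, h2⟩ := ih
      by_cases hN : 3 ≤ N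
      · have hgN := hg N hN
        refine ⟨min ε (g N / 2 ^ N), lt_min h1 (by positivity), fun n hn hlt => ?_⟩
        rcases Nat.lt_succ_iff_lt_or_eq.1 hlt with h3 | h3
        · refine le_trans ?_ (h2 n hn h3)
          have := hg n hn
          exact div_le_div_of_nonneg_right (mul_le_mul_of_nonneg_right (min_le_left _ _)
            (by positivity)) this.le
        · rw [h3, div_le_one hgN]
          calc min ε (g N / 2 ^ N) * 2 ^ N ≤ (g N / 2 ^ N) * 2 ^ N :=
                mul_le_mul_of_nonneg_right (min_le_right _ _) (by positivity)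
            _ = g N := by field_simp
      · exact ⟨ε, h1, fun n hn hlt => absurd hn (by omega)⟩
  obtain ⟨ε, he, h2⟩ := h1 n0
  refine ⟨min ε c, lt_min he hc, fun n hn => ?_⟩
  have hgn := hg n hn
  rcases lt_or_ge n n0 with h3 | h3
  · have h4 : 1 ≤ threshold n := (threshold_isGreatest (by omega)).2 (one_mem n)
    have h5 : (1 : ℝ) ≤ threshold n := by exact_mod_cast h4
    refine le_trans ?_ (le_trans (h2 n hn h3) h5)
    exact div_le_div_of_nonneg_right (mul_le_mul_of_nonneg_right (min_le_left _ _)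
      (by positivity)) hgn.le
  · refine le_trans ?_ (hn0 n h3)
    exact div_le_div_of_nonneg_right (mul_le_mul_of_nonneg_right (min_le_right _ _)
      (by positivity)) hgn.le

/-- `(log n)^2 log log n`. -/
def gq (n : ℕ) : ℝ := Real.log n ^ 2 * Real.log (Real.log n)

theorem gq_pos {n : ℕ} (hn : 3 ≤ n) : 0 < gq n := by
  have h1 : (1 : ℝ) < Real.log n := by
    have h2 : Real.exp 1 < n := by
      have h3 : (3 : ℝ) ≤ n := by exact_mod_cast hn
      have := Real.exp_one_lt_d9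
      linarith
    rw [Real.lt_log_iff_exp_lt (by positivity)]
    exact h2
  have h2 : 0 < Real.log (Real.log n) := Real.log_pos h1
  unfold gq
  positivity

theorem gq_le_sqrt : ∀ᶠ n : ℕ in Filter.atTop, 200000 * gq n ≤ √n := by
  have h1 := isLittleO_log_rpow_rpow_atTop (s := 1 / 2) 3 (by norm_num : (0 : ℝ) < 1 / 2)
  have h2 := (h1.bound (by norm_num : (0 : ℝ) < 1 / 200000))
  have h3 := tendsto_natCast_atTop_atTop (R := ℝ) |>.eventually h2
  have h4 : ∀ᶠ n : ℕ in Filter.atTop, (1 : ℝ) ≤ Real.log n :=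
    (Real.tendsto_log_atTop.comp tendsto_natCast_atTop_atTop).eventually_ge_atTop _
  filter_upwards [h3, h4] with n h3 h4
  have h5 : Real.log (Real.log n) ≤ Real.log n := (Real.log_le_self (by linarith))
  have h6 : gq n ≤ Real.log n ^ 3 := by
    unfold gq
    calc Real.log n ^ 2 * Real.log (Real.log n) ≤ Real.log n ^ 2 * Real.log n :=
          mul_le_mul_of_nonneg_left h5 (by positivity)
      _ = Real.log n ^ 3 := by ring
  have h7 : Real.log n ^ (3 : ℝ) = Real.log n ^ 3 := by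
    exact_mod_cast Real.rpow_natCast (Real.log n) 3
  rw [h7, Real.norm_of_nonneg (by positivity), Real.norm_of_nonneg (by positivity),
    ← Real.sqrt_eq_rpow] at h3
  linarith

/-- **The final assembly.** -/
theorem final_q (hpart : S_qpart) (hnum : S_qnum) :
    (∃ n0 : ℕ, ∀ n ≥ n0, 2 ^ n / (10 ^ 9 * (Real.log n ^ 2 * Real.log (Real.log n))) ≤ (threshold n : ℝ)) ∧
    ∃ ε : ℝ, 0 < ε ∧ ∀ n : ℕ, 3 ≤ n →
      ε * 2 ^ n / (Real.log n ^ 2 * Real.log (Real.log n)) ≤ (threshold n : ℝ) := by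
  have h0 : ∀ᶠ n : ℕ in Filter.atTop, ∃ k : ℕ, (k : ℝ) ≤ 200000 * gq n ∧ Real.log n ≤ k ∧
      HasPartition n k := by
    obtain ⟨n0, hn0⟩ := hnum
    refine Filter.eventually_atTop.2 ⟨n0, fun n hn => ?_⟩
    obtain ⟨J, K, kap, h1, h2, h3, h4, h5, h6⟩ := hn0 n hn
    refine ⟨J + 1, by push_cast; exact h5, ?_, ?_⟩
    · push_cast
      linarith
    · obtain ⟨lab, h7, h8⟩ := hpart (Fin n) J K kap (by simpa using h1) h2 (by simpa using h3)
        (by simpa using h4)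
      exact ⟨_, lab, fun x => card_star_inst (fun _ h => h) (h7 x), fun y => by simpa using h8 y⟩
  obtain ⟨n1, hn1⟩ := threshold_of_partitions gq 200000 gq_le_sqrt h0
  have hA : ∃ n0 : ℕ, ∀ n ≥ n0, 2 ^ n / (10 ^ 9 * gq n) ≤ (threshold n : ℝ) := by
    refine ⟨max n1 3, fun n hn => ?_⟩
    have hg := gq_pos (le_trans (le_max_right _ _) hn)
    refine le_trans ?_ (hn1 n (le_trans (le_max_left _ _) hn))
    refine div_le_div_of_nonneg_left (by positivity) (by positivity) ?_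
    nlinarith
  refine ⟨hA, ?_⟩
  refine all_of_large gq (1 / 10 ^ 9) (by norm_num) (fun n hn => gq_pos hn) ?_
  obtain ⟨n0, hn0⟩ := hA
  refine ⟨n0, fun n hn => ?_⟩
  have h1 := hn0 n hn
  have h2 : 1 / 10 ^ 9 * (2 : ℝ) ^ n / gq n = 2 ^ n / (10 ^ 9 * gq n) := by
    rw [mul_comm (10 ^ 9 : ℝ) (gq n), ← div_div]
    ring
  rw [h2]
  exact h1

end Pool.Agent.Lib.MP_33d9ce_co.Star
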