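import Mathlib

/-!
# Cardinalities of images and filters do not depend on the decidability instances
-/

set_option autoImplicit false

namespace Pool.Agent.Lib.MP_33d9ce_co.Star

theorem card_image_inst {α β : Type} {s : Finset α} {f : α → β} {d d' : DecidableEq β} {k : ℕ}
    (h : (@Finset.image α β d f s).card ≤ k) : (@Finset.image α β d' f s).card ≤ k := by
  have e : @Finset.image α β d' f s = @Finset.image α β d f s := by
    ext a
    simp only [Finset.mem_image]
  rw [e]
  exact h

theorem card_filter_inst {α : Type} {s : Finset α} {p : α → Prop} {d d' : DecidablePred p} :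
    (@Finset.filter α p d s).card = (@Finset.filter α p d' s).card := by
  have e : @Finset.filter α p d s = @Finset.filter α p d' s := by
    ext a
    simp only [Finset.mem_filter]
  rw [e]

theorem card_star_inst {α β : Type} {lab : α → β} {P P' : α → Prop} {f f' : Fintype α}
    {d d' : DecidableEq β} {p : DecidablePred P} {p' : DecidablePred P'} {k : ℕ}
    (hP : ∀ y, P' y → P y)
    (h : (@Finset.image α β d lab (@Finset.filter α P p (@Finset.univ α f))).card ≤ k) :
    (@Finset.image α β d' lab (@Finset.filter α P' p' (@Finset.univ α f'))).card ≤ k := by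
  refine le_trans (Finset.card_le_card ?_) h
  intro a ha
  rw [@Finset.mem_image] at ha ⊢
  obtain ⟨y, hy, hya⟩ := ha
  refine ⟨y, ?_, hya⟩
  rw [@Finset.mem_filter] at hy ⊢
  exact ⟨@Finset.mem_univ _ f _, hP y hy.2⟩

end Pool.Agent.Lib.MP_33d9ce_co.Star
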