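import Pool.Agent.Lib.MP_33d9ce_co.Slack.Birkhoff
import Pool.Agent.Lib.MP_33d9ce_co.Star.Defs

/-!
# Spanning hypercubes, slack scheme: the law of the images of the neighbours
-/

set_option autoImplicit false

noncomputable section

open Classical Finset

namespace Pool.Agent.Lib.MP_33d9ce_co.Star

variable {P Q I S Y T W : Type} [Fintype P] [Fintype Q] [Fintype I] [Fintype S] [Fintype Y] [Fintype T] [Fintype W]

namespace Data

variable (D : Data P Q I S Y T W) {θ : ℝ} {μ : (Q → W) → I → (P → S) → ℝ}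

theorem card_al {D : Data P Q I S Y T W} (h : D.Good θ) (ω : Q → W) (p : P) (i : I) :
    Fintype.card P ≤ (D.al ω p i).card := by
  have h1 : (D.al ω p i)ᶜ ⊆ (D.star p i).biUnion fun q => ({s | ¬ D.ok i s (ω q)} : Finset S) := by
    intro s hs
    rw [mem_compl, al, mem_filter] at hs
    push Not at hs
    obtain ⟨q, hq, hq2⟩ := hs (mem_univ s)
    exact mem_biUnion.2 ⟨q, hq, mem_filter.2 ⟨mem_univ s, hq2⟩⟩
  have h2 : ((D.al ω p i)ᶜ.card : ℝ) ≤ (D.star p i).card * (θ * Fintype.card P) := by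
    calc ((D.al ω p i)ᶜ.card : ℝ)
        ≤ (((D.star p i).biUnion fun q => ({s | ¬ D.ok i s (ω q)} : Finset S)).card : ℝ) := by
          exact_mod_cast card_le_card h1
      _ ≤ ((∑ q ∈ D.star p i, ({s | ¬ D.ok i s (ω q)} : Finset S).card : ℕ) : ℝ) := by
          exact_mod_cast card_biUnion_le
      _ = ∑ q ∈ D.star p i, (({s | ¬ D.ok i s (ω q)} : Finset S).card : ℝ) := by push_cast; rfl
      _ ≤ ∑ _q ∈ D.star p i, θ * Fintype.card P := sum_le_sum fun q _ => h.fair i (ω q)
      _ = (D.star p i).card * (θ * Fintype.card P) := by rw [sum_const, nsmul_eq_mul]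
  have h3 : ((D.al ω p i).card : ℝ) + ((D.al ω p i)ᶜ.card : ℝ) = Fintype.card S := by
    exact_mod_cast card_add_card_compl (D.al ω p i)
  have h4 := h.room p i
  have h5 : (Fintype.card P : ℝ) ≤ (D.al ω p i).card := by linarith
  exact_mod_cast h5

theorem u_nonneg (ω : Q → W) (p : P) (i : I) (s : S) : 0 ≤ D.u ω p i s := by
  unfold u
  split_ifs
  · positivity
  · exact le_rfl

private theorem law_card_pos {D : Data P Q I S Y T W} (h : D.Good θ) : 0 < Fintype.card P := by
  have := h.nonempty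
  exact Fintype.card_pos

theorem sum_u {D : Data P Q I S Y T W} (h : D.Good θ) (ω : Q → W) (p : P) (i : I) :
    ∑ s, D.u ω p i s = 1 := by
  have h1 : 0 < (D.al ω p i).card := lt_of_lt_of_le (law_card_pos h) (card_al h ω p i)
  unfold u
  rw [sum_ite_mem, univ_inter, sum_const, nsmul_eq_mul]
  exact mul_inv_cancel₀ (by exact_mod_cast h1.ne')

/-- column sums are at most one (only `card_al` is needed) -/
theorem exists_law {D : Data P Q I S Y T W} (h : D.Good θ) : ∃ μ, D.IsLaw μ := by
  have hP : (0 : ℝ) < Fintype.card P := by exact_mod_cast law_card_pos h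
  have h2 : ∀ (ω : Q → W) (i : I) (s : S), ∑ p, D.u ω p i s ≤ 1 := by
    intro ω i s
    calc ∑ p, D.u ω p i s ≤ ∑ _p : P, (Fintype.card P : ℝ)⁻¹ := by
          refine sum_le_sum fun p _ => ?_
          unfold u
          split_ifs
          · refine inv_anti₀ hP ?_
            exact_mod_cast card_al h ω p i
          · positivity
      _ = 1 := by
          rw [sum_const, nsmul_eq_mul, card_univ]
          exact mul_inv_cancel₀ hP.ne'
  have h3 := fun (ω : Q → W) (i : I) => Slack.exists_inj_law (fun p s => D.u ω p i s)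
    (fun p s => D.u_nonneg ω p i s) (fun p => sum_u h ω p i) (h2 ω i)
  choose μ m1 m2 m3 m4 using h3
  exact ⟨μ, ⟨m1, m2, m3, m4⟩⟩

theorem law_nonneg (ω : Q → W) (y : Y) (a : T → S) : 0 ≤ D.law ω y a :=
  prod_nonneg fun _ _ => D.u_nonneg _ _ _ _

private theorem law_prod_sum (f : T → S → ℝ) : ∑ a : T → S, ∏ t, f t (a t) = ∏ t, ∑ s, f t s := by
  rw [prod_univ_sum, Fintype.piFinset_univ]

theorem sum_law {D : Data P Q I S Y T W} (h : D.Good θ) (ω : Q → W) (y : Y) :
    ∑ a, D.law ω y a = 1 := by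
  unfold law
  rw [law_prod_sum (fun t s => D.u ω (D.nb y t).1 (D.nb y t).2 s)]
  exact prod_eq_one fun t _ => sum_u h ω _ _

/-- images occurring with positive probability are compatible with the label of the cell -/
theorem mem_comp_of_law {D : Data P Q I S Y T W} (h : D.Good θ) {ω : Q → W} {y : Y} {a : T → S}
    (ha : D.law ω y a ≠ 0) : ω (D.cell y) ∈ D.comp y a := by
  unfold comp
  refine mem_filter.2 ⟨mem_univ _, fun t => ?_⟩
  have h1 : D.u ω (D.nb y t).1 (D.nb y t).2 (a t) ≠ 0 := by
    intro h2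
    exact ha (prod_eq_zero (mem_univ t) h2)
  unfold u at h1
  have h2 : a t ∈ D.al ω (D.nb y t).1 (D.nb y t).2 := by
    by_contra h3
    exact h1 (if_neg h3)
  unfold al at h2
  exact (mem_filter.1 h2).2 _ (h.cell_mem y t)

/-- **L1 (removal of one label).**  `M̂ = ∏ 1[a_t in L⁰] / ((1-θ)|L⁰|)`, where `L⁰` ignores the label of the
cell of `y`. -/
theorem exists_hat {D : Data P Q I S Y T W} (h : D.Good θ) (ω : Q → W) (y : Y) :
    ∃ h0 : (T → S) → ℝ, (∀ a, 0 ≤ h0 a) ∧ ∑ a, h0 a = ((1 - θ) ^ Fintype.card T)⁻¹ ∧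
      (∀ w a, D.law (Function.update ω (D.cell y) w) y a ≤ h0 a) ∧
      (∀ w a, h0 a ≠ 0 → w ∈ D.comp y a →
        (1 - θ) ^ Fintype.card T * h0 a ≤ D.law (Function.update ω (D.cell y) w) y a) ∧
      (∀ w a, w ∉ D.comp y a → D.law (Function.update ω (D.cell y) w) y a = 0) := by
  have hθ : 0 < 1 - θ := by linarith [h.theta_lt]
  obtain ⟨w0⟩ := h.nonemptyW
  set L : T → Finset S := fun t =>
    {s | ∀ q ∈ D.star (D.nb y t).1 (D.nb y t).2, q ≠ D.cell y → D.ok (D.nb y t).2 s (ω q)} with hL
  have hal : ∀ w t, D.al (Function.update ω (D.cell y) w) (D.nb y t).1 (D.nb y t).2 =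
      (L t).filter fun s => D.ok (D.nb y t).2 s w := by
    intro w t
    ext s
    simp only [al, hL, mem_filter, mem_univ, true_and]
    constructor
    · intro h1
      refine ⟨fun q hq hne => ?_, ?_⟩
      · have := h1 q hq
        rwa [Function.update_of_ne hne] at this
      · have := h1 _ (h.cell_mem y t)
        rwa [Function.update_self] at this
    · rintro ⟨h1, h2⟩ q hq
      by_cases hne : q = D.cell y
      · rw [hne, Function.update_self]
        exact h2
      · rw [Function.update_of_ne hne]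
        exact h1 q hq hne
  have hsub : ∀ w t, D.al (Function.update ω (D.cell y) w) (D.nb y t).1 (D.nb y t).2 ⊆ L t := by
    intro w t
    rw [hal]
    exact filter_subset _ _
  have hLP : ∀ t, (Fintype.card P : ℝ) ≤ (L t).card := by
    intro t
    exact_mod_cast (card_al h (Function.update ω (D.cell y) w0) (D.nb y t).1 (D.nb y t).2).trans
      (card_le_card (hsub w0 t))
  have hP : (0 : ℝ) < Fintype.card P := by exact_mod_cast law_card_pos h
  have hLpos : ∀ t, (0 : ℝ) < (L t).card := fun t => lt_of_lt_of_le hP (hLP t)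
  have hcard : ∀ w t, (1 - θ) * (L t).card ≤
      ((D.al (Function.update ω (D.cell y) w) (D.nb y t).1 (D.nb y t).2).card : ℝ) := by
    intro w t
    rw [hal]
    have h1 : (L t).card = ((L t).filter fun s => D.ok (D.nb y t).2 s w).card +
        ((L t).filter fun s => ¬ D.ok (D.nb y t).2 s w).card :=
      (card_filter_add_card_filter_not _).symm
    have h2 : ((L t).filter fun s => ¬ D.ok (D.nb y t).2 s w).card ≤
        ({s | ¬ D.ok (D.nb y t).2 s w} : Finset S).card :=
      card_le_card fun s hs => mem_filter.2 ⟨mem_univ s, (mem_filter.1 hs).2⟩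
    have h3 := h.fair (D.nb y t).2 w
    have h4 : (((L t).filter fun s => ¬ D.ok (D.nb y t).2 s w).card : ℝ) ≤
        (({s | ¬ D.ok (D.nb y t).2 s w} : Finset S).card : ℝ) := by exact_mod_cast h2
    have h5 : ((L t).card : ℝ) = ((L t).filter fun s => D.ok (D.nb y t).2 s w).card +
        ((L t).filter fun s => ¬ D.ok (D.nb y t).2 s w).card := by exact_mod_cast h1
    have h6 := mul_le_mul_of_nonneg_left (hLP t) h.theta_nonneg
    linarith
  have hal0 : ∀ w t, (0 : ℝ) <
      (D.al (Function.update ω (D.cell y) w) (D.nb y t).1 (D.nb y t).2).card := fun w t =>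
    lt_of_lt_of_le (mul_pos hθ (hLpos t)) (hcard w t)
  refine ⟨fun a => ∏ t, if a t ∈ L t then ((1 - θ) * (L t).card)⁻¹ else 0, ?_, ?_, ?_, ?_, ?_⟩
  · intro a
    refine prod_nonneg fun t _ => ?_
    split_ifs
    · exact (inv_pos.2 (mul_pos hθ (hLpos t))).le
    · exact le_rfl
  · rw [law_prod_sum (fun t s => if s ∈ L t then ((1 - θ) * (L t).card)⁻¹ else 0)]
    have e : ∀ t, ∑ s, (if s ∈ L t then ((1 - θ) * ((L t).card : ℝ))⁻¹ else 0) = (1 - θ)⁻¹ := by
      intro t
      rw [sum_ite_mem, univ_inter, sum_const, nsmul_eq_mul, mul_inv, mul_comm (1 - θ)⁻¹, ← mul_assoc,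
        mul_inv_cancel₀ (hLpos t).ne', one_mul]
    simp only [e]
    rw [prod_const, card_univ, inv_pow]
  · intro w a
    unfold law
    refine prod_le_prod (fun t _ => D.u_nonneg _ _ _ _) fun t _ => ?_
    unfold u
    by_cases h1 : a t ∈ D.al (Function.update ω (D.cell y) w) (D.nb y t).1 (D.nb y t).2
    · rw [if_pos h1, if_pos (hsub w t h1)]
      exact inv_anti₀ (mul_pos hθ (hLpos t)) (hcard w t)
    · rw [if_neg h1]
      split_ifs
      · exact (inv_pos.2 (mul_pos hθ (hLpos t))).le
      · exact le_rfl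
  · intro w a ha hw
    have hmem : ∀ t, a t ∈ L t := by
      intro t
      by_contra h1
      exact ha (prod_eq_zero (mem_univ t) (if_neg h1))
    have hok : ∀ t, D.ok (D.nb y t).2 (a t) w := by
      unfold comp at hw
      exact (mem_filter.1 hw).2
    have e : (1 - θ) ^ Fintype.card T * ∏ t, (if a t ∈ L t then ((1 - θ) * ((L t).card : ℝ))⁻¹
        else 0) = ∏ t, ((L t).card : ℝ)⁻¹ := by
      rw [← card_univ, ← prod_const, ← prod_mul_distrib]
      refine prod_congr rfl fun t _ => ?_
      rw [if_pos (hmem t), mul_inv, ← mul_assoc, mul_inv_cancel₀ hθ.ne', one_mul]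
    show (1 - θ) ^ Fintype.card T * ∏ t, (if a t ∈ L t then ((1 - θ) * ((L t).card : ℝ))⁻¹
        else 0) ≤ _
    rw [e]
    unfold law
    refine prod_le_prod (fun t _ => (inv_pos.2 (hLpos t)).le) fun t _ => ?_
    unfold u
    have h1 : a t ∈ D.al (Function.update ω (D.cell y) w) (D.nb y t).1 (D.nb y t).2 := by
      rw [hal]
      exact mem_filter.2 ⟨hmem t, hok t⟩
    rw [if_pos h1]
    refine inv_anti₀ (hal0 w t) ?_
    exact_mod_cast card_le_card (hsub w t)
  · intro w a hw
    by_contra h1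
    have := mem_comp_of_law h h1
    rw [Function.update_self] at this
    exact hw this

end Data

end Pool.Agent.Lib.MP_33d9ce_co.Star
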