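import Pool.Agent.Lib.MP_33d9ce_co.Star.PStm

/-!
# Spanning hypercubes: piece bc (cardinality of spheres and balls)
-/

set_option autoImplicit false

noncomputable section

open Classical Finset

namespace Pool.Agent.Lib.MP_33d9ce_co.Star

private lemma bc_sphere {ι : Type} [Fintype ι] (w : Pt ι) (i : ℕ) :
    ({c | hammingDist c w = i} : Finset (Pt ι)).card = (Fintype.card ι).choose i := by
  rw [← Finset.card_univ, ← Finset.card_powersetCard]
  refine Finset.card_nbij' (fun c => univ.filter fun a => c a ≠ w a)
    (fun F a => if a ∈ F then !(w a) else w a) ?_ ?_ ?_ ?_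
  · intro c hc
    rw [Finset.mem_coe, Finset.mem_filter] at hc
    rw [Finset.mem_coe, Finset.mem_powersetCard]
    refine ⟨Finset.subset_univ _, ?_⟩
    rw [← hc.2]
    unfold hammingDist
    congr
  · intro F hF
    rw [Finset.mem_coe, Finset.mem_powersetCard] at hF
    rw [Finset.mem_coe, Finset.mem_filter]
    refine ⟨Finset.mem_univ _, ?_⟩
    rw [← hF.2]
    unfold hammingDist
    congr 1
    ext a
    rw [Finset.mem_filter]
    by_cases h : a ∈ F <;> simp [h]
  · intro c _
    funext a
    by_cases h : c a = w a
    · simp [h]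
    · have h2 : (!(w a)) = c a := by
        revert h
        cases c a <;> cases w a <;> simp
      simp [h, h2]
  · intro F _
    ext a
    by_cases h : a ∈ F <;> simp [h]

theorem p_bc : S_bc := by
  intro ι _ w
  refine ⟨fun i => bc_sphere w i, fun r => ?_⟩
  have h1 : ball r w = (range (r + 1)).biUnion
      fun i => ({c | hammingDist c w = i} : Finset (Pt ι)) := by
    ext c
    unfold ball
    rw [Finset.mem_filter, Finset.mem_biUnion]
    constructor
    · rintro ⟨_, h⟩
      exact ⟨hammingDist c w, Finset.mem_range.2 (Nat.lt_succ_of_le h),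
        Finset.mem_filter.2 ⟨Finset.mem_univ _, rfl⟩⟩
    · rintro ⟨i, hi, hc⟩
      rw [Finset.mem_filter] at hc
      rw [Finset.mem_range] at hi
      exact ⟨Finset.mem_univ _, by omega⟩
  rw [h1, Finset.card_biUnion]
  · exact Finset.sum_congr rfl fun i _ => bc_sphere w i
  · intro i _ j _ hij
    change Disjoint ({c | hammingDist c w = i} : Finset (Pt ι))
      ({c | hammingDist c w = j} : Finset (Pt ι))
    rw [Finset.disjoint_left]
    intro c hc hc'
    rw [Finset.mem_filter] at hc hc'
    exact hij (hc.2.symm.trans hc'.2)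

end Pool.Agent.Lib.MP_33d9ce_co.Star
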