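import Pool.Agent.Lib.MP_33d9ce_co.Star.PStm

/-!
# Spanning hypercubes: the abstract first hit lemma, [SP hit]
-/

set_option autoImplicit false

noncomputable section

open Classical Finset

namespace Pool.Agent.Lib.MP_33d9ce_co.Star

/-- the first centre decides -/
private theorem hit_cons {Ω : Type} (B S : Finset Ω) {L : ℕ} (c : Ω) (ω : Fin L → Ω) :
    BadAt B S (Fin.cons c ω : Fin (L + 1) → Ω) ↔ (c ∈ B ∧ c ∈ S) ∨ (c ∉ B ∧ BadAt B S ω) := by
  unfold BadAt fst
  rw [List.ofFn_cons, List.find?_cons]
  by_cases h : c ∈ B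
  · simp [h]
  · simp [h]

private theorem hit_zero {Ω : Type} (B S : Finset Ω) (ω : Fin 0 → Ω) : ¬ BadAt B S ω := by
  unfold BadAt fst
  simp

/-- splitting off the first centre -/
private theorem hit_split {Ω τ : Type} [Fintype Ω] (B S : τ → Finset Ω) (T : Finset τ) (L : ℕ) :
    (({ω : Fin (L + 1) → Ω | ∀ t ∈ T, BadAt (B t) (S t) ω} : Finset (Fin (L + 1) → Ω)).card : ℝ) =
      ∑ c : Ω, (({ω : Fin L → Ω | ∀ t ∈ T, BadAt (B t) (S t) (Fin.cons c ω : Fin (L + 1) → Ω)} :
        Finset (Fin L → Ω)).card : ℝ) := by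
  have h1 : ∀ (m : ℕ) (p : (Fin m → Ω) → Prop) [DecidablePred p],
      (({ω : Fin m → Ω | p ω} : Finset (Fin m → Ω)).card : ℝ) = ∑ ω : Fin m → Ω, if p ω then 1 else 0 := by
    intro m p _
    rw [Finset.card_filter]
    push_cast
    rfl
  rw [h1]
  simp only [h1]
  rw [← Fintype.sum_prod_type']
  exact (Fintype.sum_equiv (Fin.consEquiv fun _ => Ω) _ _ fun x => rfl).symm

theorem p_hit : S_hit := by
  intro Ω τ _ B S q T L hSB hq hq1 hyp
  induction L generalizing T with
  | zero =>
    rcases T.eq_empty_or_nonempty with rfl | ⟨t, ht⟩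
    · simp
    · have : ({ω : Fin 0 → Ω | ∀ t ∈ T, BadAt (B t) (S t) ω} : Finset (Fin 0 → Ω)) = ∅ := by
        rw [Finset.filter_eq_empty_iff]
        intro ω _ h
        exact hit_zero _ _ ω (h t ht)
      rw [this]
      simp only [Finset.card_empty, Nat.cast_zero]
      positivity
  | succ L ih =>
    have hN : (0 : ℝ) ≤ (Fintype.card Ω : ℝ) ^ L := by positivity
    rw [hit_split]
    -- each term
    have hterm : ∀ c : Ω,
        (({ω : Fin L → Ω | ∀ t ∈ T, BadAt (B t) (S t) (Fin.cons c ω : Fin (L + 1) → Ω)} :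
          Finset (Fin L → Ω)).card : ℝ) ≤
        q ^ T.card * (Fintype.card Ω : ℝ) ^ L *
          ((if (∃ t ∈ T, c ∈ B t) ∧ (∀ t ∈ T, c ∈ B t → c ∈ S t) then
            (q⁻¹) ^ (T.filter fun t => c ∈ B t).card else 0) +
          (if c ∈ T.biUnion B then 0 else 1)) := by
      intro c
      by_cases hok : ∀ t ∈ T, c ∈ B t → c ∈ S t
      · have hle : (({ω : Fin L → Ω | ∀ t ∈ T, BadAt (B t) (S t) (Fin.cons c ω : Fin (L + 1) → Ω)} :
            Finset (Fin L → Ω)).card : ℝ) ≤
            q ^ (T.filter fun t => c ∉ B t).card * (Fintype.card Ω : ℝ) ^ L := by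
          refine le_trans ?_ (ih (T.filter fun t => c ∉ B t)
            (fun T' hT' => hyp T' (hT'.trans (Finset.filter_subset _ _))))
          rw [Nat.cast_le]
          refine Finset.card_le_card ?_
          intro ω hω
          rw [Finset.mem_filter] at hω ⊢
          refine ⟨Finset.mem_univ _, fun t ht => ?_⟩
          rw [Finset.mem_filter] at ht
          rcases (hit_cons _ _ c ω).1 (hω.2 t ht.1) with h | h
          · exact absurd h.1 ht.2
          · exact h.2
        have hcard : (T.filter fun t => c ∈ B t).card + (T.filter fun t => c ∉ B t).card =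
            T.card := Finset.card_filter_add_card_filter_not (fun t => c ∈ B t)
        have hpow : q ^ (T.filter fun t => c ∉ B t).card =
            q ^ T.card * (q⁻¹) ^ (T.filter fun t => c ∈ B t).card := by
          rw [← hcard, pow_add, inv_pow]
          field_simp
        refine hle.trans (le_of_eq ?_)
        rw [hpow]
        by_cases hex : ∃ t ∈ T, c ∈ B t
        · have hmem : c ∈ T.biUnion B := by
            obtain ⟨t, ht, htc⟩ := hex
            exact Finset.mem_biUnion.2 ⟨t, ht, htc⟩
          rw [if_pos ⟨hex, hok⟩, if_pos hmem]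
          ring
        · have hmem : c ∉ T.biUnion B := by
            intro h
            obtain ⟨t, ht, htc⟩ := Finset.mem_biUnion.1 h
            exact hex ⟨t, ht, htc⟩
          have hem : (T.filter fun t => c ∈ B t) = ∅ := by
            rw [Finset.filter_eq_empty_iff]
            intro t ht htc
            exact hex ⟨t, ht, htc⟩
          rw [if_neg (fun h => hex h.1), if_neg hmem, hem]
          simp
      · have hem : ({ω : Fin L → Ω | ∀ t ∈ T, BadAt (B t) (S t) (Fin.cons c ω : Fin (L + 1) → Ω)} :
            Finset (Fin L → Ω)) = ∅ := by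
          rw [Finset.filter_eq_empty_iff]
          intro ω _ h
          apply hok
          intro t ht htc
          rcases (hit_cons _ _ c ω).1 (h t ht) with h' | h'
          · exact h'.2
          · exact absurd htc h'.1
        rw [hem, Finset.card_empty, Nat.cast_zero]
        have h1 : (0 : ℝ) ≤ q ^ T.card * (Fintype.card Ω : ℝ) ^ L := by positivity
        refine mul_nonneg h1 (add_nonneg ?_ ?_)
        · split_ifs
          · positivity
          · exact le_rfl
        · split_ifs
          · exact le_rfl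
          · exact zero_le_one
    refine (Finset.sum_le_sum fun c _ => hterm c).trans ?_
    rw [← Finset.mul_sum, Finset.sum_add_distrib]
    have h2 : ∑ c : Ω, (if c ∈ T.biUnion B then (0 : ℝ) else 1) =
        (Fintype.card Ω : ℝ) - ((T.biUnion B).card : ℝ) := by
      have h3 : ∑ c : Ω, (if c ∈ T.biUnion B then (1 : ℝ) else 0) = ((T.biUnion B).card : ℝ) := by
        rw [Finset.sum_ite_mem, Finset.univ_inter, Finset.sum_const, nsmul_eq_mul, mul_one]
      have h4 : ∑ c : Ω, ((if c ∈ T.biUnion B then (0 : ℝ) else 1) +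
          (if c ∈ T.biUnion B then (1 : ℝ) else 0)) = (Fintype.card Ω : ℝ) := by
        have : ∀ c : Ω, ((if c ∈ T.biUnion B then (0 : ℝ) else 1) +
            (if c ∈ T.biUnion B then (1 : ℝ) else 0)) = 1 := by
          intro c
          split_ifs <;> norm_num
        rw [Finset.sum_congr rfl fun c _ => this c]
        simp
      rw [Finset.sum_add_distrib, h3] at h4
      linarith
    have h5 := hyp T (Finset.Subset.refl T)
    have h6 : (∑ c : Ω, (if (∃ t ∈ T, c ∈ B t) ∧ (∀ t ∈ T, c ∈ B t → c ∈ S t) then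
        (q⁻¹) ^ (T.filter fun t => c ∈ B t).card else 0)) +
        ∑ c : Ω, (if c ∈ T.biUnion B then (0 : ℝ) else 1) ≤ (Fintype.card Ω : ℝ) := by
      rw [h2]
      linarith
    have h7 : (0 : ℝ) ≤ q ^ T.card * (Fintype.card Ω : ℝ) ^ L := by positivity
    calc _ ≤ q ^ T.card * (Fintype.card Ω : ℝ) ^ L * (Fintype.card Ω : ℝ) :=
          mul_le_mul_of_nonneg_left h6 h7
      _ = _ := by rw [pow_succ]; ring

end Pool.Agent.Lib.MP_33d9ce_co.Star
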