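import Pool.Agent.Lib.MP_33d9ce_co.Star.PStm

/-!
# Spanning hypercubes: piece ineq (the inequality of Lemma A)
-/

set_option autoImplicit false

noncomputable section

open Classical Finset

namespace Pool.Agent.Lib.MP_33d9ce_co.Star

/-- sums of indicators -/
private lemma ineq_ind {Ω : Type} [Fintype Ω] (X : Finset Ω) (x : ℝ) :
    ∑ c : Ω, (if c ∈ X then x else 0) = X.card * x := by
  rw [← Finset.sum_filter, Finset.sum_const, nsmul_eq_mul]
  congr 2
  congr 1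
  ext c
  simp

/-- exchange of sums over pairs -/
private lemma ineq_exch {Ω : Type} [Fintype Ω] (B : ℕ → Finset Ω) (T : Finset ℕ)
    (f : ℕ → ℕ → ℝ) :
    ∑ c : Ω, ∑ t ∈ T, ∑ s ∈ T.filter (t < ·), (if c ∈ B t ∩ B s then f t s else 0) =
      ∑ t ∈ T, ∑ s ∈ T.filter (t < ·), ((B t ∩ B s).card : ℝ) * f t s := by
  rw [Finset.sum_comm]
  refine Finset.sum_congr rfl fun t _ => ?_
  rw [Finset.sum_comm]
  exact Finset.sum_congr rfl fun s _ => ineq_ind _ _

/-- exchange of sums, single -/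
private lemma ineq_exch1 {Ω : Type} [Fintype Ω] (S : ℕ → Finset Ω) (T : Finset ℕ) :
    ∑ c : Ω, ∑ t ∈ T, (if c ∈ S t then (1 : ℝ) else 0) = ∑ t ∈ T, ((S t).card : ℝ) := by
  rw [Finset.sum_comm]
  refine Finset.sum_congr rfl fun t _ => ?_
  rw [ineq_ind, mul_one]

/-- a pair is one term of the sum over pairs -/
private lemma ineq_single {Ω : Type} [Fintype Ω] (B : ℕ → Finset Ω) (T : Finset ℕ)
    (f : ℕ → ℕ → ℝ) (hf : ∀ t s, 0 ≤ f t s) (c : Ω) (t s : ℕ) (ht : t ∈ T) (hs : s ∈ T)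
    (hts : t < s) (hc : c ∈ B t) (hc' : c ∈ B s) :
    f t s ≤ ∑ t ∈ T, ∑ s ∈ T.filter (t < ·), (if c ∈ B t ∩ B s then f t s else 0) := by
  have h0 : ∀ t s, 0 ≤ (if c ∈ B t ∩ B s then f t s else 0) := by
    intro t s
    split_ifs
    · exact hf t s
    · exact le_refl _
  have h1 : (if c ∈ B t ∩ B s then f t s else 0) ≤
      ∑ s ∈ T.filter (t < ·), (if c ∈ B t ∩ B s then f t s else 0) :=
    Finset.single_le_sum (f := fun s => (if c ∈ B t ∩ B s then f t s else 0))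
      (fun s _ => h0 t s) (Finset.mem_filter.2 ⟨hs, hts⟩)
  have h2 : ∑ s ∈ T.filter (t < ·), (if c ∈ B t ∩ B s then f t s else 0) ≤
      ∑ t ∈ T, ∑ s ∈ T.filter (t < ·), (if c ∈ B t ∩ B s then f t s else 0) :=
    Finset.single_le_sum
      (f := fun t => ∑ s ∈ T.filter (t < ·), (if c ∈ B t ∩ B s then f t s else 0))
      (fun t _ => Finset.sum_nonneg fun s _ => h0 t s) ht
  rw [if_pos (Finset.mem_inter.2 ⟨hc, hc'⟩)] at h1
  exact h1.trans h2

/-- pointwise upper bound -/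
private lemma ineq_up {Ω : Type} [Fintype Ω] (B S : ℕ → Finset Ω) (T : Finset ℕ) (c : Ω) :
    (if (∃ t ∈ T, c ∈ B t) ∧ (∀ t ∈ T, c ∈ B t → c ∈ S t) then
      ((21 / 20 : ℝ)) ^ (T.filter fun t => c ∈ B t).card else 0) ≤
    21 / 20 * (∑ t ∈ T, (if c ∈ S t then (1 : ℝ) else 0)) +
      ∑ t ∈ T, ∑ s ∈ T.filter (t < ·),
        (if c ∈ B t ∩ B s then (21 / 20 : ℝ) ^ (s - t + 1) else 0) := by
  have hA0 : 0 ≤ ∑ t ∈ T, (if c ∈ S t then (1 : ℝ) else 0) :=
    Finset.sum_nonneg fun t _ => by split_ifs <;> norm_num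
  have hQ0 : 0 ≤ ∑ t ∈ T, ∑ s ∈ T.filter (t < ·),
        (if c ∈ B t ∩ B s then (21 / 20 : ℝ) ^ (s - t + 1) else 0) :=
    Finset.sum_nonneg fun t _ => Finset.sum_nonneg fun s _ => by
      split_ifs
      · positivity
      · exact le_refl _
  split_ifs with h
  · obtain ⟨⟨t₁, ht₁, hc₁⟩, hS⟩ := h
    set I := T.filter fun t => c ∈ B t with hI
    have hne : I.Nonempty := ⟨t₁, Finset.mem_filter.2 ⟨ht₁, hc₁⟩⟩
    have hmin := I.min'_mem hne
    have hmax := I.max'_mem hne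
    set t := I.min' hne with ht
    set s := I.max' hne with hs
    have hmin' := Finset.mem_filter.1 hmin
    have hmax' := Finset.mem_filter.1 hmax
    have hsub : I ⊆ Finset.Icc t s := by
      intro x hx
      exact Finset.mem_Icc.2 ⟨Finset.min'_le _ _ hx, Finset.le_max' _ _ hx⟩
    have hcard := Finset.card_le_card hsub
    rw [Nat.card_Icc] at hcard
    have hts : t ≤ s := Finset.min'_le _ _ hmax
    rcases hts.eq_or_lt with heq | hlt
    · have h1 : I.card ≤ 1 := by omega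
      have h2 : (1 : ℝ) ≤ ∑ t ∈ T, (if c ∈ S t then (1 : ℝ) else 0) := by
        have h3 : (if c ∈ S t then (1 : ℝ) else 0) ≤
            ∑ t ∈ T, (if c ∈ S t then (1 : ℝ) else 0) :=
          Finset.single_le_sum (f := fun t => (if c ∈ S t then (1 : ℝ) else 0))
            (fun t _ => by split_ifs <;> norm_num) hmin'.1
        rwa [if_pos (hS t hmin'.1 hmin'.2)] at h3
      have h3 : (21 / 20 : ℝ) ^ I.card ≤ (21 / 20 : ℝ) ^ 1 :=
        pow_le_pow_right₀ (by norm_num) h1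
      rw [pow_one] at h3
      linarith
    · have h1 : (21 / 20 : ℝ) ^ I.card ≤ (21 / 20 : ℝ) ^ (s - t + 1) :=
        pow_le_pow_right₀ (by norm_num) (by omega)
      have h2 := ineq_single B T (fun t s => (21 / 20 : ℝ) ^ (s - t + 1))
        (fun t s => by positivity) c t s hmin'.1 hmax'.1 hlt hmin'.2 hmax'.2
      linarith
  · linarith

/-- pointwise lower bound -/
private lemma ineq_low {Ω : Type} [Fintype Ω] (B : ℕ → Finset Ω) (T : Finset ℕ) (c : Ω) :
    (∑ t ∈ T, (if c ∈ B t then (1 : ℝ) else 0)) -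
      ∑ t ∈ T, ∑ s ∈ T.filter (t < ·), (if c ∈ B t ∩ B s then (1 : ℝ) else 0) ≤
    (if c ∈ T.biUnion B then (1 : ℝ) else 0) := by
  have h0 : ∀ t s, 0 ≤ (if c ∈ B t ∩ B s then (1 : ℝ) else 0) := by
    intro t s
    split_ifs <;> norm_num
  by_cases h : c ∈ T.biUnion B
  · rw [if_pos h]
    rw [Finset.mem_biUnion] at h
    obtain ⟨t₁, ht₁, hc₁⟩ := h
    set I := T.filter fun t => c ∈ B t with hI
    have hne : I.Nonempty := ⟨t₁, Finset.mem_filter.2 ⟨ht₁, hc₁⟩⟩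
    have hmin := I.min'_mem hne
    set t := I.min' hne with ht
    have hmin' := Finset.mem_filter.1 hmin
    have h1 : (∑ t ∈ T, (if c ∈ B t then (1 : ℝ) else 0)) = I.card := by
      rw [Finset.sum_boole]
    have h2 : (∑ s ∈ T.filter (t < ·), (if c ∈ B t ∩ B s then (1 : ℝ) else 0)) ≤
        ∑ t ∈ T, ∑ s ∈ T.filter (t < ·), (if c ∈ B t ∩ B s then (1 : ℝ) else 0) :=
      Finset.single_le_sum
        (f := fun t => ∑ s ∈ T.filter (t < ·), (if c ∈ B t ∩ B s then (1 : ℝ) else 0))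
        (fun t _ => Finset.sum_nonneg fun s _ => h0 t s) hmin'.1
    have h3 : ((I.erase t).card : ℝ) ≤
        ∑ s ∈ T.filter (t < ·), (if c ∈ B t ∩ B s then (1 : ℝ) else 0) := by
      rw [Finset.sum_boole]
      exact_mod_cast Finset.card_le_card (by
        intro s hs
        rw [Finset.mem_erase] at hs
        have hs' := Finset.mem_filter.1 hs.2
        have hts : t ≤ s := Finset.min'_le _ _ hs.2
        refine Finset.mem_filter.2 ⟨Finset.mem_filter.2 ⟨hs'.1, ?_⟩,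
          Finset.mem_inter.2 ⟨hmin'.2, hs'.2⟩⟩
        exact lt_of_le_of_ne hts (Ne.symm hs.1))
    have h4 : ((I.erase t).card : ℝ) = I.card - 1 := by
      rw [Finset.card_erase_of_mem hmin]
      have h5 : 1 ≤ I.card := Finset.card_pos.2 hne
      push_cast [Nat.cast_sub h5]
      ring
    linarith
  · rw [if_neg h]
    have h1 : (∑ t ∈ T, (if c ∈ B t then (1 : ℝ) else 0)) = 0 := by
      apply Finset.sum_eq_zero
      intro t ht
      rw [if_neg]
      intro hc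
      exact h (Finset.mem_biUnion.2 ⟨t, ht, hc⟩)
    have h2 : 0 ≤ ∑ t ∈ T, ∑ s ∈ T.filter (t < ·), (if c ∈ B t ∩ B s then (1 : ℝ) else 0) :=
      Finset.sum_nonneg fun t _ => Finset.sum_nonneg fun s _ => h0 t s
    linarith

theorem p_ineq (h : S_pair) : S_ineq := by
  intro Ω _ B S b T hb hB hS hBB
  have hpair := h T
  have h1 := Finset.sum_le_sum fun (c : Ω) (_ : c ∈ univ) => ineq_up B S T c
  rw [Finset.sum_add_distrib, ← Finset.mul_sum, ineq_exch1,
    ineq_exch B T (fun t s => (21 / 20 : ℝ) ^ (s - t + 1))] at h1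
  have h2 := Finset.sum_le_sum fun (c : Ω) (_ : c ∈ univ) => ineq_low B T c
  rw [Finset.sum_sub_distrib, ineq_exch1, ineq_exch B T (fun _ _ => (1 : ℝ)), ineq_ind,
    mul_one] at h2
  have h3 : ∑ t ∈ T, ((S t).card : ℝ) ≤ 10 / 11 * b * T.card := by
    calc ∑ t ∈ T, ((S t).card : ℝ) ≤ ∑ _t ∈ T, (10 / 11 * b) := Finset.sum_le_sum hS
      _ = 10 / 11 * b * T.card := by rw [Finset.sum_const, nsmul_eq_mul]; ring
  have h4 : ∑ t ∈ T, ((B t).card : ℝ) = b * T.card := by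
    rw [Finset.sum_congr rfl hB, Finset.sum_const, nsmul_eq_mul]
    ring
  have h5 : ∑ t ∈ T, ∑ s ∈ T.filter (t < ·), ((B t ∩ B s).card : ℝ) * (21 / 20 : ℝ) ^ (s - t + 1) +
      ∑ t ∈ T, ∑ s ∈ T.filter (t < ·), ((B t ∩ B s).card : ℝ) * (1 : ℝ) ≤
      b / 100 * (∑ t ∈ T, ∑ s ∈ T.filter (t < ·),
        ((1 / 4 : ℝ)) ^ (s - t) * (1 + (21 / 20 : ℝ) ^ (s - t + 1))) := by
    rw [← Finset.sum_add_distrib, Finset.mul_sum]
    refine Finset.sum_le_sum fun t ht => ?_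
    rw [← Finset.sum_add_distrib, Finset.mul_sum]
    refine Finset.sum_le_sum fun s hs => ?_
    rw [Finset.mem_filter] at hs
    have h6 := hBB t ht s hs.1 hs.2
    have h7 : (0 : ℝ) < (21 / 20 : ℝ) ^ (s - t + 1) := by positivity
    have h8 : ((B t ∩ B s).card : ℝ) * (21 / 20 : ℝ) ^ (s - t + 1) +
        ((B t ∩ B s).card : ℝ) * 1 =
        ((B t ∩ B s).card : ℝ) * (1 + (21 / 20 : ℝ) ^ (s - t + 1)) := by ring
    have h9 : b / 100 * (((1 / 4 : ℝ)) ^ (s - t) * (1 + (21 / 20 : ℝ) ^ (s - t + 1))) =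
        b / 100 * (1 / 4) ^ (s - t) * (1 + (21 / 20 : ℝ) ^ (s - t + 1)) := by ring
    rw [h8, h9]
    exact mul_le_mul_of_nonneg_right h6 (by linarith)
  have h6 : b / 100 * (∑ t ∈ T, ∑ s ∈ T.filter (t < ·),
        ((1 / 4 : ℝ)) ^ (s - t) * (1 + (21 / 20 : ℝ) ^ (s - t + 1))) ≤
      b / 100 * (7 / 3 * T.card) :=
    mul_le_mul_of_nonneg_left hpair (by positivity)
  have h7 : 0 ≤ b * (T.card : ℝ) := by positivity
  rw [h4] at h2
  nlinarith

end Pool.Agent.Lib.MP_33d9ce_co.Star
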