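import Pool.Agent.Lib.MP_33d9ce_co.Star.PStm

/-!
# Spanning hypercubes: intersection of balls
-/

set_option autoImplicit false

noncomputable section

open Classical Finset

namespace Pool.Agent.Lib.MP_33d9ce_co.Star

private theorem inter_dist {ι : Type} [Fintype ι] (w w' c : Pt ι) :
    hammingDist c w' + 2 * (({a | w a ≠ w' a} : Finset ι).filter fun a => c a ≠ w a).card =
      hammingDist c w + hammingDist w w' := by
  unfold hammingDist
  rw [Finset.filter_filter, Finset.card_filter, Finset.card_filter, Finset.card_filter,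
    Finset.card_filter, Finset.mul_sum, ← Finset.sum_add_distrib, ← Finset.sum_add_distrib]
  refine Finset.sum_congr rfl fun a _ => ?_
  cases c a <;> cases w a <;> cases w' a <;> simp

private theorem inter_choose_step (n i : ℕ) (h : 4 * (i + 1) ≤ n) :
    3 * n.choose i ≤ n.choose (i + 1) := by
  have h1 := Nat.choose_succ_right_eq n i
  have h2 : n.choose i * (3 * (i + 1)) ≤ n.choose i * (n - i) :=
    Nat.mul_le_mul_left _ (by omega)
  rw [← h1] at h2
  refine Nat.le_of_mul_le_mul_right (c := i + 1) ?_ (by omega)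
  calc 3 * n.choose i * (i + 1) = n.choose i * (3 * (i + 1)) := by ring
    _ ≤ _ := h2

private theorem inter_choose (n i j : ℕ) (h : 4 * (i + j) ≤ n) :
    3 ^ j * n.choose i ≤ n.choose (i + j) := by
  induction j with
  | zero => simp
  | succ j ih =>
    have h1 := ih (by omega)
    have h2 := inter_choose_step n (i + j) (by omega)
    calc 3 ^ (j + 1) * n.choose i = 3 * (3 ^ j * n.choose i) := by ring
      _ ≤ 3 * n.choose (i + j) := Nat.mul_le_mul_left _ h1
      _ ≤ n.choose (i + (j + 1)) := h2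

private theorem inter_geom (x : ℝ) (h0 : 0 ≤ x) (h1 : x ≤ 7 / 12) (r : ℕ) :
    ∑ i ∈ range (r + 1), x ^ (r - i) ≤ 12 / 5 := by
  have h2 : ∑ i ∈ range (r + 1), x ^ (r - i) = ∑ i ∈ range (r + 1), x ^ i := by
    rw [← Finset.sum_range_reflect]
    refine Finset.sum_congr rfl fun i hi => ?_
    rw [Finset.mem_range] at hi
    congr 1
    omega
  rw [h2]
  have h3 := geom_sum_mul_neg x (r + 1)
  have h4 : 0 ≤ x ^ (r + 1) := pow_nonneg h0 _
  have h5 : 0 ≤ ∑ i ∈ range (r + 1), x ^ i := Finset.sum_nonneg fun i _ => pow_nonneg h0 _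
  nlinarith

theorem p_inter (h1 : S_bc) (h2 : S_mom) : S_inter := by
  intro ι _ w w'
  set n := Fintype.card ι with hn
  set r := n / 4 with hr
  set D := hammingDist w w' with hD
  have hs0 : 0 < √(3 : ℝ) := Real.sqrt_pos.2 (by norm_num)
  have hs1 : 1 ≤ √(3 : ℝ) := Real.one_le_sqrt.2 (by norm_num)
  have hs2 : √(3 : ℝ) ^ 2 = 3 := Real.sq_sqrt (by norm_num)
  have hs3 : √(3 : ℝ) ≤ 7 / 4 := by
    rw [Real.sqrt_le_left (by norm_num)]
    norm_num
  obtain ⟨s, hs⟩ : ∃ s, s = √(3 : ℝ) := ⟨_, rfl⟩
  rw [← hs] at hs0 hs1 hs2 hs3 ⊢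
  let A : Finset ι := {a | w a ≠ w' a}
  have hA : A.card = D := rfl
  -- spheres
  have hcov : ball r w ∩ ball r w' ⊆ (range (r + 1)).biUnion fun i =>
      (({c | hammingDist c w = i} : Finset (Pt ι)) ∩ ball r w') := by
    intro c hc
    rw [Finset.mem_inter] at hc
    rw [Finset.mem_biUnion]
    have h3 : hammingDist c w ≤ r := by simpa [ball] using hc.1
    exact ⟨hammingDist c w, Finset.mem_range.2 (by omega),
      Finset.mem_inter.2 ⟨by simp, hc.2⟩⟩
  have hsphere : ∀ i ∈ range (r + 1),
      ((({c | hammingDist c w = i} : Finset (Pt ι)) ∩ ball r w').card : ℝ) ≤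
        (3 / 2 / s) ^ D * (n.choose r * (s / 3) ^ (r - i)) := by
    intro i hi
    rw [Finset.mem_range] at hi
    have hi4 : 4 * i ≤ Fintype.card ι := by omega
    have hpt : ∀ c ∈ (({c | hammingDist c w = i} : Finset (Pt ι)) ∩ ball r w'),
        (1 : ℝ) ≤ s ^ (r - i) / s ^ D * (3 : ℝ) ^ (A.filter fun a => c a ≠ w a).card := by
      intro c hc
      rw [Finset.mem_inter] at hc
      have h3 : hammingDist c w = i := by simpa using hc.1
      have h4 : hammingDist c w' ≤ r := by simpa [ball] using hc.2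
      have h5 : hammingDist c w' + 2 * (A.filter fun a => c a ≠ w a).card =
        hammingDist c w + hammingDist w w' := inter_dist w w' c
      rw [h3] at h5
      have h6 : D ≤ (r - i) + 2 * (A.filter fun a => c a ≠ w a).card := by omega
      rw [div_mul_eq_mul_div, le_div_iff₀ (pow_pos hs0 _), one_mul, ← hs2, ← pow_mul, ← pow_add]
      exact pow_le_pow_right₀ hs1 h6
    have h7 : ((({c | hammingDist c w = i} : Finset (Pt ι)) ∩ ball r w').card : ℝ) ≤
        ∑ c ∈ ({c | hammingDist c w = i} : Finset (Pt ι)),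
          s ^ (r - i) / s ^ D * (3 : ℝ) ^ (A.filter fun a => c a ≠ w a).card := by
      calc ((({c | hammingDist c w = i} : Finset (Pt ι)) ∩ ball r w').card : ℝ)
          = ∑ c ∈ (({c | hammingDist c w = i} : Finset (Pt ι)) ∩ ball r w'), (1 : ℝ) := by simp
        _ ≤ ∑ c ∈ (({c | hammingDist c w = i} : Finset (Pt ι)) ∩ ball r w'),
            s ^ (r - i) / s ^ D * (3 : ℝ) ^ (A.filter fun a => c a ≠ w a).card :=
          Finset.sum_le_sum hpt
        _ ≤ _ := Finset.sum_le_sum_of_subset_of_nonneg Finset.inter_subset_left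
          fun c _ _ => by positivity
    rw [← Finset.mul_sum] at h7
    have h8 := h2 ι w A i hi4
    rw [hA] at h8
    have h9 : ((n.choose i : ℕ) : ℝ) * 3 ^ (r - i) ≤ n.choose r := by
      have := inter_choose n i (r - i) (by omega)
      rw [show i + (r - i) = r by omega] at this
      rw [mul_comm]
      exact_mod_cast this
    have h10 : (0 : ℝ) ≤ s ^ (r - i) / s ^ D := by positivity
    calc ((({c | hammingDist c w = i} : Finset (Pt ι)) ∩ ball r w').card : ℝ)
        ≤ s ^ (r - i) / s ^ D * ((n.choose i : ℕ) * (3 / 2 : ℝ) ^ D) :=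
          h7.trans (mul_le_mul_of_nonneg_left h8 h10)
      _ = (3 / 2 / s) ^ D * (s / 3) ^ (r - i) * (((n.choose i : ℕ) : ℝ) * 3 ^ (r - i)) := by
          rw [div_pow (3 / 2 : ℝ) s, div_pow s 3]
          have h11 : (3 : ℝ) ^ (r - i) ≠ 0 := by positivity
          have h12 : s ^ D ≠ 0 := by positivity
          field_simp
      _ ≤ (3 / 2 / s) ^ D * (s / 3) ^ (r - i) * n.choose r :=
          mul_le_mul_of_nonneg_left h9 (by positivity)
      _ = _ := by ring
  have hball : ((n.choose r : ℕ) : ℝ) ≤ (ball r w).card := by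
    rw [(h1 ι w).2 r]
    exact_mod_cast Finset.single_le_sum (f := fun i => (Fintype.card ι).choose i)
      (fun i _ => Nat.zero_le _) (Finset.mem_range.2 (Nat.lt_succ_self r))
  calc ((ball r w ∩ ball r w').card : ℝ)
      ≤ (((range (r + 1)).biUnion fun i =>
        (({c | hammingDist c w = i} : Finset (Pt ι)) ∩ ball r w')).card : ℝ) := by
        exact_mod_cast Finset.card_le_card hcov
    _ ≤ ∑ i ∈ range (r + 1), ((({c | hammingDist c w = i} : Finset (Pt ι)) ∩ ball r w').card : ℝ) := by
        exact_mod_cast Finset.card_biUnion_le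
    _ ≤ ∑ i ∈ range (r + 1), (3 / 2 / s) ^ D * (n.choose r * (s / 3) ^ (r - i)) :=
        Finset.sum_le_sum hsphere
    _ = (3 / 2 / s) ^ D * (n.choose r * ∑ i ∈ range (r + 1), (s / 3) ^ (r - i)) := by
        rw [Finset.mul_sum, Finset.mul_sum]
    _ ≤ (3 / 2 / s) ^ D * ((ball r w).card * (12 / 5)) := by
        refine mul_le_mul_of_nonneg_left ?_ (by positivity)
        refine mul_le_mul hball (inter_geom (s / 3) (by positivity) (by linarith) r)
          (Finset.sum_nonneg fun i _ => by positivity) (by positivity)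
    _ = 12 / 5 * (3 / 2 / s) ^ D * (ball r w).card := by ring

end Pool.Agent.Lib.MP_33d9ce_co.Star
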