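import Pool.Agent.Lib.MP_33d9ce_co.Star.PStm

set_option autoImplicit false

noncomputable section

open Classical Finset

namespace Pool.Agent.Lib.MP_33d9ce_co.Star

private lemma mom_choose (n i : ℕ) (h : 4 * i ≤ n) (j : ℕ) (hj : j ≤ i) :
    4 ^ j * (n - j).choose (i - j) ≤ n.choose i := by
  induction j with
  | zero => simp
  | succ j ih =>
    have ih' := ih (by omega)
    obtain ⟨m, hm⟩ : ∃ m, n - j = m + 1 := ⟨n - j - 1, by omega⟩
    obtain ⟨l, hl⟩ : ∃ l, i - j = l + 1 := ⟨i - j - 1, by omega⟩
    have e1 : n - (j + 1) = m := by omega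
    have e2 : i - (j + 1) = l := by omega
    rw [hm, hl] at ih'
    rw [e1, e2]
    have h1 := Nat.add_one_mul_choose_eq m l
    have h2 : 4 * (l + 1) ≤ m + 1 := by omega
    have h3 : 4 * m.choose l ≤ (m + 1).choose (l + 1) := by
      have h4 : (m + 1) * (4 * m.choose l) ≤ (m + 1) * (m + 1).choose (l + 1) := by
        calc (m + 1) * (4 * m.choose l) = 4 * ((m + 1) * m.choose l) := by ring
          _ = (m + 1).choose (l + 1) * (4 * (l + 1)) := by rw [h1]; ring
          _ ≤ (m + 1).choose (l + 1) * (m + 1) := Nat.mul_le_mul_left _ h2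
          _ = (m + 1) * (m + 1).choose (l + 1) := by ring
      exact Nat.le_of_mul_le_mul_left h4 (Nat.succ_pos m)
    calc 4 ^ (j + 1) * m.choose l = 4 ^ j * (4 * m.choose l) := by ring
      _ ≤ 4 ^ j * (m + 1).choose (l + 1) := Nat.mul_le_mul_left _ h3
      _ ≤ n.choose i := ih'

private lemma mom_count {ι : Type} [Fintype ι] (i : ℕ) (h : 4 * i ≤ Fintype.card ι) (F : Finset ι) :
    4 ^ F.card * ((powersetCard i (univ : Finset ι)).filter fun S => F ⊆ S).card ≤
      (Fintype.card ι).choose i := by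
  by_cases hF : F.card ≤ i
  · have h1 : ((powersetCard i (univ : Finset ι)).filter fun S => F ⊆ S).card ≤
        (Fintype.card ι - F.card).choose (i - F.card) := by
      have h2 : (powersetCard (i - F.card) (univ \ F)).card =
          (Fintype.card ι - F.card).choose (i - F.card) := by
        rw [card_powersetCard, card_sdiff_of_subset (subset_univ F), card_univ]
      rw [← h2]
      refine card_le_card_of_injOn (fun S => S \ F) ?_ ?_
      · intro S hS
        obtain ⟨hS1, hS2⟩ := mem_filter.mp hS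
        obtain ⟨-, hS3⟩ := mem_powersetCard.mp hS1
        refine mem_coe.mpr (mem_powersetCard.mpr ⟨sdiff_subset_sdiff (subset_univ S) subset_rfl, ?_⟩)
        rw [card_sdiff_of_subset hS2, hS3]
      · intro S hS S' hS' heq
        obtain ⟨-, hS2⟩ := mem_filter.mp hS
        obtain ⟨-, hS2'⟩ := mem_filter.mp hS'
        have heq' : S \ F = S' \ F := heq
        rw [← sdiff_union_of_subset hS2, heq', sdiff_union_of_subset hS2']
    exact (Nat.mul_le_mul_left _ h1).trans (mom_choose _ _ h _ hF)
  · have h1 : ((powersetCard i (univ : Finset ι)).filter fun S => F ⊆ S) = ∅ := by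
      rw [filter_eq_empty_iff]
      intro S hS hFS
      have := card_le_card hFS
      rw [(mem_powersetCard.mp hS).2] at this
      exact hF this
    rw [h1, card_empty, mul_zero]
    exact Nat.zero_le _

private lemma mom_sub {ι : Type} [Fintype ι] (A : Finset ι) (i : ℕ) (h : 4 * i ≤ Fintype.card ι) :
    ∑ S ∈ powersetCard i (univ : Finset ι), (3 : ℝ) ^ (A ∩ S).card ≤
      (Fintype.card ι).choose i * (3 / 2) ^ A.card := by
  have h3 : ∀ S : Finset ι, (3 : ℝ) ^ (A ∩ S).card =
      ∑ F ∈ A.powerset, if F ⊆ S then (2 : ℝ) ^ F.card else 0 := by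
    intro S
    have h := sum_pow_mul_eq_add_pow (2 : ℝ) 1 (A ∩ S)
    simp only [one_pow, mul_one] at h
    rw [show (3 : ℝ) = 2 + 1 by norm_num, ← h, ← sum_filter]
    refine sum_congr ?_ fun _ _ => rfl
    ext F
    rw [mem_powerset, mem_filter, mem_powerset, subset_inter_iff]
  have h4 : ∑ S ∈ powersetCard i (univ : Finset ι), (3 : ℝ) ^ (A ∩ S).card =
      ∑ F ∈ A.powerset, (2 : ℝ) ^ F.card *
        ((powersetCard i (univ : Finset ι)).filter fun S => F ⊆ S).card := by
    rw [sum_congr rfl fun S _ => h3 S, sum_comm]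
    refine sum_congr rfl fun F _ => ?_
    rw [← sum_filter, sum_const, nsmul_eq_mul, mul_comm]
  rw [h4]
  have h5 : ∀ F ∈ A.powerset, (2 : ℝ) ^ F.card *
        ((powersetCard i (univ : Finset ι)).filter fun S => F ⊆ S).card ≤
      (Fintype.card ι).choose i * (1 / 2) ^ F.card := by
    intro F _
    have h6 : ((4 : ℝ) ^ F.card) * ((powersetCard i (univ : Finset ι)).filter fun S => F ⊆ S).card ≤
        (Fintype.card ι).choose i := by
      exact_mod_cast mom_count i h F
    have h7 : (2 : ℝ) ^ F.card = (1 / 2) ^ F.card * 4 ^ F.card := by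
      rw [← mul_pow]; norm_num
    rw [h7, mul_assoc, mul_comm ((Fintype.card ι).choose i : ℝ)]
    exact mul_le_mul_of_nonneg_left h6 (by positivity)
  refine (sum_le_sum h5).trans ?_
  rw [← mul_sum]
  have h8 := sum_pow_mul_eq_add_pow (1 / 2 : ℝ) 1 A
  simp only [one_pow, mul_one] at h8
  rw [h8]
  norm_num

theorem p_mom : S_mom := by
  intro ι _ w A i h
  refine le_trans ?_ (mom_sub A i h)
  let f : Pt ι → Finset ι := fun c => univ.filter fun a => c a ≠ w a
  have hf : ∀ c : Pt ι, (A.filter fun a => c a ≠ w a) = A ∩ f c := by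
    intro c
    ext a
    simp [f]
  have hinj : Function.Injective f := by
    intro c c' hcc
    funext a
    have h1 : (a ∈ f c) ↔ (a ∈ f c') := by rw [hcc]
    simp only [f, mem_filter, mem_univ, true_and] at h1
    cases hc : c a <;> cases hc' : c' a <;> cases hw : w a <;> simp_all
  calc ∑ c ∈ ({c | hammingDist c w = i} : Finset (Pt ι)), (3 : ℝ) ^ (A.filter fun a => c a ≠ w a).card
      = ∑ c ∈ ({c | hammingDist c w = i} : Finset (Pt ι)), (3 : ℝ) ^ (A ∩ f c).card := by
        refine sum_congr rfl fun c _ => ?_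
        rw [hf c]
    _ = ∑ S ∈ (({c | hammingDist c w = i} : Finset (Pt ι)).image f), (3 : ℝ) ^ (A ∩ S).card := by
        rw [sum_image fun x _ y _ hxy => hinj hxy]
    _ ≤ ∑ S ∈ powersetCard i (univ : Finset ι), (3 : ℝ) ^ (A ∩ S).card := by
        refine sum_le_sum_of_subset_of_nonneg ?_ fun _ _ _ => by positivity
        intro S hS
        obtain ⟨c, hc, rfl⟩ := mem_image.mp hS
        exact mem_powersetCard.mpr ⟨subset_univ _, (mem_filter.mp hc).2⟩

end Pool.Agent.Lib.MP_33d9ce_co.Star
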