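import Pool.Agent.Lib.MP_33d9ce_co.Star.PStm

/-!
# Spanning hypercubes: the choice of the parameters
-/

set_option autoImplicit false

noncomputable section

open Classical Finset

namespace Pool.Agent.Lib.MP_33d9ce_co.Star

private theorem num_dk (k : ℕ) : dk 48 k + 1 = 2 ^ k * (1 + 48 * k) := by
  induction k with
  | zero => rfl
  | succ k ih =>
    have h : dk 48 (k + 1) = 2 * dk 48 k + 48 * 2 ^ (k + 1) + 1 := rfl
    rw [h, pow_succ]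
    have h2 : 2 * dk 48 k + 48 * (2 ^ k * 2) + 1 + 1 = 2 * (dk 48 k + 1) + 48 * (2 ^ k * 2) := by
      ring
    rw [h2, ih]
    ring

private theorem num_ek (k : ℕ) : 2 * ek 48 k = 2 ^ k * (24 * k ^ 2 + 73 * k) := by
  induction k with
  | zero => rfl
  | succ k ih =>
    have h : ek 48 (k + 1) = 2 * ek 48 k + (dk 48 k + 48 * 2 ^ (k + 1) + 1) := rfl
    have h2 : 2 * ek 48 (k + 1) = 2 * (2 * ek 48 k) + (2 * (dk 48 k + 1) + 96 * (2 ^ k * 2)) := by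
      rw [h, pow_succ]
      ring
    rw [h2, ih, num_dk, pow_succ]
    ring

/-- the choice of `K` -/
private theorem num_K (n : ℕ) (l : ℝ) (hl : 1000 ≤ l) (hn : l = Real.log n) (hn0 : 0 < n) :
    ∃ K : ℕ, 400 * l * 2 ^ K ≤ (n : ℝ) ∧ (n : ℝ) < 800 * l * 2 ^ K ∧ (K : ℝ) ≤ 1.4428 * l := by
  have hnr : (0 : ℝ) < n := by exact_mod_cast hn0
  have he : Real.exp l = n := by rw [hn, Real.exp_log hnr]
  have hq : 1 + l + l ^ 2 / 2 ≤ (n : ℝ) := by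
    rw [← he]
    exact Real.quadratic_le_exp_of_nonneg (by linarith)
  have h4 : (0 : ℝ) < 400 * l := by linarith
  have hy : 1 ≤ (n : ℝ) / (400 * l) := by
    rw [le_div_iff₀ h4]
    nlinarith
  have hf : ⌊(n : ℝ) / (400 * l)⌋₊ ≠ 0 := by
    have := Nat.floor_pos.mpr hy
    omega
  refine ⟨Nat.log 2 ⌊(n : ℝ) / (400 * l)⌋₊, ?_, ?_, ?_⟩
  · have h1 : (2 : ℕ) ^ Nat.log 2 ⌊(n : ℝ) / (400 * l)⌋₊ ≤ ⌊(n : ℝ) / (400 * l)⌋₊ :=
      Nat.pow_log_le_self 2 hf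
    have h2 : ((2 : ℝ)) ^ Nat.log 2 ⌊(n : ℝ) / (400 * l)⌋₊ ≤ (⌊(n : ℝ) / (400 * l)⌋₊ : ℝ) := by
      exact_mod_cast h1
    have h3 : (⌊(n : ℝ) / (400 * l)⌋₊ : ℝ) ≤ (n : ℝ) / (400 * l) := Nat.floor_le (by positivity)
    have h5 := h2.trans h3
    rw [le_div_iff₀ h4] at h5
    linarith
  · have h1 : ⌊(n : ℝ) / (400 * l)⌋₊ < 2 ^ (Nat.log 2 ⌊(n : ℝ) / (400 * l)⌋₊ + 1) :=
      Nat.lt_pow_succ_log_self (by norm_num) _
    have h2 : (⌊(n : ℝ) / (400 * l)⌋₊ : ℝ) + 1 ≤ 2 ^ (Nat.log 2 ⌊(n : ℝ) / (400 * l)⌋₊ + 1) := by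
      exact_mod_cast h1
    have h3 : (n : ℝ) / (400 * l) < (⌊(n : ℝ) / (400 * l)⌋₊ : ℝ) + 1 := Nat.lt_floor_add_one _
    have h5 := h3.trans_le h2
    rw [div_lt_iff₀ h4, pow_succ] at h5
    linarith
  · have h1 : (2 : ℕ) ^ Nat.log 2 ⌊(n : ℝ) / (400 * l)⌋₊ ≤ ⌊(n : ℝ) / (400 * l)⌋₊ :=
      Nat.pow_log_le_self 2 hf
    have h2 : ((2 : ℝ)) ^ Nat.log 2 ⌊(n : ℝ) / (400 * l)⌋₊ ≤ (⌊(n : ℝ) / (400 * l)⌋₊ : ℝ) := by
      exact_mod_cast h1
    have h3 : (⌊(n : ℝ) / (400 * l)⌋₊ : ℝ) ≤ (n : ℝ) / (400 * l) := Nat.floor_le (by positivity)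
    have h5 : (n : ℝ) / (400 * l) ≤ n := div_le_self hnr.le (by linarith)
    have h6 := Real.log_le_log (by positivity) (h2.trans (h3.trans h5))
    rw [Real.log_pow, ← hn] at h6
    have h7 := Real.log_two_gt_d9
    have h8 : (0 : ℝ) ≤ (Nat.log 2 ⌊(n : ℝ) / (400 * l)⌋₊ : ℝ) := Nat.cast_nonneg _
    nlinarith

private theorem num_ek_le (K : ℕ) (l : ℝ) (hl : 1000 ≤ l) (hK : (K : ℝ) ≤ 1.4428 * l) :
    (ek 48 K : ℝ) ≤ 25.04 * l ^ 2 * 2 ^ K := by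
  have h : 2 * (ek 48 K : ℝ) = 2 ^ K * (24 * (K : ℝ) ^ 2 + 73 * K) := by
    exact_mod_cast num_ek K
  have hx : (0 : ℝ) < 2 ^ K := by positivity
  have h0 : (0 : ℝ) ≤ K := Nat.cast_nonneg _
  have h1 : (K : ℝ) ^ 2 ≤ (1.4428 * l) ^ 2 := by gcongr
  have h2 : 24 * (K : ℝ) ^ 2 + 73 * K ≤ 2 * (25.04 * l ^ 2) := by nlinarith
  have h3 := mul_le_mul_of_nonneg_left h2 hx.le
  linarith

/-- the main inequality, in logarithmic form -/
private theorem num_log (n K J : ℕ) (l : ℝ) (hl : 1000 ≤ l) (hn : l = Real.log n) (hn0 : 1000 ≤ n)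
    (hx2 : (n : ℝ) < 800 * l * 2 ^ K) (hK : (K : ℝ) ≤ 1.4428 * l) (hJ : 600 * l ^ 3 ≤ (J : ℝ)) :
    n * Real.log 2 + ek 48 K * Real.log (n + 1) + (J * 2 ^ K) * Real.log (20 / 21) <
      Real.log (1 / 2) := by
  have hx : (0 : ℝ) < 2 ^ K := by positivity
  have hnr : (1000 : ℝ) ≤ n := by exact_mod_cast hn0
  have h1 : Real.log (20 / 21 : ℝ) ≤ -(1 / 21) := by
    have := Real.log_le_sub_one_of_pos (show (0 : ℝ) < 20 / 21 by norm_num)
    linarith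
  have h2 : Real.log (1 / 2 : ℝ) = -Real.log 2 := by
    rw [one_div, Real.log_inv]
  have h3 := Real.log_two_lt_d9
  have h3' := Real.log_two_gt_d9
  have h4 : Real.log ((n : ℝ) + 1) ≤ l + 1 := by
    have h5 : Real.log ((n : ℝ) + 1) ≤ Real.log (2 * n) := Real.log_le_log (by linarith) (by linarith)
    rw [Real.log_mul (by norm_num) (by linarith), ← hn] at h5
    linarith
  have h4' : 0 ≤ Real.log ((n : ℝ) + 1) := Real.log_nonneg (by linarith)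
  have h5 := num_ek_le K l hl hK
  have h6 : (ek 48 K : ℝ) * Real.log (n + 1) ≤ 25.1 * l ^ 3 * 2 ^ K := by
    calc (ek 48 K : ℝ) * Real.log (n + 1) ≤ (25.04 * l ^ 2 * 2 ^ K) * (l + 1) := by gcongr
      _ ≤ (25.04 * l ^ 2 * 2 ^ K) * (1.001 * l) := by
          have : l + 1 ≤ 1.001 * l := by linarith
          gcongr
      _ ≤ 25.1 * l ^ 3 * 2 ^ K := by
          have h7 : 0 ≤ l ^ 3 * 2 ^ K := by positivity
          nlinarith
  have h7 : (n : ℝ) * Real.log 2 + Real.log 2 ≤ n := by nlinarith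
  have h8 : (n : ℝ) ≤ l ^ 3 * 2 ^ K := by
    have h9 : 800 * l ≤ l ^ 3 := by nlinarith
    have h10 := mul_le_mul_of_nonneg_right h9 hx.le
    linarith
  have h9 : (J * 2 ^ K : ℝ) * Real.log (20 / 21) ≤ (600 * l ^ 3 * 2 ^ K) * (-(1 / 21)) := by
    have h10 : 600 * l ^ 3 * 2 ^ K ≤ (J * 2 ^ K : ℝ) := mul_le_mul_of_nonneg_right hJ hx.le
    have h11 : (0 : ℝ) ≤ J * 2 ^ K := by positivity
    nlinarith
  have h10 : 0 < l ^ 3 * 2 ^ K := by positivity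
  rw [h2]
  linarith

theorem p_num : S_num := by
  refine ⟨⌈Real.exp 1000⌉₊, ?_⟩
  intro n hn
  have hn1 : Real.exp 1000 ≤ (n : ℝ) := (Nat.le_ceil _).trans (by exact_mod_cast hn)
  have he : (1001 : ℝ) ≤ Real.exp 1000 := by
    have := Real.add_one_le_exp (1000 : ℝ)
    linarith
  have hnr : (1001 : ℝ) ≤ n := he.trans hn1
  have hn0 : 1000 ≤ n := by
    have : 1001 ≤ n := by exact_mod_cast hnr
    omega
  have hl : 1000 ≤ Real.log n := by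
    rw [Real.le_log_iff_exp_le (by linarith)]
    exact hn1
  obtain ⟨K, hK1, hK2, hK3⟩ := num_K n (Real.log n) hl rfl (by omega)
  have hJ : 600 * Real.log n ^ 3 ≤ (⌈600 * Real.log n ^ 3⌉₊ : ℝ) := Nat.le_ceil _
  have hJ2 : (⌈600 * Real.log n ^ 3⌉₊ : ℝ) < 600 * Real.log n ^ 3 + 1 :=
    Nat.ceil_lt_add_one (by positivity)
  refine ⟨⌈600 * Real.log n ^ 3⌉₊, K, hn0, ?_, ?_, ?_, ?_⟩
  · have h := num_log n K ⌈600 * Real.log n ^ 3⌉₊ (Real.log n) hl rfl hn0 hK2 hK3 hJ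
    rw [← Real.log_lt_log_iff (by positivity) (by norm_num)]
    rw [Real.log_mul (by positivity) (by positivity), Real.log_mul (by positivity) (by positivity),
      Real.log_pow, Real.log_pow, Real.log_pow]
    push_cast
    exact h
  · rw [Nat.le_div_iff_mul_le (by norm_num)]
    have h1 : ((dk 48 K : ℝ) + 1) = 2 ^ K * (1 + 48 * K) := by exact_mod_cast num_dk K
    have hx : (0 : ℝ) < 2 ^ K := by positivity
    have h2 : (dk 48 K : ℝ) * 4 ≤ n := by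
      have h3 : (1 + 48 * (K : ℝ)) ≤ 100 * Real.log n := by linarith
      have h4 := mul_le_mul_of_nonneg_left h3 hx.le
      linarith
    exact_mod_cast h2
  · have h1 : (2 : ℝ) ≤ 100 * Real.log n ^ 3 := by
      have : (1 : ℝ) ≤ Real.log n ^ 3 := one_le_pow₀ (by linarith)
      linarith
    linarith
  · have h1 : Real.log n ≤ Real.log n ^ 3 := le_self_pow₀ (by linarith) (by norm_num)
    have h2 : 0 ≤ Real.log n ^ 3 := by positivity
    linarith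

end Pool.Agent.Lib.MP_33d9ce_co.Star
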