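import Pool.Agent.Lib.MP_33d9ce_co.Star.PStm

/-!
# Spanning hypercubes: a star sees at most one good centre per level
-/

set_option autoImplicit false

noncomputable section

open Classical Finset

namespace Pool.Agent.Lib.MP_33d9ce_co.Star

private theorem one_find {Ω : Type} (P P' : Ω → Bool) (c c' : Ω) (h1 : P' c = true)
    (h2 : P c' = true) : ∀ l : List Ω, l.find? P = some c → l.find? P' = some c' → c = c'
  | [], h, _ => by simp at h
  | a :: l, h, h' => by
    rw [List.find?_cons] at h h'
    by_cases ha : P a = true
    · rw [ha] at h
      have hac : a = c := by simpa using h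
      rw [← hac] at h1
      rw [h1] at h'
      have hac' : a = c' := by simpa using h'
      rw [← hac, hac']
    · by_cases ha' : P' a = true
      · rw [ha'] at h'
        have hac' : a = c' := by simpa using h'
        rw [← hac'] at h2
        exact absurd h2 ha
      · rw [Bool.not_eq_true] at ha ha'
        rw [ha] at h
        rw [ha'] at h'
        exact one_find P P' c c' h1 h2 l h h'

private theorem one_mem {ι : Type} [Fintype ι] (r : ℕ) (v v' x : Pt ι)
    (hd : hammingDist v v' ≤ 2) (h : x ∈ ball r v) (h' : x ∉ shell r v) : x ∈ ball r v' := by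
  simp only [ball, shell, Finset.mem_filter, Finset.mem_univ, true_and, not_and, not_lt] at h h' ⊢
  have h1 := h' h
  have h2 := hammingDist_triangle x v v'
  omega

private theorem one_dec {Ω : Type} (B : Finset Ω) (c : Ω)
    (h : @decide (c ∈ B) (Classical.propDecidable _) = true) : c ∈ B :=
  @of_decide_eq_true _ (Classical.propDecidable _) h

private theorem one_dec' {Ω : Type} (B : Finset Ω) (c : Ω) (h : c ∈ B) :
    @decide (c ∈ B) (Classical.propDecidable _) = true :=
  @decide_eq_true _ (Classical.propDecidable _) h

theorem p_one : S_one := by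
  intro ι _ r w w' c c' l hd h1 hs h2 hs'
  unfold fst at h1 h2
  have hc : c ∈ ball r w := by
    have h3 := List.find?_some h1
    exact one_dec _ _ h3
  have hc' : c' ∈ ball r w' := by
    have h3 := List.find?_some h2
    exact one_dec _ _ h3
  refine one_find _ _ c c' ?_ ?_ l h1 h2
  · exact one_dec' _ _ (one_mem r w w' c hd hc hs)
  · refine one_dec' _ _ (one_mem r w' w c' ?_ hc' hs')
    rwa [hammingDist_comm]

end Pool.Agent.Lib.MP_33d9ce_co.Star
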