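import Pool.Agent.Lib.MP_33d9ce_co.Star.PStm

/-!
# out: the random choice
-/

set_option autoImplicit false

noncomputable section

open Classical Finset

namespace Pool.Agent.Lib.MP_33d9ce_co.Star

theorem out_fst_none {Ω : Type} (B : Finset Ω) {L : ℕ} (ω : Fin L → Ω)
    (h : ¬ (fst B (List.ofFn ω)).isSome) (i : Fin L) : ω i ∉ B := by
  intro hi
  apply h
  unfold fst
  rw [List.find?_isSome]
  refine ⟨ω i, ?_, by simpa using hi⟩
  rw [List.mem_ofFn]
  exact ⟨i, rfl⟩

theorem out_one {Y : Type} [Fintype Y] {J : ℕ} (j : Fin J) (A : Finset Y)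
    (hY : 0 < (Fintype.card Y : ℝ)) :
    ((Fintype.piFinset fun j' : Fin J => if j' = j then A else univ).card : ℝ) =
      (A.card : ℝ) / Fintype.card Y * (Fintype.card Y : ℝ) ^ J := by
  rw [Fintype.card_piFinset]
  push_cast
  have h2 : ∀ j' : Fin J, (((if j' = j then A else univ) : Finset Y).card : ℝ) =
      (Fintype.card Y : ℝ) * (if j' = j then (A.card : ℝ) / Fintype.card Y else 1) := by
    intro j'
    by_cases hj : j' = j
    · rw [if_pos hj, if_pos hj, mul_div_cancel₀ _ hY.ne']
    · rw [if_neg hj, if_neg hj, mul_one, card_univ]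
  rw [prod_congr rfl fun j' _ => h2 j', prod_mul_distrib, prod_const, card_univ, Fintype.card_fin,
    prod_ite_eq' univ j, if_pos (mem_univ _), mul_comm]

theorem out_all {Y : Type} [Fintype Y] {J : ℕ} (A : Finset Y) :
    ((Fintype.piFinset fun _ : Fin J => A).card : ℝ) = (A.card : ℝ) ^ J := by
  rw [Fintype.card_piFinset]
  push_cast
  rw [prod_const, card_univ, Fintype.card_fin]

theorem p_out (h1 : S_sep) (h2 : S_wlen) (h3 : S_wsep) (h4 : S_wcard) : S_out := by
  intro ι _ J K hn hcond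
  obtain ⟨r, hr⟩ : ∃ r, r = Fintype.card ι / 4 := ⟨_, rfl⟩
  rw [← hr]
  obtain ⟨N, hN⟩ : ∃ N : ℝ, N = 2 ^ Fintype.card ι := ⟨_, rfl⟩
  have hNcard : (Fintype.card (Pt ι) : ℝ) = N := by
    rw [Fintype.card_fun, Fintype.card_bool, hN]; push_cast; rfl
  have hN1 : 1 ≤ N := by rw [hN]; exact one_le_pow₀ (by norm_num)
  have hN0 : 0 < N := by linarith
  -- the choice of `L`
  obtain ⟨L, hL⟩ : ∃ L : ℕ, N * J * (1 - 1 / N) ^ L < 1 / 2 := by
    have h0 : 0 ≤ 1 - 1 / N := by
      rw [sub_nonneg, div_le_one hN0]; exact hN1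
    have h1' : 1 - 1 / N < 1 := by
      have : 0 < 1 / N := by positivity
      linarith
    have ht := (tendsto_pow_atTop_nhds_zero_of_lt_one h0 h1').const_mul (N * J)
    rw [mul_zero] at ht
    exact (ht.eventually_lt_const (by norm_num)).exists
  refine ⟨L, ?_⟩
  obtain ⟨X, hX⟩ : ∃ X : ℝ, X = N ^ L := ⟨_, rfl⟩
  have hX0 : 0 < X := by rw [hX]; positivity
  have hY : (Fintype.card (Fin L → Pt ι) : ℝ) = X := by
    rw [Fintype.card_fun, Fintype.card_fin]; push_cast; rw [hNcard, hX]
  by_contra hcon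
  push Not at hcon
  -- the two kinds of bad events
  let As : Pt ι → Finset (Fin L → Pt ι) := fun w => Fintype.piFinset fun _ => (ball r w)ᶜ
  let E1 : Pt ι × Fin J → Finset (Fin J → Fin L → Pt ι) := fun p =>
    Fintype.piFinset fun j' => if j' = p.2 then As p.1 else univ
  let Bs : List (Pt ι) → Finset (Fin L → Pt ι) := fun l =>
    {ω' | ∀ x ∈ l, BadAt (ball r x) (shell r x) ω'}
  let E2 : List (Pt ι) → Finset (Fin J → Fin L → Pt ι) := fun l => Fintype.piFinset fun _ => Bs l
  have hcover : (univ : Finset (Fin J → Fin L → Pt ι)) ⊆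
      (univ.biUnion E1) ∪ (univ.biUnion fun z => (W 48 K z).biUnion E2) := by
    intro ω _
    rw [mem_union]
    by_cases hω : ∀ w j, (fst (ball r w) (List.ofFn (ω j))).isSome
    · right
      obtain ⟨z, l, hl, hx⟩ := hcon ω hω
      rw [mem_biUnion]
      refine ⟨z, mem_univ _, mem_biUnion.mpr ⟨l, hl, ?_⟩⟩
      rw [Fintype.mem_piFinset]
      intro j
      rw [mem_filter]
      exact ⟨mem_univ _, fun x hxl => hx x hxl j⟩
    · left
      push Not at hω
      obtain ⟨w, j, hw⟩ := hω
      rw [mem_biUnion]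
      refine ⟨(w, j), mem_univ _, ?_⟩
      rw [Fintype.mem_piFinset]
      intro j'
      by_cases hj : j' = j
      · rw [if_pos hj, hj, Fintype.mem_piFinset]
        intro i
        rw [mem_compl]
        exact out_fst_none _ _ (by simpa using hw) i
      · rw [if_neg hj]; exact mem_univ _
  have hE1 : ∀ p, ((E1 p).card : ℝ) ≤ (1 - 1 / N) ^ L * X ^ J := by
    intro p
    have e1 := out_one p.2 (As p.1) (by rw [hY]; exact hX0)
    rw [hY] at e1
    have e2 : ((E1 p).card : ℝ) = ((As p.1).card : ℝ) / X * X ^ J := e1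
    have e3 : ((As p.1).card : ℝ) = (((ball r p.1)ᶜ).card : ℝ) ^ L := by
      rw [Fintype.card_piFinset, prod_const, card_univ, Fintype.card_fin]
      push_cast
      rfl
    rw [e2, e3]
    have e5 : (((ball r p.1)ᶜ).card : ℝ) ≤ N - 1 := by
      rw [card_compl, Nat.cast_sub (card_le_univ _), hNcard]
      have : 1 ≤ (ball r p.1).card := by
        rw [Nat.one_le_iff_ne_zero, Ne, card_eq_zero]
        intro h
        have h' : p.1 ∈ ball r p.1 := by
          rw [ball, mem_filter]
          exact ⟨mem_univ _, by rw [hammingDist_self]; exact Nat.zero_le _⟩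
        rw [h] at h'
        exact absurd h' (notMem_empty _)
      have : (1 : ℝ) ≤ (ball r p.1).card := by exact_mod_cast this
      linarith
    have e6 : (((ball r p.1)ᶜ).card : ℝ) ^ L / X ≤ (1 - 1 / N) ^ L := by
      rw [hX, ← div_pow]
      refine pow_le_pow_left₀ (by positivity) ?_ L
      rw [div_le_iff₀ hN0, sub_mul, one_mul, one_div_mul_cancel hN0.ne']
      exact e5
    exact mul_le_mul_of_nonneg_right e6 (by positivity)
  have hE2 : ∀ z, ∀ l ∈ W 48 K z, ((E2 l).card : ℝ) ≤ (20 / 21) ^ (J * 2 ^ K) * X ^ J := by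
    intro z l hl
    obtain ⟨hlen, -⟩ := h2 ι 48 K z l hl
    have e1 : ((E2 l).card : ℝ) = ((Bs l).card : ℝ) ^ J := out_all (Bs l)
    have e2 := h1 ι (fun t => l.getD t fun _ => false) (range (2 ^ K)) L hn
      (fun t _ s hs hts => h3 ι 48 K z l hl t s hts (mem_range.mp hs))
    have e3 : (Bs l).card ≤ ({ω : Fin L → Pt ι | ∀ t ∈ range (2 ^ K),
        BadAt (ball (Fintype.card ι / 4) (l.getD t fun _ => false))
          (shell (Fintype.card ι / 4) (l.getD t fun _ => false)) ω} :
        Finset (Fin L → Pt ι)).card := by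
      refine card_le_card fun ω' hω' => ?_
      rw [mem_filter] at hω' ⊢
      refine ⟨mem_univ _, fun t ht => ?_⟩
      rw [mem_range, ← hlen] at ht
      rw [← hr]
      have e4 : l.getD t (fun _ => false) = l[t] := by
        rw [List.getD_eq_getElem?_getD, List.getElem?_eq_getElem ht, Option.getD_some]
      rw [e4]
      exact hω'.2 _ (List.getElem_mem ht)
    have e5 : ((Bs l).card : ℝ) ≤ (20 / 21) ^ 2 ^ K * X := by
      refine (Nat.cast_le.mpr e3).trans (e2.trans (le_of_eq ?_))
      rw [card_range, hX, hN]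
    rw [e1]
    calc ((Bs l).card : ℝ) ^ J ≤ ((20 / 21) ^ 2 ^ K * X) ^ J :=
          pow_le_pow_left₀ (by positivity) e5 J
      _ = (20 / 21) ^ (J * 2 ^ K) * X ^ J := by
          rw [mul_pow, ← pow_mul, mul_comm J]
  have htot : (X ^ J : ℝ) ≤ N * J * (1 - 1 / N) ^ L * X ^ J +
      N * ((Fintype.card ι + 1 : ℝ)) ^ ek 48 K * (20 / 21) ^ (J * 2 ^ K) * X ^ J := by
    have c0 : ((univ : Finset (Fin J → Fin L → Pt ι)).card : ℝ) = X ^ J := by
      rw [card_univ, Fintype.card_fun, Fintype.card_fin]; push_cast; rw [hY]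
    have c1 : ((univ : Finset (Fin J → Fin L → Pt ι)).card : ℝ) ≤
        ((univ.biUnion E1).card : ℝ) + ((univ.biUnion fun z => (W 48 K z).biUnion E2).card : ℝ) := by
      exact_mod_cast (card_le_card hcover).trans (card_union_le _ _)
    have c2 : ((univ.biUnion E1).card : ℝ) ≤ N * J * (1 - 1 / N) ^ L * X ^ J := by
      calc ((univ.biUnion E1).card : ℝ) ≤ ∑ p, ((E1 p).card : ℝ) := by
            exact_mod_cast card_biUnion_le
        _ ≤ ∑ _p : Pt ι × Fin J, (1 - 1 / N) ^ L * X ^ J := sum_le_sum fun p _ => hE1 p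
        _ = N * J * (1 - 1 / N) ^ L * X ^ J := by
            rw [sum_const, card_univ, Fintype.card_prod, Fintype.card_fin, nsmul_eq_mul]
            push_cast
            rw [hNcard]; ring
    have c3 : ((univ.biUnion fun z => (W 48 K z).biUnion E2).card : ℝ) ≤
        N * ((Fintype.card ι + 1 : ℝ)) ^ ek 48 K * (20 / 21) ^ (J * 2 ^ K) * X ^ J := by
      calc ((univ.biUnion fun z => (W 48 K z).biUnion E2).card : ℝ)
          ≤ ∑ z, (((W 48 K z).biUnion E2).card : ℝ) := by
            exact_mod_cast card_biUnion_le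
        _ ≤ ∑ _z : Pt ι, ((Fintype.card ι + 1 : ℝ)) ^ ek 48 K *
              ((20 / 21) ^ (J * 2 ^ K) * X ^ J) := by
            refine sum_le_sum fun z _ => ?_
            calc (((W 48 K z).biUnion E2).card : ℝ) ≤ ∑ l ∈ W 48 K z, ((E2 l).card : ℝ) := by
                  exact_mod_cast card_biUnion_le
              _ ≤ ∑ _l ∈ W 48 K z, ((20 / 21) ^ (J * 2 ^ K) * X ^ J) :=
                  sum_le_sum fun l hl => hE2 z l hl
              _ = ((W 48 K z).card : ℝ) * ((20 / 21) ^ (J * 2 ^ K) * X ^ J) := by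
                  rw [sum_const, nsmul_eq_mul]
              _ ≤ ((Fintype.card ι + 1 : ℝ)) ^ ek 48 K *
                    ((20 / 21) ^ (J * 2 ^ K) * X ^ J) := by
                  refine mul_le_mul_of_nonneg_right ?_ (by positivity)
                  exact_mod_cast h4 ι 48 K z
        _ = N * ((Fintype.card ι + 1 : ℝ)) ^ ek 48 K * (20 / 21) ^ (J * 2 ^ K) * X ^ J := by
            rw [sum_const, card_univ, nsmul_eq_mul, hNcard]; ring
    rw [c0] at c1
    exact c1.trans (add_le_add c2 c3)
  have hXJ : 0 < X ^ J := by positivity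
  rw [← hN] at hcond
  nlinarith

end Pool.Agent.Lib.MP_33d9ce_co.Star
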