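import Pool.Agent.Lib.MP_33d9ce_co.Star.PStm

/-!
# Spanning hypercubes, partition theorem: piece poly
-/

set_option autoImplicit false

noncomputable section

open Classical Finset

namespace Pool.Agent.Lib.MP_33d9ce_co.Star

private def poly_g {ι : Type} (p : Pt ι × Option ι) : Pt ι :=
  match p.2 with
  | none => p.1
  | some i => Function.update p.1 i (!p.1 i)

theorem p_poly : S_poly := by
  intro ι _ w a
  induction a with
  | zero =>
    have h : ball 0 w ⊆ ({w} : Finset (Pt ι)) := by
      intro c hc
      simp only [ball, Finset.mem_filter, Finset.mem_univ, true_and, Nat.le_zero,
        hammingDist_eq_zero] at hc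
      simpa using hc
    simpa using Finset.card_le_card h
  | succ a ih =>
    have h : ball (a + 1) w ⊆ (ball a w ×ˢ (Finset.univ : Finset (Option ι))).image poly_g := by
      intro c hc
      simp only [ball, Finset.mem_filter, Finset.mem_univ, true_and] at hc
      rw [Finset.mem_image]
      by_cases h1 : hammingDist c w ≤ a
      · exact ⟨(c, none), by simp [ball, h1], rfl⟩
      · have h2 : c ≠ w := by
          rintro rfl
          simp at h1
        obtain ⟨i, hi⟩ := Function.ne_iff.1 h2
        refine ⟨(Function.update c i (w i), some i), ?_, ?_⟩
        · simp only [ball, Finset.mem_product, Finset.mem_filter, Finset.mem_univ, true_and,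
            and_true]
          have h3 : hammingDist (Function.update c i (w i)) w < hammingDist c w := by
            unfold hammingDist
            apply Finset.card_lt_card
            rw [Finset.ssubset_iff_of_subset]
            · refine ⟨i, by simpa using hi, by simp⟩
            · intro j hj
              simp only [Finset.mem_filter, Finset.mem_univ, true_and] at hj ⊢
              by_cases hji : j = i
              · subst hji
                exact hi
              · rwa [Function.update_of_ne hji] at hj
          omega
        · show Function.update (Function.update c i (w i)) i
            (!(Function.update c i (w i)) i) = c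
          rw [Function.update_idem, Function.update_self]
          have h4 : (!w i) = c i := by
            cases hc' : c i <;> cases hw' : w i <;> simp_all
          rw [h4, Function.update_eq_self]
    calc (ball (a + 1) w).card ≤ _ := Finset.card_le_card h
      _ ≤ (ball a w ×ˢ (Finset.univ : Finset (Option ι))).card := Finset.card_image_le
      _ = (ball a w).card * (Fintype.card ι + 1) := by
          rw [Finset.card_product, Finset.card_univ, Fintype.card_option]
      _ ≤ (Fintype.card ι + 1) ^ a * (Fintype.card ι + 1) := Nat.mul_le_mul_right _ ih
      _ = (Fintype.card ι + 1) ^ (a + 1) := (pow_succ _ _).symm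

end Pool.Agent.Lib.MP_33d9ce_co.Star
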