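import Pool.Agent.Lib.MP_33d9ce_co.Star.PStm

/-!
# Spanning hypercubes, partition theorem: the separated points (Lemma A)
-/

set_option autoImplicit false

noncomputable section

open Classical Finset

namespace Pool.Agent.Lib.MP_33d9ce_co.Star

private theorem sep_num (m d : ℕ) (hm : 1 ≤ m) (hd : 48 * m ≤ d) :
    12 / 5 * (3 / 2 / √3) ^ d ≤ 1 / 100 * (1 / 4 : ℝ) ^ m := by
  have h3 : (0 : ℝ) < √3 := by positivity
  have hsq : (√3 : ℝ) ^ 2 = 3 := Real.sq_sqrt (by norm_num)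
  have hx0 : (0 : ℝ) ≤ 3 / 2 / √3 := by positivity
  have hx2 : (3 / 2 / √3 : ℝ) ^ 2 = 3 / 4 := by
    rw [div_pow, hsq]
    norm_num
  have hx1 : (3 / 2 / √3 : ℝ) ≤ 1 := by
    rw [div_le_one h3]
    nlinarith
  have h1 : (3 / 2 / √3 : ℝ) ^ d ≤ (3 / 2 / √3) ^ (48 * m) :=
    pow_le_pow_of_le_one hx0 hx1 hd
  have h2 : (3 / 2 / √3 : ℝ) ^ (48 * m) = ((3 / 4 : ℝ) ^ 24) ^ m := by
    rw [show 48 * m = 2 * (24 * m) by ring, pow_mul, hx2, pow_mul]
  have h4 : ((3 / 4 : ℝ) ^ 24) ^ m ≤ (1 / 240 * (1 / 4)) ^ m := by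
    apply pow_le_pow_left₀ (by positivity)
    norm_num
  have h5 : ((1 / 240 : ℝ)) ^ m ≤ 1 / 240 := by
    calc ((1 / 240 : ℝ)) ^ m ≤ (1 / 240) ^ 1 :=
          pow_le_pow_of_le_one (by norm_num) (by norm_num) hm
      _ = 1 / 240 := pow_one _
  have h6 : (1 / 240 * (1 / 4 : ℝ)) ^ m ≤ 1 / 240 * (1 / 4) ^ m := by
    rw [mul_pow]
    exact mul_le_mul_of_nonneg_right h5 (by positivity)
  calc 12 / 5 * (3 / 2 / √3 : ℝ) ^ d ≤ 12 / 5 * (1 / 240 * (1 / 4) ^ m) := by
        apply mul_le_mul_of_nonneg_left _ (by norm_num)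
        exact h1.trans (h2.le.trans (h4.trans h6))
    _ = 1 / 100 * (1 / 4 : ℝ) ^ m := by ring

theorem p_sep (h1 : S_hit) (h2 : S_ineq) (h3 : S_bc) (h4 : S_shell) (h5 : S_inter) : S_sep := by
  intro ι _ w T L hn hT
  have hmain := h1 (Pt ι) ℕ (fun t => ball (Fintype.card ι / 4) (w t))
    (fun t => shell (Fintype.card ι / 4) (w t)) (20 / 21) T L ?_ (by norm_num) (by norm_num) ?_
  · refine hmain.trans (le_of_eq ?_)
    have hc : (Fintype.card (Pt ι) : ℝ) = 2 ^ Fintype.card ι := by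
      rw [Fintype.card_fun, Fintype.card_bool]
      push_cast
      rfl
    rw [hc]
  · intro t c hc
    simp only [shell, ball, mem_filter, mem_univ, true_and] at hc ⊢
    exact hc.1
  · intro T' hT'
    have hb : ∀ t, ((ball (Fintype.card ι / 4) (w t)).card : ℝ) =
        ((∑ i ∈ range (Fintype.card ι / 4 + 1), (Fintype.card ι).choose i : ℕ) : ℝ) := by
      intro t
      rw [(h3 ι (w t)).2]
    have key := h2 (Pt ι) (fun t => ball (Fintype.card ι / 4) (w t))
      (fun t => shell (Fintype.card ι / 4) (w t))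
      ((∑ i ∈ range (Fintype.card ι / 4 + 1), (Fintype.card ι).choose i : ℕ) : ℝ) T'
      (Nat.cast_nonneg _) (fun t _ => hb t) (fun t _ => by rw [← hb t]; exact h4 ι (w t) hn) ?_
    · refine le_trans (le_of_eq ?_) key
      refine sum_congr rfl fun c _ => ?_
      rw [show ((20 / 21 : ℝ))⁻¹ = 21 / 20 by norm_num]
    · intro t ht s hs hts
      have hd := hT t (hT' ht) s (hT' hs) hts
      have hi := h5 ι (w t) (w s)
      rw [hb t] at hi
      have hnum := sep_num (s - t) _ (by omega) hd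
      refine le_trans (le_of_eq ?_) (hi.trans ?_)
      · congr!
      have hbn : (0 : ℝ) ≤
          ((∑ i ∈ range (Fintype.card ι / 4 + 1), (Fintype.card ι).choose i : ℕ) : ℝ) :=
        Nat.cast_nonneg _
      calc 12 / 5 * (3 / 2 / √3) ^ hammingDist (w t) (w s) *
            ((∑ i ∈ range (Fintype.card ι / 4 + 1), (Fintype.card ι).choose i : ℕ) : ℝ)
          ≤ (1 / 100 * (1 / 4 : ℝ) ^ (s - t)) *
            ((∑ i ∈ range (Fintype.card ι / 4 + 1), (Fintype.card ι).choose i : ℕ) : ℝ) :=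
            mul_le_mul_of_nonneg_right hnum hbn
        _ = _ := by ring

end Pool.Agent.Lib.MP_33d9ce_co.Star
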