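import Pool.Agent.Lib.MP_33d9ce_co.Star.PStm

/-!
# MP_33d9ce_co, [SP shell]: the shell of a ball of radius `n / 4`
-/

set_option autoImplicit false

noncomputable section

open Classical Finset

namespace Pool.Agent.Lib.MP_33d9ce_co.Star

private theorem shell_choose (n k : ℕ) (hk : 100 ≤ k) (hn : n ≤ 4 * k + 15) :
    n.choose (k + 2) ≤ 10 * n.choose k := by
  have h1 := Nat.choose_succ_right_eq n k
  have h2 := Nat.choose_succ_right_eq n (k + 1)
  have h3 : n.choose (k + 2) * ((k + 2) * (k + 1)) = n.choose k * ((n - k) * (n - (k + 1))) := by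
    calc n.choose (k + 2) * ((k + 2) * (k + 1))
        = (n.choose (k + 1 + 1) * (k + 1 + 1)) * (k + 1) := by ring
      _ = (n.choose (k + 1) * (k + 1)) * (n - (k + 1)) := by rw [h2]; ring
      _ = _ := by rw [h1]; ring
  have h4 : (n - k) * (n - (k + 1)) ≤ 10 * ((k + 2) * (k + 1)) := by
    have a1 : n - k ≤ 3 * k + 15 := by omega
    have a2 : n - (k + 1) ≤ 3 * k + 14 := by omega
    calc (n - k) * (n - (k + 1)) ≤ (3 * k + 15) * (3 * k + 14) := Nat.mul_le_mul a1 a2
      _ ≤ 10 * ((k + 2) * (k + 1)) := by nlinarith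
  have h5 : n.choose (k + 2) * ((k + 2) * (k + 1)) ≤ (10 * n.choose k) * ((k + 2) * (k + 1)) := by
    rw [h3]
    calc n.choose k * ((n - k) * (n - (k + 1))) ≤ n.choose k * (10 * ((k + 2) * (k + 1))) :=
          Nat.mul_le_mul_left _ h4
      _ = _ := by ring
  exact Nat.le_of_mul_le_mul_right h5 (by positivity)

theorem p_shell (h : S_bc) : S_shell := by
  intro ι _ w hn
  obtain ⟨hs, hb⟩ := h ι w
  obtain ⟨m, hm⟩ : ∃ m, Fintype.card ι / 4 = m + 3 := ⟨Fintype.card ι / 4 - 3, by omega⟩
  have hball := hb (Fintype.card ι / 4)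
  have hshell : (shell (Fintype.card ι / 4) w).card ≤
      (Fintype.card ι).choose (m + 2) + (Fintype.card ι).choose (m + 3) := by
    rw [← hs (m + 2), ← hs (m + 3)]
    refine (Finset.card_le_card ?_).trans (Finset.card_union_le _ _)
    intro c hc
    simp only [shell, Finset.mem_filter, Finset.mem_univ, true_and] at hc
    simp only [Finset.mem_union, Finset.mem_filter, Finset.mem_univ, true_and]
    omega
  have c1 := shell_choose (Fintype.card ι) m (by omega) (by omega)
  have c2 := shell_choose (Fintype.card ι) (m + 1) (by omega) (by omega)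
  rw [hm] at hball hshell ⊢
  rw [Finset.sum_range_succ, Finset.sum_range_succ, Finset.sum_range_succ,
    Finset.sum_range_succ] at hball
  have key : 11 * (shell (m + 3) w).card ≤ 10 * (ball (m + 3) w).card := by
    rw [hball]
    have e : m + 1 + 2 = m + 3 := by ring
    rw [e] at c2
    omega
  have key' : (11 : ℝ) * (shell (m + 3) w).card ≤ 10 * (ball (m + 3) w).card := by
    exact_mod_cast key
  linarith

end Pool.Agent.Lib.MP_33d9ce_co.Star
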