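import Pool.Agent.Lib.MP_33d9ce_co.Star.PStm

set_option autoImplicit false

noncomputable section

open Classical Finset

namespace Pool.Agent.Lib.MP_33d9ce_co.Star

theorem p_wcard (h : S_poly) : S_wcard := by
  intro ι _ lam k
  induction k with
  | zero => intro z; simp [W, ek]
  | succ k ih =>
    intro z
    have hb : ∀ z' ∈ ball (ak lam k + 1) z, (((W lam k z ×ˢ W lam k z').filter
        fun p => ∀ x ∈ p.2, ak lam k ≤ hammingDist z x).image fun p => p.1 ++ p.2).card ≤
        (Fintype.card ι + 1) ^ (2 * ek lam k) := by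
      intro z' _
      calc _ ≤ ((W lam k z ×ˢ W lam k z').filter
            fun p => ∀ x ∈ p.2, ak lam k ≤ hammingDist z x).card := card_image_le
        _ ≤ (W lam k z ×ˢ W lam k z').card := card_filter_le _ _
        _ = (W lam k z).card * (W lam k z').card := card_product _ _
        _ ≤ (Fintype.card ι + 1) ^ ek lam k * (Fintype.card ι + 1) ^ ek lam k :=
            Nat.mul_le_mul (ih z) (ih z')
        _ = (Fintype.card ι + 1) ^ (2 * ek lam k) := by rw [← pow_add, two_mul]
    calc (W lam (k + 1) z).card ≤ (ball (ak lam k + 1) z).card *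
          (Fintype.card ι + 1) ^ (2 * ek lam k) := by
          rw [W]
          exact card_biUnion_le_card_mul _ _ _ hb
      _ ≤ (Fintype.card ι + 1) ^ (ak lam k + 1) * (Fintype.card ι + 1) ^ (2 * ek lam k) :=
          Nat.mul_le_mul_right _ (h ι z _)
      _ = (Fintype.card ι + 1) ^ ek lam (k + 1) := by
          rw [← pow_add, ek, add_comm (2 * ek lam k)]

end Pool.Agent.Lib.MP_33d9ce_co.Star

end
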