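import Pool.Agent.Lib.MP_33d9ce_co.Star.PStm

set_option autoImplicit false

noncomputable section

open Classical Finset

namespace Pool.Agent.Lib.MP_33d9ce_co.Star

private theorem wsep_mem {ι : Type} [Fintype ι] (lam k : ℕ) (z : Pt ι) (l : List (Pt ι))
    (hl : l ∈ W lam (k + 1) z) :
    ∃ z' u v, u ∈ W lam k z ∧ v ∈ W lam k z' ∧ (∀ x ∈ v, ak lam k ≤ hammingDist z x) ∧
      l = u ++ v := by
  rw [W] at hl
  simp only [Finset.mem_biUnion, Finset.mem_image, Finset.mem_filter, Finset.mem_product] at hl
  obtain ⟨z', _, ⟨u, v⟩, ⟨⟨hu, hv⟩, hx⟩, rfl⟩ := hl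
  exact ⟨z', u, v, hu, hv, hx, rfl⟩

private theorem wsep_getD_mem {α : Type} (l : List α) (n : ℕ) (d : α) (h : n < l.length) :
    l.getD n d ∈ l := by
  rw [List.getD_eq_getElem _ _ h]
  exact List.getElem_mem h

theorem p_wsep (h : S_wlen) : S_wsep := by
  intro ι _ lam k
  induction k with
  | zero =>
    intro z l _ t s hts hs
    simp at hs
    omega
  | succ k ih =>
    intro z l hl t s hts hs
    obtain ⟨z', u, v, hu, hv, hx, rfl⟩ := wsep_mem lam k z l hl
    obtain ⟨hul, hux⟩ := h ι lam k z u hu
    obtain ⟨hvl, hvx⟩ := h ι lam k z' v hv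
    have hpow : 2 ^ (k + 1) = 2 ^ k + 2 ^ k := by ring
    by_cases h1 : s < 2 ^ k
    · have ht : t < u.length := by rw [hul]; omega
      have hs' : s < u.length := by rw [hul]; omega
      rw [List.getD_append _ _ _ _ ht, List.getD_append _ _ _ _ hs']
      exact ih z u hu t s hts h1
    · by_cases h2 : t < 2 ^ k
      · have ht : t < u.length := by rw [hul]; omega
        have hs' : u.length ≤ s := by rw [hul]; omega
        rw [List.getD_append _ _ _ _ ht, List.getD_append_right _ _ _ _ hs']
        have hm1 := hux _ (wsep_getD_mem u t (fun _ => false) ht)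
        have hs'' : s - u.length < v.length := by rw [hul, hvl]; omega
        have hm2 := hx _ (wsep_getD_mem v (s - u.length) (fun _ => false) hs'')
        have htri := hammingDist_triangle z (u.getD t fun _ => false) (v.getD (s - u.length) fun _ => false)
        unfold ak at hm2
        have hle : lam * (s - t) ≤ lam * 2 ^ (k + 1) := Nat.mul_le_mul_left _ (by omega)
        omega
      · have ht : u.length ≤ t := by rw [hul]; omega
        have hs' : u.length ≤ s := by rw [hul]; omega
        rw [List.getD_append_right _ _ _ _ ht, List.getD_append_right _ _ _ _ hs']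
        have := ih z' v hv (t - u.length) (s - u.length) (by rw [hul]; omega) (by rw [hul]; omega)
        have he : s - u.length - (t - u.length) = s - t := by rw [hul]; omega
        rw [he] at this
        exact this

end Pool.Agent.Lib.MP_33d9ce_co.Star
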