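import Pool.Agent.Lib.MP_33d9ce_co.Star.Inst
import Pool.Agent.Lib.MP_33d9ce_co.Star.Partition
import Pool.Agent.Lib.MP_33d9ce_co.Star.P_bc
import Pool.Agent.Lib.MP_33d9ce_co.Star.P_hit
import Pool.Agent.Lib.MP_33d9ce_co.Star.P_ineq
import Pool.Agent.Lib.MP_33d9ce_co.Star.P_inter
import Pool.Agent.Lib.MP_33d9ce_co.Star.P_mom
import Pool.Agent.Lib.MP_33d9ce_co.Star.P_num
import Pool.Agent.Lib.MP_33d9ce_co.Star.P_one
import Pool.Agent.Lib.MP_33d9ce_co.Star.P_out
import Pool.Agent.Lib.MP_33d9ce_co.Star.P_pair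
import Pool.Agent.Lib.MP_33d9ce_co.Star.P_part
import Pool.Agent.Lib.MP_33d9ce_co.Star.P_poly
import Pool.Agent.Lib.MP_33d9ce_co.Star.P_sep
import Pool.Agent.Lib.MP_33d9ce_co.Star.P_shell
import Pool.Agent.Lib.MP_33d9ce_co.Star.P_wcard
import Pool.Agent.Lib.MP_33d9ce_co.Star.P_wex
import Pool.Agent.Lib.MP_33d9ce_co.Star.P_wlen
import Pool.Agent.Lib.MP_33d9ce_co.Star.P_wsep

/-!
# Spanning hypercubes: the partition theorem (Theorem P)
-/

set_option autoImplicit false

noncomputable section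

open Classical Finset

namespace Pool.Agent.Lib.MP_33d9ce_co.Star

theorem a_sep : S_sep := p_sep p_hit (p_ineq p_pair) p_bc (p_shell p_bc) (p_inter p_bc p_mom)

theorem a_out : S_out := p_out a_sep p_wlen (p_wsep p_wlen) (p_wcard p_poly)

theorem a_part : S_part := p_part a_out p_wex p_one

/-- **Theorem P.**  For all large `n` the cube has a partition into sets contained in balls of radius `n / 4` such
that the neighbours of every vertex meet at most `700 (log n) ^ 3` sets. -/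
theorem exists_partition : ∃ (C : ℝ) (n0 : ℕ), ∀ n ≥ n0, ∃ k : ℕ, (k : ℝ) ≤ C * Real.log n ^ 3 ∧
    Real.log n ≤ k ∧ HasPartition n k := by
  obtain ⟨n0, h⟩ := p_num
  refine ⟨700, n0, fun n hn => ?_⟩
  obtain ⟨J, K, h1, h2, h3, h4, h5⟩ := h n hn
  refine ⟨J + 1, by push_cast; exact h4, by push_cast; linarith, ?_⟩
  have hc : Fintype.card (Fin n) = n := Fintype.card_fin n
  obtain ⟨lab, hl1, hl2⟩ := a_part (Fin n) J K (by rw [hc]; exact h1) (by rw [hc]; exact h2)
    (by rw [hc]; exact h3)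
  refine ⟨_, lab, fun x => ?_, fun y => ?_⟩
  · exact card_star_inst (fun _ h => h) (hl1 x)
  · obtain ⟨z, hz⟩ := hl2 y
    refine ⟨z, fun y' hy' => ?_⟩
    have := hz y' hy'
    rwa [hc] at this

end Pool.Agent.Lib.MP_33d9ce_co.Star
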