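import Mathlib

/-!
# Spanning hypercubes: partitions of the cube with small star multiplicity, definitions

Points of the cube are the functions `ι → Bool`.  One level of the construction is a sequence of centres
`ω : Fin L → Pt ι`; the point `w` is decided by the first centre in the ball of radius `r` around `w`; it is
bad if this centre lies in the shell (distance `r - 1` or `r`) and good otherwise.
-/

set_option autoImplicit false

noncomputable section

open Classical Finset

namespace Pool.Agent.Lib.MP_33d9ce_co.Star

/-- points of the cube -/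
abbrev Pt (ι : Type) : Type := ι → Bool

/-- the first element of the list `l` which lies in `B` -/
def fst {Ω : Type} (B : Finset Ω) (l : List Ω) : Option Ω :=
  l.find? fun c => @decide (c ∈ B) (Classical.propDecidable _)

/-- the first term of `ω` in `B` exists and lies in `S` -/
def BadAt {Ω : Type} (B S : Finset Ω) {L : ℕ} (ω : Fin L → Ω) : Prop :=
  ∃ c, fst B (List.ofFn ω) = some c ∧ c ∈ S

section

variable {ι : Type} [Fintype ι]

/-- Hamming balls -/
def ball (r : ℕ) (w : Pt ι) : Finset (Pt ι) := {c | hammingDist c w ≤ r}

/-- the shell of the ball of radius `r`: distances `r - 1` and `r` -/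
def shell (r : ℕ) (w : Pt ι) : Finset (Pt ι) := {c | hammingDist c w ≤ r ∧ r < hammingDist c w + 2}

/-- the radius of the dyadic sequences of length `2 ^ k` -/
def dk (lam : ℕ) : ℕ → ℕ
  | 0 => 0
  | k + 1 => 2 * dk lam k + lam * 2 ^ (k + 1) + 1

/-- the radius of the ball whose last exit is used at the step `k` -/
def ak (lam k : ℕ) : ℕ := dk lam k + lam * 2 ^ (k + 1)

/-- the number of dyadic sequences of length `2 ^ k` from `z` is at most `(n + 1) ^ ek lam k` -/
def ek (lam : ℕ) : ℕ → ℕ
  | 0 => 0
  | k + 1 => 2 * ek lam k + (ak lam k + 1)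

/-- the dyadic sequences of length `2 ^ k` from `z` -/
def W (lam : ℕ) : ℕ → Pt ι → Finset (List (Pt ι))
  | 0, z => {[z]}
  | k + 1, z => (ball (ak lam k + 1) z).biUnion fun z' =>
      ((W lam k z ×ˢ W lam k z').filter fun p => ∀ x ∈ p.2, ak lam k ≤ hammingDist z x).image
        fun p => p.1 ++ p.2

/-- `y` can be reached from `z` by steps of length at most 2 in `A` (both ends in `A`) -/
def Conn (A : Set (Pt ι)) (z y : Pt ι) : Prop :=
  z ∈ A ∧ Relation.ReflTransGen (fun x x' => x ∈ A ∧ x' ∈ A ∧ hammingDist x x' ≤ 2) z y

/-- the points which are bad at all levels -/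
def rest (r : ℕ) {J L : ℕ} (ω : Fin J → Fin L → Pt ι) : Set (Pt ι) :=
  {y | ∀ j, BadAt (ball r y) (shell r y) (ω j)}

end

end Pool.Agent.Lib.MP_33d9ce_co.Star
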