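import Pool.Agent.Lib.MP_33d9ce_co.Star.QStm

/-!
# Spanning hypercubes: powers of two in an interval
-/

set_option autoImplicit false

noncomputable section

open Classical Finset

namespace Pool.Agent.Lib.MP_33d9ce_co.Star

theorem p_logs : S_logs := by
  intro kap G k Δ hkap hΔ
  by_cases hne : ((range k).filter fun j => 2 * Δ < 2 ^ j * G ∧ 2 ^ j * G < 4 * kap * Δ).Nonempty
  · obtain ⟨j0, hj0⟩ : ∃ j0, j0 = ((range k).filter fun j =>
      2 * Δ < 2 ^ j * G ∧ 2 ^ j * G < 4 * kap * Δ).min' hne := ⟨_, rfl⟩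
    have hj0m := Finset.min'_mem _ hne
    rw [← hj0, mem_filter] at hj0m
    obtain ⟨-, h1, -⟩ := hj0m
    have hsub : ((range k).filter fun j => 2 * Δ < 2 ^ j * G ∧ 2 ^ j * G < 4 * kap * Δ) ⊆
        Finset.Icc j0 (j0 + (Nat.log 2 kap + 1)) := by
      intro j hj
      have hle : j0 ≤ j := by rw [hj0]; exact Finset.min'_le _ _ hj
      rw [mem_filter] at hj
      obtain ⟨-, -, h2⟩ := hj
      rw [Finset.mem_Icc]
      refine ⟨hle, ?_⟩
      obtain ⟨e, rfl⟩ := Nat.exists_eq_add_of_le hle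
      have h3 : 2 ^ e * (2 * Δ) < 4 * kap * Δ := by
        calc 2 ^ e * (2 * Δ) ≤ 2 ^ e * (2 ^ j0 * G) := Nat.mul_le_mul_left _ h1.le
          _ = 2 ^ (j0 + e) * G := by rw [pow_add]; ring
          _ < 4 * kap * Δ := h2
      have h4 : 2 ^ e < kap * 2 := by
        by_contra hcon
        push Not at hcon
        have : kap * 2 * (2 * Δ) ≤ 2 ^ e * (2 * Δ) := Nat.mul_le_mul_right _ hcon
        have h5 : kap * 2 * (2 * Δ) = 4 * kap * Δ := by ring
        omega
      have h6 : e ≤ Nat.log 2 (kap * 2) := Nat.le_log_of_pow_le (by norm_num) h4.le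
      rw [Nat.log_mul_base (by norm_num) (by omega)] at h6
      omega
    calc _ ≤ (Finset.Icc j0 (j0 + (Nat.log 2 kap + 1))).card := card_le_card hsub
      _ = Nat.log 2 kap + 2 := by rw [Nat.card_Icc]; omega
  · rw [not_nonempty_iff_eq_empty] at hne
    rw [hne, card_empty]
    exact Nat.zero_le _

end Pool.Agent.Lib.MP_33d9ce_co.Star
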