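import Pool.Agent.Lib.MP_33d9ce_co.Star.PStm

/-!
# Spanning hypercubes: piece pair (a sum over pairs)
-/

set_option autoImplicit false

noncomputable section

open Classical Finset

namespace Pool.Agent.Lib.MP_33d9ce_co.Star

private lemma pair_geom (N : ℕ) :
    ∑ j ∈ range N, (((1 / 4 : ℝ)) ^ (j + 1) + 2 * (1 / 2 : ℝ) ^ (j + 1)) =
      7 / 3 - 1 / 3 * (1 / 4 : ℝ) ^ N - 2 * (1 / 2 : ℝ) ^ N := by
  induction N with
  | zero => norm_num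
  | succ N ih =>
    rw [Finset.sum_range_succ, ih]
    ring

private lemma pair_term (j : ℕ) :
    ((1 / 4 : ℝ)) ^ j * (1 + (21 / 20 : ℝ) ^ (j + 1)) ≤ (1 / 4 : ℝ) ^ j + 2 * (1 / 2 : ℝ) ^ j := by
  have h1 : (21 / 20 : ℝ) ^ (j + 1) ≤ 2 ^ (j + 1) :=
    pow_le_pow_left₀ (by norm_num) (by norm_num) _
  have h2 : (0 : ℝ) < (1 / 4 : ℝ) ^ j := by positivity
  have h3 : (1 / 4 : ℝ) ^ j * 2 ^ j = (1 / 2 : ℝ) ^ j := by
    rw [← mul_pow]
    norm_num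
  calc ((1 / 4 : ℝ)) ^ j * (1 + (21 / 20 : ℝ) ^ (j + 1))
      ≤ (1 / 4 : ℝ) ^ j * (1 + 2 ^ (j + 1)) := by
        apply mul_le_mul_of_nonneg_left _ h2.le
        linarith
    _ = (1 / 4 : ℝ) ^ j + 2 * ((1 / 4 : ℝ) ^ j * 2 ^ j) := by ring
    _ = (1 / 4 : ℝ) ^ j + 2 * (1 / 2 : ℝ) ^ j := by rw [h3]

private lemma pair_inner (T : Finset ℕ) (t : ℕ) :
    ∑ s ∈ T.filter (t < ·), ((1 / 4 : ℝ)) ^ (s - t) * (1 + (21 / 20 : ℝ) ^ (s - t + 1)) ≤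
      7 / 3 := by
  have h1 : ∑ s ∈ T.filter (t < ·), ((1 / 4 : ℝ)) ^ (s - t) * (1 + (21 / 20 : ℝ) ^ (s - t + 1)) ≤
      ∑ s ∈ T.filter (t < ·), ((1 / 4 : ℝ) ^ (s - t) + 2 * (1 / 2 : ℝ) ^ (s - t)) :=
    Finset.sum_le_sum fun s _ => pair_term (s - t)
  have h2 : ∑ s ∈ T.filter (t < ·), ((1 / 4 : ℝ) ^ (s - t) + 2 * (1 / 2 : ℝ) ^ (s - t)) =
      ∑ j ∈ (T.filter (t < ·)).image (fun s => s - t - 1),
        (((1 / 4 : ℝ)) ^ (j + 1) + 2 * (1 / 2 : ℝ) ^ (j + 1)) := by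
    rw [Finset.sum_image]
    · apply Finset.sum_congr rfl
      intro s hs
      rw [Finset.mem_filter] at hs
      have h3 : s - t - 1 + 1 = s - t := by omega
      rw [h3]
    · intro s hs s' hs' h
      rw [Finset.mem_coe, Finset.mem_filter] at hs hs'
      simp only at h
      omega
  have h3 : (T.filter (t < ·)).image (fun s => s - t - 1) ⊆ range (T.sup id + 1) := by
    intro j hj
    rw [Finset.mem_image] at hj
    obtain ⟨s, hs, rfl⟩ := hj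
    rw [Finset.mem_filter] at hs
    have h4 : s ≤ T.sup id := Finset.le_sup (f := id) hs.1
    rw [Finset.mem_range]
    omega
  have h5 : ∑ j ∈ (T.filter (t < ·)).image (fun s => s - t - 1),
        (((1 / 4 : ℝ)) ^ (j + 1) + 2 * (1 / 2 : ℝ) ^ (j + 1)) ≤
      ∑ j ∈ range (T.sup id + 1), (((1 / 4 : ℝ)) ^ (j + 1) + 2 * (1 / 2 : ℝ) ^ (j + 1)) := by
    apply Finset.sum_le_sum_of_subset_of_nonneg h3
    intro j _ _
    positivity
  have h6 : (0 : ℝ) < (1 / 4 : ℝ) ^ (T.sup id + 1) := by positivity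
  have h7 : (0 : ℝ) < (1 / 2 : ℝ) ^ (T.sup id + 1) := by positivity
  rw [pair_geom] at h5
  linarith

theorem p_pair : S_pair := by
  intro T
  calc ∑ t ∈ T, ∑ s ∈ T.filter (t < ·),
        ((1 / 4 : ℝ)) ^ (s - t) * (1 + (21 / 20 : ℝ) ^ (s - t + 1))
      ≤ ∑ _t ∈ T, (7 / 3 : ℝ) := Finset.sum_le_sum fun t _ => pair_inner T t
    _ = 7 / 3 * T.card := by rw [Finset.sum_const, nsmul_eq_mul]; ring

end Pool.Agent.Lib.MP_33d9ce_co.Star
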