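import Pool.Agent.Lib.MP_33d9ce_co.Star.QStm

/-!
# Spanning hypercubes, improved partition theorem: size of the radii
-/

set_option autoImplicit false

noncomputable section

open Classical Finset

namespace Pool.Agent.Lib.MP_33d9ce_co.Star

private theorem qbd_growth (kap G : ℕ) (hk : 1 ≤ kap) (K : ℕ) :
    ((dq kap G K : ℝ) + (G + 1)) ≤ (2 + 1 / (kap : ℝ)) ^ K * (G + 1) := by
  have hkr : (0 : ℝ) < kap := by exact_mod_cast hk
  induction K with
  | zero => simp [dq]
  | succ K ih =>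
    have h1 : (dq kap G (K + 1) : ℝ) = 2 * dq kap G K + ((dq kap G K / kap : ℕ) : ℝ) + G + 1 := by
      simp only [dq]
      push_cast
      ring
    have h2 : ((dq kap G K / kap : ℕ) : ℝ) ≤ (dq kap G K : ℝ) / kap := Nat.cast_div_le
    have h3 : (dq kap G K : ℝ) / kap ≤ ((dq kap G K : ℝ) + (G + 1)) * (1 / kap) := by
      rw [mul_one_div]
      apply div_le_div_of_nonneg_right _ hkr.le
      have : (0 : ℝ) ≤ G := Nat.cast_nonneg _
      linarith
    calc (dq kap G (K + 1) : ℝ) + (G + 1)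
        ≤ (2 + 1 / (kap : ℝ)) * ((dq kap G K : ℝ) + (G + 1)) := by
          rw [h1]
          linarith
      _ ≤ (2 + 1 / (kap : ℝ)) * ((2 + 1 / (kap : ℝ)) ^ K * (G + 1)) := by
          apply mul_le_mul_of_nonneg_left ih
          positivity
      _ = (2 + 1 / (kap : ℝ)) ^ (K + 1) * (G + 1) := by ring

private theorem qbd_pow (kap K : ℕ) (hk : 1 ≤ kap) (hK : K ≤ kap) :
    (2 + 1 / (kap : ℝ)) ^ K ≤ 2 ^ (K + 1) := by
  have hkr : (0 : ℝ) < kap := by exact_mod_cast hk
  have h1 : (2 + 1 / (kap : ℝ)) = 2 * (1 / (2 * kap) + 1) := by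
    field_simp
    ring
  have h2 : (1 / (2 * (kap : ℝ)) + 1) ^ K ≤ 2 := by
    have h3 : (1 / (2 * (kap : ℝ)) + 1) ≤ Real.exp (1 / (2 * kap)) := Real.add_one_le_exp _
    have h4 : (1 / (2 * (kap : ℝ)) + 1) ^ K ≤ Real.exp (1 / (2 * kap)) ^ K :=
      pow_le_pow_left₀ (by positivity) h3 _
    have h5 : Real.exp (1 / (2 * (kap : ℝ))) ^ K = Real.exp (K * (1 / (2 * kap))) := by
      rw [Real.exp_nat_mul]
    have h6 : (K : ℝ) * (1 / (2 * kap)) ≤ 1 / 2 := by
      have : (K : ℝ) ≤ kap := by exact_mod_cast hK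
      rw [mul_one_div, div_le_div_iff₀ (by positivity) (by norm_num)]
      linarith
    have h7 : Real.exp ((K : ℝ) * (1 / (2 * kap))) ≤ Real.exp (1 / 2) := Real.exp_le_exp.mpr h6
    have h8 : Real.exp (1 / 2) ≤ 2 := by
      have h9 : Real.exp (1 / 2) ^ 2 = Real.exp 1 := by
        rw [← Real.exp_nat_mul]
        norm_num
      have h10 := Real.exp_one_lt_d9
      have h11 := Real.exp_pos (1 / 2 : ℝ)
      nlinarith
    linarith
  rw [h1, mul_pow, pow_succ]
  apply mul_le_mul_of_nonneg_left h2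
  positivity

private theorem qbd_d (kap G K : ℕ) (hk : 1 ≤ kap) (hK : K ≤ kap) :
    dq kap G K + (G + 1) ≤ 2 ^ (K + 1) * (G + 1) := by
  have h1 := qbd_growth kap G hk K
  have h2 := qbd_pow kap K hk hK
  have h3 : ((dq kap G K : ℝ) + (G + 1)) ≤ 2 ^ (K + 1) * (G + 1) := by
    refine h1.trans (mul_le_mul_of_nonneg_right h2 (by positivity))
  exact_mod_cast h3

private theorem qbd_a (kap G K : ℕ) (hk : 1 ≤ kap) (hK : K ≤ kap) :
    aq kap G K + 1 ≤ 2 ^ (K + 2) * (G + 1) := by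
  have h1 := qbd_d kap G K hk hK
  have h2 : dq kap G K / kap ≤ dq kap G K := Nat.div_le_self _ _
  have h3 : 2 ^ (K + 2) * (G + 1) = 2 * (2 ^ (K + 1) * (G + 1)) := by ring
  unfold aq
  rw [h3]
  omega

theorem p_qbd : S_qbd := by
  intro kap G K hk hK
  refine ⟨?_, ?_⟩
  · have := qbd_d kap G K hk hK
    omega
  · induction K with
    | zero => simp [enq]
    | succ K ih =>
      have h1 := ih (by omega)
      have h2 := qbd_a kap G K hk (by omega)
      calc enq kap G (K + 1) = 2 * enq kap G K + (aq kap G K + 1) := rfl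
        _ ≤ 2 * (4 * K * 2 ^ K * (G + 1)) + 2 ^ (K + 2) * (G + 1) := by omega
        _ ≤ 4 * (K + 1) * 2 ^ (K + 1) * (G + 1) := by
          have h3 : 2 * (4 * K * 2 ^ K * (G + 1)) + 2 ^ (K + 2) * (G + 1) +
              2 ^ (K + 2) * (G + 1) = 4 * (K + 1) * 2 ^ (K + 1) * (G + 1) := by ring
          omega

end Pool.Agent.Lib.MP_33d9ce_co.Star
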