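import Pool.Agent.Lib.MP_33d9ce_co.Star.QStm

/-!
# Spanning hypercubes: piece qineq (the inequality of Lemma A for linear growth)
-/

set_option autoImplicit false

noncomputable section

open Classical Finset

namespace Pool.Agent.Lib.MP_33d9ce_co.Star

/-- sums of indicators -/
private lemma qineq_ind {Ω : Type} [Fintype Ω] (X : Finset Ω) (x : ℝ) :
    ∑ c : Ω, (if c ∈ X then x else 0) = X.card * x := by
  rw [← Finset.sum_filter, Finset.sum_const, nsmul_eq_mul]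
  congr 2
  congr 1
  ext c
  simp

/-- exchange of sums over pairs -/
private lemma qineq_exch {Ω : Type} [Fintype Ω] (B : ℕ → Finset Ω) (T : Finset ℕ)
    (f : ℕ → ℕ → ℝ) :
    ∑ c : Ω, ∑ t ∈ T, ∑ s ∈ T.erase t, (if c ∈ B t ∩ B s then f t s else 0) =
      ∑ t ∈ T, ∑ s ∈ T.erase t, ((B t ∩ B s).card : ℝ) * f t s := by
  rw [Finset.sum_comm]
  refine Finset.sum_congr rfl fun t _ => ?_
  rw [Finset.sum_comm]
  exact Finset.sum_congr rfl fun s _ => qineq_ind _ _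

/-- exchange of sums, single -/
private lemma qineq_exch1 {Ω : Type} [Fintype Ω] (S : ℕ → Finset Ω) (T : Finset ℕ) :
    ∑ c : Ω, ∑ t ∈ T, (if c ∈ S t then (1 : ℝ) else 0) = ∑ t ∈ T, ((S t).card : ℝ) := by
  rw [Finset.sum_comm]
  refine Finset.sum_congr rfl fun t _ => ?_
  rw [qineq_ind, mul_one]

/-- a pair is one term of the sum over pairs -/
private lemma qineq_single {Ω : Type} [Fintype Ω] (B : ℕ → Finset Ω) (T : Finset ℕ)
    (f : ℕ → ℕ → ℝ) (hf : ∀ t s, 0 ≤ f t s) (c : Ω) (t s : ℕ) (ht : t ∈ T) (hs : s ∈ T)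
    (hts : s ≠ t) (hc : c ∈ B t) (hc' : c ∈ B s) :
    f t s ≤ ∑ t ∈ T, ∑ s ∈ T.erase t, (if c ∈ B t ∩ B s then f t s else 0) := by
  have h0 : ∀ t s, 0 ≤ (if c ∈ B t ∩ B s then f t s else 0) := by
    intro t s
    split_ifs
    · exact hf t s
    · exact le_refl _
  have h1 : (if c ∈ B t ∩ B s then f t s else 0) ≤
      ∑ s ∈ T.erase t, (if c ∈ B t ∩ B s then f t s else 0) :=
    Finset.single_le_sum (f := fun s => (if c ∈ B t ∩ B s then f t s else 0))
      (fun s _ => h0 t s) (Finset.mem_erase.2 ⟨hts, hs⟩)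
  have h2 : ∑ s ∈ T.erase t, (if c ∈ B t ∩ B s then f t s else 0) ≤
      ∑ t ∈ T, ∑ s ∈ T.erase t, (if c ∈ B t ∩ B s then f t s else 0) :=
    Finset.single_le_sum
      (f := fun t => ∑ s ∈ T.erase t, (if c ∈ B t ∩ B s then f t s else 0))
      (fun t _ => Finset.sum_nonneg fun s _ => h0 t s) ht
  rw [if_pos (Finset.mem_inter.2 ⟨hc, hc'⟩)] at h1
  exact h1.trans h2

/-- pointwise upper bound -/
private lemma qineq_up {Ω : Type} [Fintype Ω] (B S : ℕ → Finset Ω) (δ : ℕ → ℕ → ℕ) (T : Finset ℕ)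
    (hδ : ∀ t ∈ T, δ t t = 0)
    (hgr : ∀ t ∈ T, ∀ Δ : ℕ, (T.filter fun s => δ t s ≤ Δ).card ≤ 1 ∨
      100 * (T.filter fun s => δ t s ≤ Δ).card ≤ Δ) (c : Ω) :
    (if (∃ t ∈ T, c ∈ B t) ∧ (∀ t ∈ T, c ∈ B t → c ∈ S t) then
      ((21 / 20 : ℝ)) ^ (T.filter fun t => c ∈ B t).card else 0) ≤
    21 / 20 * (∑ t ∈ T, (if c ∈ S t then (1 : ℝ) else 0)) +
      ∑ t ∈ T, ∑ s ∈ T.erase t,
        (if c ∈ B t ∩ B s then (36 / 35 : ℝ) ^ (δ t s) else 0) := by
  have hA0 : 0 ≤ ∑ t ∈ T, (if c ∈ S t then (1 : ℝ) else 0) :=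
    Finset.sum_nonneg fun t _ => by split_ifs <;> norm_num
  have hQ0 : 0 ≤ ∑ t ∈ T, ∑ s ∈ T.erase t,
        (if c ∈ B t ∩ B s then (36 / 35 : ℝ) ^ (δ t s) else 0) :=
    Finset.sum_nonneg fun t _ => Finset.sum_nonneg fun s _ => by
      split_ifs
      · positivity
      · exact le_refl _
  split_ifs with h
  · obtain ⟨⟨t, ht, hct⟩, hS⟩ := h
    set I := T.filter fun t => c ∈ B t with hI
    have htI : t ∈ I := Finset.mem_filter.2 ⟨ht, hct⟩
    have hne : I.Nonempty := ⟨t, htI⟩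
    rcases Nat.lt_or_ge 1 I.card with hlt | hle
    · obtain ⟨s, hsI, hmax⟩ := Finset.exists_max_image I (fun s => δ t s) hne
      have hs := Finset.mem_filter.1 hsI
      have hsub : I ⊆ T.filter fun s' => δ t s' ≤ δ t s := by
        intro x hx
        exact Finset.mem_filter.2 ⟨(Finset.mem_filter.1 hx).1, hmax x hx⟩
      have hcard := Finset.card_le_card hsub
      have h100 : 100 * I.card ≤ δ t s := by
        rcases hgr t ht (δ t s) with h1 | h1
        · omega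
        · omega
      have hst : s ≠ t := by
        intro he
        rw [he, hδ t ht] at h100
        omega
      have h1 : (21 / 20 : ℝ) ^ I.card ≤ (36 / 35 : ℝ) ^ (δ t s) := by
        calc (21 / 20 : ℝ) ^ I.card ≤ ((36 / 35 : ℝ) ^ 2) ^ I.card :=
              pow_le_pow_left₀ (by norm_num) (by norm_num) _
          _ = (36 / 35 : ℝ) ^ (2 * I.card) := by rw [pow_mul]
          _ ≤ (36 / 35 : ℝ) ^ (δ t s) := pow_le_pow_right₀ (by norm_num) (by omega)
      have h2 := qineq_single B T (fun t s => (36 / 35 : ℝ) ^ (δ t s))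
        (fun t s => by positivity) c t s ht hs.1 hst hct hs.2
      linarith
    · have h2 : (1 : ℝ) ≤ ∑ t ∈ T, (if c ∈ S t then (1 : ℝ) else 0) := by
        have h3 : (if c ∈ S t then (1 : ℝ) else 0) ≤
            ∑ t ∈ T, (if c ∈ S t then (1 : ℝ) else 0) :=
          Finset.single_le_sum (f := fun t => (if c ∈ S t then (1 : ℝ) else 0))
            (fun t _ => by split_ifs <;> norm_num) ht
        rwa [if_pos (hS t ht hct)] at h3
      have h3 : (21 / 20 : ℝ) ^ I.card ≤ (21 / 20 : ℝ) ^ 1 :=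
        pow_le_pow_right₀ (by norm_num) hle
      rw [pow_one] at h3
      linarith
  · linarith

/-- pointwise lower bound -/
private lemma qineq_low {Ω : Type} [Fintype Ω] (B : ℕ → Finset Ω) (T : Finset ℕ) (c : Ω) :
    (∑ t ∈ T, (if c ∈ B t then (1 : ℝ) else 0)) -
      ∑ t ∈ T, ∑ s ∈ T.erase t, (if c ∈ B t ∩ B s then (1 : ℝ) else 0) ≤
    (if c ∈ T.biUnion B then (1 : ℝ) else 0) := by
  have h0 : ∀ t s, 0 ≤ (if c ∈ B t ∩ B s then (1 : ℝ) else 0) := by
    intro t s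
    split_ifs <;> norm_num
  by_cases h : c ∈ T.biUnion B
  · rw [if_pos h]
    rw [Finset.mem_biUnion] at h
    obtain ⟨t, ht, hct⟩ := h
    set I := T.filter fun t => c ∈ B t with hI
    have htI : t ∈ I := Finset.mem_filter.2 ⟨ht, hct⟩
    have h1 : (∑ t ∈ T, (if c ∈ B t then (1 : ℝ) else 0)) = I.card := by
      rw [Finset.sum_boole]
    have h2 : (∑ s ∈ T.erase t, (if c ∈ B t ∩ B s then (1 : ℝ) else 0)) ≤
        ∑ t ∈ T, ∑ s ∈ T.erase t, (if c ∈ B t ∩ B s then (1 : ℝ) else 0) :=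
      Finset.single_le_sum
        (f := fun t => ∑ s ∈ T.erase t, (if c ∈ B t ∩ B s then (1 : ℝ) else 0))
        (fun t _ => Finset.sum_nonneg fun s _ => h0 t s) ht
    have h3 : ((I.erase t).card : ℝ) ≤
        ∑ s ∈ T.erase t, (if c ∈ B t ∩ B s then (1 : ℝ) else 0) := by
      rw [Finset.sum_boole]
      exact_mod_cast Finset.card_le_card (by
        intro s hs
        rw [Finset.mem_erase] at hs
        have hs' := Finset.mem_filter.1 hs.2
        exact Finset.mem_filter.2 ⟨Finset.mem_erase.2 ⟨hs.1, hs'.1⟩,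
          Finset.mem_inter.2 ⟨hct, hs'.2⟩⟩)
    have h4 : ((I.erase t).card : ℝ) = I.card - 1 := by
      rw [Finset.card_erase_of_mem htI]
      have h5 : 1 ≤ I.card := Finset.card_pos.2 ⟨t, htI⟩
      push_cast [Nat.cast_sub h5]
      ring
    linarith
  · rw [if_neg h]
    have h1 : (∑ t ∈ T, (if c ∈ B t then (1 : ℝ) else 0)) = 0 := by
      apply Finset.sum_eq_zero
      intro t ht
      rw [if_neg]
      intro hc
      exact h (Finset.mem_biUnion.2 ⟨t, ht, hc⟩)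
    have h2 : 0 ≤ ∑ t ∈ T, ∑ s ∈ T.erase t, (if c ∈ B t ∩ B s then (1 : ℝ) else 0) :=
      Finset.sum_nonneg fun t _ => Finset.sum_nonneg fun s _ => h0 t s
    linarith

theorem p_qineq (h : S_qsum) : S_qineq := by
  intro Ω _ B S δ b T hb hB hS hδ hgr hBB
  have h1 := Finset.sum_le_sum fun (c : Ω) (_ : c ∈ univ) => qineq_up B S δ T hδ hgr c
  rw [Finset.sum_add_distrib, ← Finset.mul_sum, qineq_exch1,
    qineq_exch B T (fun t s => (36 / 35 : ℝ) ^ (δ t s))] at h1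
  have h2 := Finset.sum_le_sum fun (c : Ω) (_ : c ∈ univ) => qineq_low B T c
  rw [Finset.sum_sub_distrib, qineq_exch1, qineq_exch B T (fun _ _ => (1 : ℝ)), qineq_ind,
    mul_one] at h2
  have h3 : ∑ t ∈ T, ((S t).card : ℝ) ≤ 10 / 11 * b * T.card := by
    calc ∑ t ∈ T, ((S t).card : ℝ) ≤ ∑ _t ∈ T, (10 / 11 * b) := Finset.sum_le_sum hS
      _ = 10 / 11 * b * T.card := by rw [Finset.sum_const, nsmul_eq_mul]; ring
  have h4 : ∑ t ∈ T, ((B t).card : ℝ) = b * T.card := by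
    rw [Finset.sum_congr rfl hB, Finset.sum_const, nsmul_eq_mul]
    ring
  have h5 : ∑ t ∈ T, ∑ s ∈ T.erase t, ((B t ∩ B s).card : ℝ) * (36 / 35 : ℝ) ^ (δ t s) +
      ∑ t ∈ T, ∑ s ∈ T.erase t, ((B t ∩ B s).card : ℝ) * (1 : ℝ) ≤
      ∑ _t ∈ T, (24 / 5 * b * (1 / 200)) := by
    rw [← Finset.sum_add_distrib]
    refine Finset.sum_le_sum fun t ht => ?_
    rw [← Finset.sum_add_distrib]
    have hq := h T t (δ t) ht (hδ t ht) (hgr t ht)
    calc ∑ s ∈ T.erase t, (((B t ∩ B s).card : ℝ) * (36 / 35 : ℝ) ^ (δ t s) +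
          ((B t ∩ B s).card : ℝ) * 1)
        ≤ ∑ s ∈ T.erase t, (24 / 5 * b * (9 / 10 : ℝ) ^ δ t s) := by
          refine Finset.sum_le_sum fun s hs => ?_
          rw [Finset.mem_erase] at hs
          have h6 := hBB t ht s hs.2 (Ne.symm hs.1)
          have h7 : (0 : ℝ) < (36 / 35 : ℝ) ^ (δ t s) := by positivity
          have h8 : ((7 : ℝ) / 8) ^ δ t s * (36 / 35 : ℝ) ^ (δ t s) = (9 / 10 : ℝ) ^ δ t s := by
            rw [← mul_pow]
            norm_num
          have h9 : ((7 : ℝ) / 8) ^ δ t s ≤ (9 / 10 : ℝ) ^ δ t s :=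
            pow_le_pow_left₀ (by norm_num) (by norm_num) _
          have h10 : ((B t ∩ B s).card : ℝ) * (36 / 35 : ℝ) ^ (δ t s) ≤
              12 / 5 * b * (9 / 10 : ℝ) ^ δ t s := by
            calc ((B t ∩ B s).card : ℝ) * (36 / 35 : ℝ) ^ (δ t s)
                ≤ (12 / 5 * (7 / 8) ^ δ t s * b) * (36 / 35 : ℝ) ^ (δ t s) :=
                  mul_le_mul_of_nonneg_right h6 h7.le
              _ = 12 / 5 * b * (((7 : ℝ) / 8) ^ δ t s * (36 / 35 : ℝ) ^ (δ t s)) := by ring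
              _ = 12 / 5 * b * (9 / 10 : ℝ) ^ δ t s := by rw [h8]
          have h11 : ((B t ∩ B s).card : ℝ) ≤ 12 / 5 * b * (9 / 10 : ℝ) ^ δ t s := by
            calc ((B t ∩ B s).card : ℝ) ≤ 12 / 5 * (7 / 8) ^ δ t s * b := h6
              _ = 12 / 5 * b * ((7 : ℝ) / 8) ^ δ t s := by ring
              _ ≤ 12 / 5 * b * (9 / 10 : ℝ) ^ δ t s :=
                  mul_le_mul_of_nonneg_left h9 (by positivity)
          linarith
      _ = 24 / 5 * b * ∑ s ∈ T.erase t, (9 / 10 : ℝ) ^ δ t s := by rw [Finset.mul_sum]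
      _ ≤ 24 / 5 * b * (1 / 200) := mul_le_mul_of_nonneg_left hq (by positivity)
  rw [Finset.sum_const, nsmul_eq_mul] at h5
  have h7 : 0 ≤ b * (T.card : ℝ) := by positivity
  rw [h4] at h2
  nlinarith

end Pool.Agent.Lib.MP_33d9ce_co.Star
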