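import Pool.Agent.Lib.MP_33d9ce_co.Star.QStm

/-!
# Spanning hypercubes, improved partition theorem: parameters
-/

set_option autoImplicit false

noncomputable section

open Classical Finset

namespace Pool.Agent.Lib.MP_33d9ce_co.Star

/-- the choice of `kap`: size of `kap` and of its binary logarithm -/
private theorem qnum_kap (l m : ℝ) (hm : 1000 ≤ m) (hml : m = Real.log l) (hl : 1000 ≤ l) :
    2 * l ≤ (⌈2 * l⌉₊ : ℝ) ∧ ((Nat.log 2 ⌈2 * l⌉₊ : ℕ) : ℝ) + 3 ≤ 1.45 * m := by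
  refine ⟨Nat.le_ceil _, ?_⟩
  have h1 : (⌈2 * l⌉₊ : ℝ) < 2 * l + 1 := Nat.ceil_lt_add_one (by linarith)
  have h0 : ⌈2 * l⌉₊ ≠ 0 := by
    have := Nat.ceil_pos.mpr (show (0 : ℝ) < 2 * l by linarith)
    omega
  have h2 : (2 : ℕ) ^ Nat.log 2 ⌈2 * l⌉₊ ≤ ⌈2 * l⌉₊ := Nat.pow_log_le_self 2 h0
  have h3 : ((2 : ℝ)) ^ Nat.log 2 ⌈2 * l⌉₊ ≤ 3 * l := by
    have : ((2 : ℝ)) ^ Nat.log 2 ⌈2 * l⌉₊ ≤ (⌈2 * l⌉₊ : ℝ) := by exact_mod_cast h2
    linarith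
  have h4 := Real.log_le_log (by positivity) h3
  rw [Real.log_pow, Real.log_mul (by norm_num) (by linarith), ← hml] at h4
  have h5 : Real.log 3 ≤ 2 := by
    have := Real.log_le_sub_one_of_pos (show (0 : ℝ) < 3 by norm_num)
    linarith
  have h6 := Real.log_two_gt_d9
  have h7 : (0 : ℝ) ≤ (Nat.log 2 ⌈2 * l⌉₊ : ℝ) := Nat.cast_nonneg _
  nlinarith

/-- the choice of `K` -/
private theorem qnum_K (n : ℕ) (l g : ℝ) (hn : l = Real.log n) (hn0 : 0 < n) (hl : 1 ≤ l)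
    (hg : 1 ≤ g) (hgn : 8 * g ≤ n) :
    ∃ K : ℕ, 8 * g * 2 ^ K ≤ (n : ℝ) ∧ (n : ℝ) < 16 * g * 2 ^ K ∧ (K : ℝ) ≤ 1.4428 * l := by
  have hnr : (0 : ℝ) < n := by exact_mod_cast hn0
  have h4 : (0 : ℝ) < 8 * g := by linarith
  have hy : 1 ≤ (n : ℝ) / (8 * g) := by
    rw [le_div_iff₀ h4]
    linarith
  have hf : ⌊(n : ℝ) / (8 * g)⌋₊ ≠ 0 := by
    have := Nat.floor_pos.mpr hy
    omega
  refine ⟨Nat.log 2 ⌊(n : ℝ) / (8 * g)⌋₊, ?_, ?_, ?_⟩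
  · have h1 : (2 : ℕ) ^ Nat.log 2 ⌊(n : ℝ) / (8 * g)⌋₊ ≤ ⌊(n : ℝ) / (8 * g)⌋₊ :=
      Nat.pow_log_le_self 2 hf
    have h2 : ((2 : ℝ)) ^ Nat.log 2 ⌊(n : ℝ) / (8 * g)⌋₊ ≤ (⌊(n : ℝ) / (8 * g)⌋₊ : ℝ) := by
      exact_mod_cast h1
    have h3 : (⌊(n : ℝ) / (8 * g)⌋₊ : ℝ) ≤ (n : ℝ) / (8 * g) := Nat.floor_le (by positivity)
    have h5 := h2.trans h3
    rw [le_div_iff₀ h4] at h5
    linarith
  · have h1 : ⌊(n : ℝ) / (8 * g)⌋₊ < 2 ^ (Nat.log 2 ⌊(n : ℝ) / (8 * g)⌋₊ + 1) :=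
      Nat.lt_pow_succ_log_self (by norm_num) _
    have h2 : (⌊(n : ℝ) / (8 * g)⌋₊ : ℝ) + 1 ≤ 2 ^ (Nat.log 2 ⌊(n : ℝ) / (8 * g)⌋₊ + 1) := by
      exact_mod_cast h1
    have h3 : (n : ℝ) / (8 * g) < (⌊(n : ℝ) / (8 * g)⌋₊ : ℝ) + 1 := Nat.lt_floor_add_one _
    have h5 := h3.trans_le h2
    rw [div_lt_iff₀ h4, pow_succ] at h5
    linarith
  · have h1 : (2 : ℕ) ^ Nat.log 2 ⌊(n : ℝ) / (8 * g)⌋₊ ≤ ⌊(n : ℝ) / (8 * g)⌋₊ :=
      Nat.pow_log_le_self 2 hf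
    have h2 : ((2 : ℝ)) ^ Nat.log 2 ⌊(n : ℝ) / (8 * g)⌋₊ ≤ (⌊(n : ℝ) / (8 * g)⌋₊ : ℝ) := by
      exact_mod_cast h1
    have h3 : (⌊(n : ℝ) / (8 * g)⌋₊ : ℝ) ≤ (n : ℝ) / (8 * g) := Nat.floor_le (by positivity)
    have h5 : (n : ℝ) / (8 * g) ≤ n := div_le_self hnr.le (by linarith)
    have h6 := Real.log_le_log (by positivity) (h2.trans (h3.trans h5))
    rw [Real.log_pow, ← hn] at h6
    have h7 := Real.log_two_gt_d9
    have h8 : (0 : ℝ) ≤ (Nat.log 2 ⌊(n : ℝ) / (8 * g)⌋₊ : ℝ) := Nat.cast_nonneg _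
    nlinarith

/-- the main inequality, in logarithmic form -/
private theorem qnum_log (n K J E : ℕ) (l g : ℝ) (hl : 1000 ≤ l) (hn : l = Real.log n)
    (hn0 : 1000 ≤ n) (hg : 1 ≤ g) (hE : (E : ℝ) ≤ 4 * K * 2 ^ K * g)
    (hx2 : (n : ℝ) < 16 * g * 2 ^ K) (hK : (K : ℝ) ≤ 1.4428 * l) (hJ : 122 * (l ^ 2 * g) ≤ (J : ℝ)) :
    n * Real.log 2 + E * Real.log (n + 1) + (J * 2 ^ K) * Real.log (20 / 21) <
      Real.log (1 / 2) := by
  have hx : (0 : ℝ) < 2 ^ K := by positivity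
  have hnr : (1000 : ℝ) ≤ n := by exact_mod_cast hn0
  have h1 : Real.log (20 / 21 : ℝ) ≤ -(1 / 21) := by
    have := Real.log_le_sub_one_of_pos (show (0 : ℝ) < 20 / 21 by norm_num)
    linarith
  have h2 : Real.log (1 / 2 : ℝ) = -Real.log 2 := by
    rw [one_div, Real.log_inv]
  have h3 := Real.log_two_lt_d9
  have h3' := Real.log_two_gt_d9
  have h4 : Real.log ((n : ℝ) + 1) ≤ l + 1 := by
    have h5 : Real.log ((n : ℝ) + 1) ≤ Real.log (2 * n) := Real.log_le_log (by linarith) (by linarith)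
    rw [Real.log_mul (by norm_num) (by linarith), ← hn] at h5
    linarith
  have h4' : 0 ≤ Real.log ((n : ℝ) + 1) := Real.log_nonneg (by linarith)
  have hK0 : (0 : ℝ) ≤ K := Nat.cast_nonneg _
  have hgx : 0 < g * 2 ^ K := by positivity
  have h5 : (E : ℝ) ≤ 5.7712 * l * (g * 2 ^ K) := by
    calc (E : ℝ) ≤ 4 * K * 2 ^ K * g := hE
      _ = 4 * K * (g * 2 ^ K) := by ring
      _ ≤ 5.7712 * l * (g * 2 ^ K) := by
        apply mul_le_mul_of_nonneg_right _ hgx.le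
        linarith
  have h6 : (E : ℝ) * Real.log (n + 1) ≤ 5.78 * l ^ 2 * (g * 2 ^ K) := by
    calc (E : ℝ) * Real.log (n + 1) ≤ (5.7712 * l * (g * 2 ^ K)) * (1.001 * l) := by
          have : Real.log ((n : ℝ) + 1) ≤ 1.001 * l := by linarith
          gcongr
      _ ≤ 5.78 * l ^ 2 * (g * 2 ^ K) := by
          have h7 : 0 ≤ l ^ 2 * (g * 2 ^ K) := by positivity
          nlinarith
  have h7 : (n : ℝ) * Real.log 2 + Real.log 2 ≤ n := by nlinarith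
  have h8 : (n : ℝ) ≤ 0.01 * l ^ 2 * (g * 2 ^ K) := by
    have h9 : 16 ≤ 0.01 * l ^ 2 := by nlinarith
    have h10 := mul_le_mul_of_nonneg_right h9 hgx.le
    linarith
  have h9 : (J * 2 ^ K : ℝ) * Real.log (20 / 21) ≤ (122 * (l ^ 2 * g) * 2 ^ K) * (-(1 / 21)) := by
    have h10 : 122 * (l ^ 2 * g) * 2 ^ K ≤ (J * 2 ^ K : ℝ) := mul_le_mul_of_nonneg_right hJ hx.le
    have h11 : (0 : ℝ) ≤ J * 2 ^ K := by positivity
    nlinarith
  have h10 : 0 < l ^ 2 * (g * 2 ^ K) := by positivity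
  have h11 : (122 * (l ^ 2 * g) * 2 ^ K) * (-(1 / 21)) = -(122 / 21) * (l ^ 2 * (g * 2 ^ K)) := by ring
  rw [h11] at h9
  rw [h2]
  linarith

theorem p_qnum (h : S_qbd) : S_qnum := by
  refine ⟨⌈Real.exp (Real.exp 1000)⌉₊, ?_⟩
  intro n hn
  have hn1 : Real.exp (Real.exp 1000) ≤ (n : ℝ) := (Nat.le_ceil _).trans (by exact_mod_cast hn)
  have he : (500000 : ℝ) ≤ Real.exp 1000 := by
    have := Real.quadratic_le_exp_of_nonneg (show (0 : ℝ) ≤ 1000 by norm_num)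
    linarith
  have he2 : Real.exp 1000 + 1 ≤ Real.exp (Real.exp 1000) := Real.add_one_le_exp _
  have hnr : (500000 : ℝ) ≤ n := by linarith
  have hn0 : 1000 ≤ n := by
    have : 500000 ≤ n := by exact_mod_cast hnr
    omega
  have hl' : Real.exp 1000 ≤ Real.log n := by
    rw [Real.le_log_iff_exp_le (by linarith)]
    exact hn1
  set l := Real.log n with hldef
  have hl : 500000 ≤ l := by linarith
  have hm' : 1000 ≤ Real.log l := by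
    rw [Real.le_log_iff_exp_le (by linarith)]
    exact hl'
  set m := Real.log l with hmdef
  have hml : m ≤ l := by
    have := Real.log_le_sub_one_of_pos (show (0 : ℝ) < l by linarith)
    linarith
  obtain ⟨hk1, hk2⟩ := qnum_kap l m hm' hmdef (by linarith)
  set kap := ⌈2 * l⌉₊ with hkapdef
  set g : ℝ := ((400 * (Nat.log 2 kap + 3) : ℕ) : ℝ) + 1 with hgdef
  have hg1 : 1 ≤ g := by
    have : (0 : ℝ) ≤ ((400 * (Nat.log 2 kap + 3) : ℕ) : ℝ) := Nat.cast_nonneg _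
    linarith
  have hg2 : g ≤ 581 * m := by
    rw [hgdef]
    push_cast
    linarith
  have hln : l ^ 2 / 2 ≤ (n : ℝ) := by
    have h1 := Real.quadratic_le_exp_of_nonneg (show (0 : ℝ) ≤ l by linarith)
    rw [hldef, Real.exp_log (by linarith), ← hldef] at h1
    nlinarith
  have hgn : 8 * g ≤ n := by nlinarith
  obtain ⟨K, hK1, hK2, hK3⟩ := qnum_K n l g hldef (by omega) (by linarith) hg1 hgn
  have hKk : K ≤ kap := by
    have : (K : ℝ) ≤ kap := by linarith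
    exact_mod_cast this
  have hkap1 : 1 ≤ kap := by
    have : (1 : ℝ) ≤ kap := by linarith
    exact_mod_cast this
  obtain ⟨hb1, hb2⟩ := h kap (400 * (Nat.log 2 kap + 3)) K hkap1 hKk
  have hb1r : (dq kap (400 * (Nat.log 2 kap + 3)) K : ℝ) ≤ 2 ^ (K + 1) * g := by
    rw [hgdef]
    exact_mod_cast hb1
  have hb2r : (enq kap (400 * (Nat.log 2 kap + 3)) K : ℝ) ≤ 4 * K * 2 ^ K * g := by
    rw [hgdef]
    exact_mod_cast hb2
  have hlm : 0 < l ^ 2 * m := by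
    have : 0 < m := by linarith
    positivity
  have hJ : 75000 * (l ^ 2 * m) ≤ (⌈75000 * (l ^ 2 * m)⌉₊ : ℝ) := Nat.le_ceil _
  have hJ2 : (⌈75000 * (l ^ 2 * m)⌉₊ : ℝ) < 75000 * (l ^ 2 * m) + 1 :=
    Nat.ceil_lt_add_one (by positivity)
  have hl2 : 1 ≤ l ^ 2 := one_le_pow₀ (by linarith)
  have hlm1 : l ^ 2 ≤ l ^ 2 * m := by nlinarith
  have hll : l ≤ l ^ 2 := by nlinarith
  refine ⟨⌈75000 * (l ^ 2 * m)⌉₊, K, kap, hn0, hkap1, ?_, ?_, ?_, ?_⟩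
  · have hJ3 : 122 * (l ^ 2 * g) ≤ (⌈75000 * (l ^ 2 * m)⌉₊ : ℝ) := by
      have h1 : l ^ 2 * g ≤ l ^ 2 * (581 * m) := mul_le_mul_of_nonneg_left hg2 (by positivity)
      have h2 : l ^ 2 * (581 * m) = 581 * (l ^ 2 * m) := by ring
      linarith
    have h := qnum_log n K ⌈75000 * (l ^ 2 * m)⌉₊ (enq kap (400 * (Nat.log 2 kap + 3)) K) l g
      (by linarith) hldef hn0 hg1 hb2r hK2 hK3 hJ3
    rw [← Real.log_lt_log_iff (by positivity) (by norm_num)]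
    rw [Real.log_mul (by positivity) (by positivity), Real.log_mul (by positivity) (by positivity),
      Real.log_pow, Real.log_pow, Real.log_pow]
    push_cast at h ⊢
    exact h
  · rw [Nat.le_div_iff_mul_le (by norm_num)]
    have h2 : (dq kap (400 * (Nat.log 2 kap + 3)) K : ℝ) * 4 ≤ n := by
      have h3 : (2 : ℝ) ^ (K + 1) * g * 4 = 8 * g * 2 ^ K := by ring
      linarith
    exact_mod_cast h2
  · linarith
  · linarith

end Pool.Agent.Lib.MP_33d9ce_co.Star
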