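import Pool.Agent.Lib.MP_33d9ce_co.Star.QStm

/-!
# Spanning hypercubes: the partition for a given choice of centres
-/

set_option autoImplicit false

noncomputable section

open Classical Finset

namespace Pool.Agent.Lib.MP_33d9ce_co.Star

private lemma qpart_conn_symm {ι : Type} [Fintype ι] {A : Set (Pt ι)} {z y : Pt ι} (h : Conn A z y) :
    Conn A y z := by
  obtain ⟨h1, h2⟩ := h
  induction h2 with
  | refl => exact ⟨h1, Relation.ReflTransGen.refl⟩
  | @tail x y' _ hxy ih =>
    refine ⟨hxy.2.1, Relation.ReflTransGen.head ⟨hxy.2.1, hxy.1, ?_⟩ ih.2⟩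
    rw [hammingDist_comm]
    exact hxy.2.2

private lemma qpart_conn_trans {ι : Type} [Fintype ι] {A : Set (Pt ι)} {x y z : Pt ι}
    (h : Conn A x y) (h' : Conn A y z) : Conn A x z := ⟨h.1, h.2.trans h'.2⟩

/-- the component of a point -/
private def qpart_comp {ι : Type} [Fintype ι] (A : Set (Pt ι)) (y : Pt ι) : Finset (Pt ι) :=
  {y' | Conn A y y'}

private lemma qpart_comp_eq {ι : Type} [Fintype ι] {A : Set (Pt ι)} {y y' : Pt ι}
    (h : Conn A y y') : qpart_comp A y = qpart_comp A y' := by
  ext x
  simp only [qpart_comp, Finset.mem_filter, Finset.mem_univ, true_and]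
  exact ⟨fun h1 => qpart_conn_trans (qpart_conn_symm h) h1, fun h1 => qpart_conn_trans h h1⟩

theorem p_qpart (hout : S_qout) (hvex : S_vex) (hone : S_one) : S_qpart := by
  intro ι _ J K kap hn hkap hnum hdk
  obtain ⟨L, ω, hhit, hW⟩ := hout ι J K kap hn hkap hnum
  set r : ℕ := Fintype.card ι / 4 with hr
  set E : Set (Pt ι) := rest r ω with hE
  let lab : Pt ι → (Fin J × Pt ι) ⊕ Finset (Pt ι) := fun y =>
    if h : ∃ j, ¬ BadAt (ball r y) (shell r y) (ω j) then
      Sum.inl (h.choose, (fst (ball r y) (List.ofFn (ω h.choose))).get (hhit y h.choose))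
    else Sum.inr (qpart_comp E y)
  have hinl : ∀ y j c, lab y = Sum.inl (j, c) →
      fst (ball r y) (List.ofFn (ω j)) = some c ∧ c ∉ shell r y := by
    intro y j c h
    by_cases hy : ∃ j, ¬ BadAt (ball r y) (shell r y) (ω j)
    · have h1 : lab y = Sum.inl (hy.choose,
          (fst (ball r y) (List.ofFn (ω hy.choose))).get (hhit y hy.choose)) := dif_pos hy
      rw [h1] at h
      have h2 := Sum.inl_injective h
      have h3 : hy.choose = j := congrArg Prod.fst h2
      have h4 : (fst (ball r y) (List.ofFn (ω hy.choose))).get (hhit y hy.choose) = c :=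
        congrArg Prod.snd h2
      have h5 : fst (ball r y) (List.ofFn (ω hy.choose)) = some c := by
        rw [← h4, Option.some_get]
      have h6 := hy.choose_spec
      rw [h3] at h5 h6
      refine ⟨h5, fun h7 => h6 ⟨c, h5, h7⟩⟩
    · have h1 : lab y = Sum.inr (qpart_comp E y) := dif_neg hy
      rw [h1] at h
      exact absurd h (by simp)
  have hinr : ∀ y F, lab y = Sum.inr F → y ∈ E ∧ qpart_comp E y = F := by
    intro y F h
    by_cases hy : ∃ j, ¬ BadAt (ball r y) (shell r y) (ω j)
    · have h1 : lab y = Sum.inl (hy.choose,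
          (fst (ball r y) (List.ofFn (ω hy.choose))).get (hhit y hy.choose)) := dif_pos hy
      rw [h1] at h
      exact absurd h (by simp)
    · have h1 : lab y = Sum.inr (qpart_comp E y) := dif_neg hy
      rw [h1] at h
      refine ⟨?_, Sum.inr_injective h⟩
      push Not at hy
      exact hy
  have hball : ∀ (y : Pt ι) (l : List (Pt ι)) (c : Pt ι), fst (ball r y) l = some c →
      hammingDist c y ≤ r := by
    intro y l c h
    unfold fst at h
    have h1 := List.find?_some h
    have h2 : c ∈ ball r y := by simpa using h1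
    simpa [ball] using h2
  refine ⟨lab, ?_, ?_⟩
  · intro x
    have hcard : J + 1 = (univ : Finset (Option (Fin J))).card := by
      simp
    rw [hcard]
    refine Finset.card_le_card_of_injOn
      (fun q : (Fin J × Pt ι) ⊕ Finset (Pt ι) => Sum.elim (fun p => some p.1) (fun _ => none) q)
      (fun _ _ => Finset.mem_coe.2 (Finset.mem_univ _)) ?_
    intro q hq q' hq' hqq
    simp only [Finset.coe_image, Set.mem_image, Finset.coe_filter, Finset.mem_univ, true_and,
      Set.mem_ofPred_eq] at hq hq'
    obtain ⟨y, hy, rfl⟩ := hq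
    obtain ⟨y', hy', rfl⟩ := hq'
    have hd : hammingDist y y' ≤ 2 := by
      have := hammingDist_triangle y x y'
      rw [hammingDist_comm y x] at this
      omega
    rcases h1 : lab y with ⟨j, c⟩ | F <;> rcases h2 : lab y' with ⟨j', c'⟩ | F'
    · rw [h1, h2] at hqq
      simp only [Sum.elim_inl, Option.some.injEq] at hqq
      subst hqq
      obtain ⟨h3, h4⟩ := hinl y j c h1
      obtain ⟨h5, h6⟩ := hinl y' j c' h2
      rw [hone ι r y y' c c' _ hd h3 h4 h5 h6]
    · rw [h1, h2] at hqq
      simp at hqq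
    · rw [h1, h2] at hqq
      simp at hqq
    · obtain ⟨h3, h4⟩ := hinr y F h1
      obtain ⟨h5, h6⟩ := hinr y' F' h2
      rw [← h4, ← h6, qpart_comp_eq (A := E) (y := y) (y' := y')
        ⟨h3, Relation.ReflTransGen.single ⟨h3, h5, hd⟩⟩]
  · intro y
    rcases h1 : lab y with ⟨j, c⟩ | F
    · refine ⟨c, fun y' hy' => ?_⟩
      obtain ⟨h3, _⟩ := hinl y' j c hy'
      have h4 := hball _ _ _ h3
      rw [hammingDist_comm]
      omega
    · refine ⟨y, fun y' hy' => ?_⟩
      obtain ⟨h3, h4⟩ := hinr y F h1
      obtain ⟨h5, h6⟩ := hinr y' F hy'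
      have h7 : y' ∈ qpart_comp E y := by
        rw [h4, ← h6]
        simp only [qpart_comp, Finset.mem_filter, Finset.mem_univ, true_and]
        exact ⟨h5, Relation.ReflTransGen.refl⟩
      simp only [qpart_comp, Finset.mem_filter, Finset.mem_univ, true_and] at h7
      have h8 : hammingDist y y' < dq kap (400 * (Nat.log 2 kap + 3)) K := by
        by_contra hcon
        push Not at hcon
        obtain ⟨l, hl, hl2⟩ := hvex ι kap (400 * (Nat.log 2 kap + 3)) K E y y' (by positivity) h7 hcon
        obtain ⟨x, hx1, hx2⟩ := hW y l hl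
        exact hx2 (hl2 x hx1)
      rw [hammingDist_comm]
      omega

end Pool.Agent.Lib.MP_33d9ce_co.Star
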