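import Pool.Agent.Lib.MP_33d9ce_co.Star.QStm

/-!
# Spanning hypercubes, improved partition theorem: Lemma A for linear growth
-/

set_option autoImplicit false

noncomputable section

open Classical Finset

namespace Pool.Agent.Lib.MP_33d9ce_co.Star

private theorem qsep_base : (3 / 2 / √3 : ℝ) ≤ 7 / 8 := by
  have h3 : (0 : ℝ) < √3 := by positivity
  have hsq : (√3 : ℝ) ^ 2 = 3 := Real.sq_sqrt (by norm_num)
  rw [div_le_iff₀ h3]
  nlinarith

theorem p_qsep (h1 : S_hit) (h2 : S_qineq) (h3 : S_bc) (h4 : S_shell) (h5 : S_inter) : S_qsep := by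
  intro ι _ w T L hn hT
  have hmain := h1 (Pt ι) ℕ (fun t => ball (Fintype.card ι / 4) (w t))
    (fun t => shell (Fintype.card ι / 4) (w t)) (20 / 21) T L ?_ (by norm_num) (by norm_num) ?_
  · refine hmain.trans (le_of_eq ?_)
    have hc : (Fintype.card (Pt ι) : ℝ) = 2 ^ Fintype.card ι := by
      rw [Fintype.card_fun, Fintype.card_bool]
      push_cast
      rfl
    rw [hc]
  · intro t c hc
    simp only [shell, ball, mem_filter, mem_univ, true_and] at hc ⊢
    exact hc.1
  · intro T' hT'
    have hb : ∀ t, ((ball (Fintype.card ι / 4) (w t)).card : ℝ) =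
        ((∑ i ∈ range (Fintype.card ι / 4 + 1), (Fintype.card ι).choose i : ℕ) : ℝ) := by
      intro t
      rw [(h3 ι (w t)).2]
    have key := h2 (Pt ι) (fun t => ball (Fintype.card ι / 4) (w t))
      (fun t => shell (Fintype.card ι / 4) (w t)) (fun t s => hammingDist (w t) (w s))
      ((∑ i ∈ range (Fintype.card ι / 4 + 1), (Fintype.card ι).choose i : ℕ) : ℝ) T'
      (Nat.cast_nonneg _) (fun t _ => hb t) (fun t _ => by rw [← hb t]; exact h4 ι (w t) hn)
      (fun t _ => hammingDist_self _) ?_ ?_
    · refine le_trans (le_of_eq ?_) key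
      refine sum_congr rfl fun c _ => ?_
      rw [show ((20 / 21 : ℝ))⁻¹ = 21 / 20 by norm_num]
    · intro t ht Δ
      have hc : (T'.filter fun s => hammingDist (w t) (w s) ≤ Δ).card ≤
          (T.filter fun s => hammingDist (w t) (w s) ≤ Δ).card :=
        card_le_card (filter_subset_filter _ hT')
      rcases hT t (hT' ht) Δ with h | h
      · exact Or.inl (hc.trans h)
      · exact Or.inr (le_trans (Nat.mul_le_mul_left _ hc) h)
    · intro t _ s _ _
      have hi := h5 ι (w t) (w s)
      rw [hb t] at hi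
      have hp : (3 / 2 / √3 : ℝ) ^ hammingDist (w t) (w s) ≤ (7 / 8) ^ hammingDist (w t) (w s) :=
        pow_le_pow_left₀ (by positivity) qsep_base _
      refine le_trans (le_of_eq ?_) (hi.trans ?_)
      · refine congrArg (fun F : Finset (Pt ι) => (F.card : ℝ)) ?_
        ext x
        simp only [Finset.mem_inter]
      have hbn : (0 : ℝ) ≤
          ((∑ i ∈ range (Fintype.card ι / 4 + 1), (Fintype.card ι).choose i : ℕ) : ℝ) :=
        Nat.cast_nonneg _
      exact mul_le_mul_of_nonneg_right (mul_le_mul_of_nonneg_left hp (by norm_num)) hbn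

end Pool.Agent.Lib.MP_33d9ce_co.Star
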