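import Pool.Agent.Lib.MP_33d9ce_co.Star.QStm

/-!
# Spanning hypercubes: a sum over distances
-/

set_option autoImplicit false

noncomputable section

open Classical Finset

namespace Pool.Agent.Lib.MP_33d9ce_co.Star

private theorem qsum_two (T : Finset ℕ) (t : ℕ) (δ : ℕ → ℕ) (ht : t ∈ T) (h0 : δ t = 0) (s : ℕ)
    (hs : s ∈ T.erase t) : 2 ≤ (T.filter fun s' => δ s' ≤ δ s).card := by
  rw [Finset.mem_erase] at hs
  have hsub : ({t, s} : Finset ℕ) ⊆ T.filter fun s' => δ s' ≤ δ s := by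
    intro x hx
    rw [Finset.mem_insert, Finset.mem_singleton] at hx
    rw [Finset.mem_filter]
    rcases hx with rfl | rfl
    · exact ⟨ht, by rw [h0]; exact Nat.zero_le _⟩
    · exact ⟨hs.2, le_refl _⟩
  have h := Finset.card_le_card hsub
  rwa [Finset.card_pair (Ne.symm hs.1)] at h

private theorem qsum_fib (T : Finset ℕ) (t : ℕ) (δ : ℕ → ℕ) (Δ : ℕ) :
    ((T.erase t).filter fun s => δ s = Δ).card ≤ (T.filter fun s => δ s ≤ Δ).card := by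
  refine Finset.card_le_card ?_
  intro x hx
  rw [Finset.mem_filter, Finset.mem_erase] at hx
  rw [Finset.mem_filter]
  exact ⟨hx.1.2, hx.2.le⟩

theorem p_qsum : S_qsum := by
  intro T t δ ht h0 hc
  have h1 : ∀ Δ ∈ (T.erase t).image δ, 200 ≤ Δ ∧
      100 * ((T.erase t).filter fun s => δ s = Δ).card ≤ Δ := by
    intro Δ hΔ
    obtain ⟨s, hs, rfl⟩ := Finset.mem_image.1 hΔ
    have h2 := qsum_two T t δ ht h0 s hs
    have h3 := qsum_fib T t δ (δ s)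
    rcases hc (δ s) with h4 | h4
    · omega
    · omega
  have h2 : ∑ s ∈ T.erase t, (9 / 10 : ℝ) ^ δ s ≤
      ∑ Δ ∈ (T.erase t).image δ, (18 / 19 : ℝ) ^ Δ := by
    rw [Finset.sum_comp (fun Δ => (9 / 10 : ℝ) ^ Δ) δ]
    refine Finset.sum_le_sum ?_
    intro Δ hΔ
    obtain ⟨-, h3⟩ := h1 Δ hΔ
    rw [nsmul_eq_mul]
    have h4 : (((T.erase t).filter fun s => δ s = Δ).card : ℝ) ≤ (20 / 19 : ℝ) ^ Δ := by
      have h5 : (100 : ℝ) * (((T.erase t).filter fun s => δ s = Δ).card : ℝ) ≤ Δ := by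
        exact_mod_cast h3
      have h6 := one_add_mul_le_pow (show (-2 : ℝ) ≤ 1 / 19 by norm_num) Δ
      have h7 : (1 : ℝ) + 1 / 19 = 20 / 19 := by norm_num
      rw [h7] at h6
      have h8 : (0 : ℝ) ≤ Δ := Nat.cast_nonneg _
      linarith
    calc (((T.erase t).filter fun s => δ s = Δ).card : ℝ) * (9 / 10 : ℝ) ^ Δ
        ≤ (20 / 19 : ℝ) ^ Δ * (9 / 10 : ℝ) ^ Δ := by gcongr
      _ = (18 / 19 : ℝ) ^ Δ := by rw [← mul_pow]; norm_num
  refine h2.trans ?_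
  obtain ⟨N, hN⟩ : ∃ N, ∀ Δ ∈ (T.erase t).image δ, Δ < N :=
    ⟨((T.erase t).image δ).sup id + 1, fun Δ hΔ =>
      Nat.lt_succ_of_le (Finset.le_sup (f := id) hΔ)⟩
  have h3 : ∑ Δ ∈ (T.erase t).image δ, (18 / 19 : ℝ) ^ Δ ≤ ∑ Δ ∈ Finset.Ico 200 N, (18 / 19 : ℝ) ^ Δ := by
    refine Finset.sum_le_sum_of_subset_of_nonneg ?_ ?_
    · intro Δ hΔ
      rw [Finset.mem_Ico]
      exact ⟨(h1 Δ hΔ).1, hN Δ hΔ⟩
    · intro Δ _ _
      positivity
  have h4 : ∑ Δ ∈ Finset.Ico 200 N, (18 / 19 : ℝ) ^ Δ ≤ (18 / 19 : ℝ) ^ 200 / (1 - 18 / 19) :=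
    geom_sum_Ico_le_of_lt_one (by norm_num) (by norm_num)
  refine h3.trans (h4.trans ?_)
  norm_num

end Pool.Agent.Lib.MP_33d9ce_co.Star
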