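import Pool.Agent.Lib.MP_33d9ce_co.Star.QStm

set_option autoImplicit false

noncomputable section

open Classical Finset

namespace Pool.Agent.Lib.MP_33d9ce_co.Star

theorem p_vcard (h : S_poly) : S_vcard := by
  intro ι _ kap G k
  induction k with
  | zero => intro z; simp [V, enq]
  | succ k ih =>
    intro z
    have hb : ∀ z' ∈ ball (aq kap G k + 1) z, (((V (aq kap G) k z ×ˢ V (aq kap G) k z').filter
        fun p => ∀ x ∈ p.2, aq kap G k ≤ hammingDist z x).image fun p => p.1 ++ p.2).card ≤
        (Fintype.card ι + 1) ^ (2 * enq kap G k) := by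
      intro z' _
      calc _ ≤ ((V (aq kap G) k z ×ˢ V (aq kap G) k z').filter
            fun p => ∀ x ∈ p.2, aq kap G k ≤ hammingDist z x).card := card_image_le
        _ ≤ (V (aq kap G) k z ×ˢ V (aq kap G) k z').card := card_filter_le _ _
        _ = (V (aq kap G) k z).card * (V (aq kap G) k z').card := card_product _ _
        _ ≤ (Fintype.card ι + 1) ^ enq kap G k * (Fintype.card ι + 1) ^ enq kap G k :=
            Nat.mul_le_mul (ih z) (ih z')
        _ = (Fintype.card ι + 1) ^ (2 * enq kap G k) := by rw [← pow_add, two_mul]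
    calc (V (aq kap G) (k + 1) z).card ≤ (ball (aq kap G k + 1) z).card *
          (Fintype.card ι + 1) ^ (2 * enq kap G k) := by
          rw [V]
          exact card_biUnion_le_card_mul _ _ _ hb
      _ ≤ (Fintype.card ι + 1) ^ (aq kap G k + 1) * (Fintype.card ι + 1) ^ (2 * enq kap G k) :=
          Nat.mul_le_mul_right _ (h ι z _)
      _ = (Fintype.card ι + 1) ^ enq kap G (k + 1) := by
          rw [← pow_add, enq, add_comm (2 * enq kap G k)]

end Pool.Agent.Lib.MP_33d9ce_co.Star

end
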