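import Pool.Agent.Lib.MP_33d9ce_co.Star.QStm

/-!
# Spanning hypercubes: linear growth of dyadic sequences
-/

set_option autoImplicit false

noncomputable section

open Classical Finset

namespace Pool.Agent.Lib.MP_33d9ce_co.Star

private theorem vcnt_mem {ι : Type} [Fintype ι] (a : ℕ → ℕ) (k : ℕ) (z : Pt ι) (l : List (Pt ι))
    (hl : l ∈ V a (k + 1) z) :
    ∃ z' u v, u ∈ V a k z ∧ v ∈ V a k z' ∧ (∀ x ∈ v, a k ≤ hammingDist z x) ∧ l = u ++ v := by
  rw [V] at hl
  simp only [Finset.mem_biUnion, Finset.mem_image, Finset.mem_filter, Finset.mem_product] at hl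
  obtain ⟨z', _, ⟨u, v⟩, ⟨⟨hu, hv⟩, hx⟩, rfl⟩ := hl
  exact ⟨z', u, v, hu, hv, hx, rfl⟩

private theorem vcnt_ex {ι : Type} [Fintype ι] (x : Pt ι) (Δ : ℕ) (l : List (Pt ι))
    (h : l.countP (fun y => decide (hammingDist x y ≤ Δ)) ≠ 0) :
    ∃ y ∈ l, hammingDist x y ≤ Δ := by
  obtain ⟨y, hy, hd⟩ := List.countP_pos_iff.1 (Nat.pos_of_ne_zero h)
  exact ⟨y, hy, by simpa using hd⟩

private theorem vcnt_pow (kap G k : ℕ) : 2 ^ k * G ≤ dq kap G k + G := by
  induction k with
  | zero => simp [dq]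
  | succ k ih =>
    have e : dq kap G (k + 1) = 2 * dq kap G k + dq kap G k / kap + G + 1 := rfl
    rw [e, pow_succ]
    have : 2 ^ k * 2 * G = 2 * (2 ^ k * G) := by ring
    rw [this]
    obtain ⟨g, hg⟩ : ∃ g, g = dq kap G k / kap := ⟨_, rfl⟩
    rw [← hg]
    omega

/-- the number of scales -/
private def vcnt_N (kap G Δ k : ℕ) : ℕ :=
  ((range k).filter fun j => 2 * Δ < 2 ^ j * G ∧ 2 ^ j * G < 4 * kap * Δ).card

private theorem vcnt_N_mono (kap G Δ k : ℕ) : vcnt_N kap G Δ k ≤ vcnt_N kap G Δ (k + 1) := by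
  unfold vcnt_N
  apply card_le_card
  apply filter_subset_filter
  intro j hj
  rw [mem_range] at hj ⊢
  omega

private theorem vcnt_N_succ (kap G Δ k : ℕ) (h : 2 * Δ < 2 ^ k * G ∧ 2 ^ k * G < 4 * kap * Δ) :
    vcnt_N kap G Δ (k + 1) = vcnt_N kap G Δ k + 1 := by
  unfold vcnt_N
  rw [range_add_one, filter_insert, if_pos h, card_insert_of_notMem]
  intro hm
  rw [mem_filter, mem_range] at hm
  exact lt_irrefl _ hm.1

private theorem vcnt_main (h1 : S_vlen) (h2 : S_vout) (ι : Type) [Fintype ι] (kap G Δ : ℕ)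
    (hkap : 1 ≤ kap) (hG : 1 ≤ G) (hGΔ : G ≤ 2 * Δ) (x : Pt ι) (k : ℕ) :
    ∀ z : Pt ι, ∀ l ∈ V (aq kap G) k z,
      G * l.countP (fun y => decide (hammingDist x y ≤ Δ)) ≤ 4 * Δ * (1 + vcnt_N kap G Δ k) := by
  induction k with
  | zero =>
    intro z l hl
    rw [V, mem_singleton] at hl
    subst hl
    have hc : [z].countP (fun y => decide (hammingDist x y ≤ Δ)) ≤ 1 := List.countP_le_length
    calc G * [z].countP (fun y => decide (hammingDist x y ≤ Δ)) ≤ G * 1 := Nat.mul_le_mul_left _ hc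
      _ ≤ 4 * Δ * 1 := by omega
      _ ≤ _ := Nat.mul_le_mul_left _ (by omega)
  | succ k ih =>
    intro z l hl
    by_cases h2k : 2 ^ k * G ≤ 2 * Δ
    · have hlen := (h1 ι kap G (k + 1) z l hl).1
      have hc : l.countP (fun y => decide (hammingDist x y ≤ Δ)) ≤ 2 ^ (k + 1) := by
        rw [← hlen]; exact List.countP_le_length
      calc G * l.countP (fun y => decide (hammingDist x y ≤ Δ)) ≤ G * 2 ^ (k + 1) :=
            Nat.mul_le_mul_left _ hc
        _ = 2 * (2 ^ k * G) := by rw [pow_succ]; ring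
        _ ≤ 4 * Δ * 1 := by omega
        _ ≤ _ := Nat.mul_le_mul_left _ (by omega)
    push Not at h2k
    obtain ⟨z', u, v, hu, hv, hx, rfl⟩ := vcnt_mem _ k z l hl
    rw [List.countP_append]
    have hmono : 4 * Δ * (1 + vcnt_N kap G Δ k) ≤ 4 * Δ * (1 + vcnt_N kap G Δ (k + 1)) :=
      Nat.mul_le_mul_left _ (Nat.add_le_add_left (vcnt_N_mono kap G Δ k) 1)
    by_cases hcu : u.countP (fun y => decide (hammingDist x y ≤ Δ)) = 0
    · rw [hcu, zero_add]
      exact (ih z' v hv).trans hmono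
    by_cases hcv : v.countP (fun y => decide (hammingDist x y ≤ Δ)) = 0
    · rw [hcv, add_zero]
      exact (ih z u hu).trans hmono
    obtain ⟨y', hy', hyd'⟩ := vcnt_ex x Δ v hcv
    have ha := hx y' hy'
    obtain ⟨g, hg⟩ : ∃ g, g = dq kap G k / kap := ⟨_, rfl⟩
    have haq : aq kap G k = dq kap G k + g + G := by rw [hg]; rfl
    have hnear : ∀ y ∈ u, hammingDist x y ≤ Δ → aq kap G k ≤ hammingDist z y + 2 * Δ := by
      intro y _ hyd
      have h3 := hammingDist_triangle z y y'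
      have h4 := hammingDist_triangle y x y'
      rw [hammingDist_comm y x] at h4
      omega
    obtain ⟨y, hy, hyd⟩ := vcnt_ex x Δ u hcu
    have hD := (h1 ι kap G k z u hu).2 y hy
    have hay := hnear y hy hyd
    have hdiv : g + G ≤ 2 * Δ := by omega
    have hlt : dq kap G k < kap * (2 * Δ) := by
      have h5 : dq kap G k < kap * (g + 1) := by
        rw [hg]; exact Nat.lt_mul_div_succ _ (by omega)
      exact lt_of_lt_of_le h5 (Nat.mul_le_mul_left _ (by omega))
    have hpow := vcnt_pow kap G k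
    have hP : 2 * Δ < 2 ^ k * G ∧ 2 ^ k * G < 4 * kap * Δ := by
      refine ⟨h2k, ?_⟩
      have h6 : 1 * (2 * Δ) ≤ kap * (2 * Δ) := Nat.mul_le_mul_right _ hkap
      have h7 : 4 * kap * Δ = kap * (2 * Δ) + kap * (2 * Δ) := by ring
      rw [h7]
      clear haq hdiv hay
      omega
    rw [vcnt_N_succ kap G Δ k hP]
    have hcnt : u.countP (fun y => decide (hammingDist x y ≤ Δ)) ≤
        u.countP (fun y => decide (dq kap G k ≤ hammingDist z y + 2 * Δ)) := by
      apply List.countP_mono_left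
      intro y hy hyd
      have h8 : hammingDist x y ≤ Δ := by simpa using hyd
      have h9 := hnear y hy h8
      simp only [decide_eq_true_eq]
      omega
    have hout := h2 ι kap G k (2 * Δ) z u hu
    rw [max_eq_right (by omega : G ≤ 2 * (2 * Δ))] at hout
    have hU : G * u.countP (fun y => decide (hammingDist x y ≤ Δ)) ≤ 4 * Δ := by
      calc _ ≤ G * u.countP (fun y => decide (dq kap G k ≤ hammingDist z y + 2 * Δ)) :=
            Nat.mul_le_mul_left _ hcnt
        _ ≤ 2 * (2 * Δ) := hout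
        _ = 4 * Δ := by ring
    have hV := ih z' v hv
    calc G * (u.countP (fun y => decide (hammingDist x y ≤ Δ)) +
          v.countP (fun y => decide (hammingDist x y ≤ Δ)))
        = G * u.countP (fun y => decide (hammingDist x y ≤ Δ)) +
          G * v.countP (fun y => decide (hammingDist x y ≤ Δ)) := by ring
      _ ≤ 4 * Δ + 4 * Δ * (1 + vcnt_N kap G Δ k) := Nat.add_le_add hU hV
      _ = 4 * Δ * (1 + (vcnt_N kap G Δ k + 1)) := by ring

theorem p_vcnt (h1 : S_vlen) (h2 : S_vout) (h3 : S_logs) : S_vcnt := by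
  intro ι _ kap G k Δ z x l hl hkap hG hGΔ
  have hm := vcnt_main h1 h2 ι kap G Δ hkap hG hGΔ x k z l hl
  have hN : vcnt_N kap G Δ k ≤ Nat.log 2 kap + 2 := h3 kap G k Δ hkap (by omega)
  exact hm.trans (Nat.mul_le_mul_left _ (by omega))

end Pool.Agent.Lib.MP_33d9ce_co.Star
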