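import Pool.Agent.Lib.MP_33d9ce_co.Star.QStm

/-!
# Spanning hypercubes: dyadic sequences inside connections (Lemma B, small gaps)
-/

set_option autoImplicit false

noncomputable section

open Classical Finset

namespace Pool.Agent.Lib.MP_33d9ce_co.Star

private lemma vex_exit {ι : Type} [Fintype ι] {A : Set (Pt ι)} {z : Pt ι} {a : ℕ} (ha : 0 < a)
    {y : Pt ι} (h : Relation.ReflTransGen (fun x x' => x ∈ A ∧ x' ∈ A ∧ hammingDist x x' ≤ 2) z y) :
    a ≤ hammingDist z y → ∃ z', a ≤ hammingDist z z' ∧ hammingDist z z' ≤ a + 1 ∧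
      Conn {x | x ∈ A ∧ a ≤ hammingDist z x} z' y := by
  induction h with
  | refl =>
    intro h
    rw [hammingDist_self] at h
    omega
  | @tail x y' _ hxy ih =>
    intro hy
    by_cases hx : a ≤ hammingDist z x
    · obtain ⟨z', h1, h2, h3, h4⟩ := ih hx
      exact ⟨z', h1, h2, h3, h4.tail ⟨⟨hxy.1, hx⟩, ⟨hxy.2.1, hy⟩, hxy.2.2⟩⟩
    · have h5 := hammingDist_triangle z x y'
      have h6 := hxy.2.2
      exact ⟨y', hy, by omega, ⟨hxy.2.1, hy⟩, Relation.ReflTransGen.refl⟩

theorem p_vex : S_vex := by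
  intro ι _ kap G k
  induction k with
  | zero =>
    intro A z y _ h _
    refine ⟨[z], by simp [V], ?_⟩
    intro x hx
    rw [List.mem_singleton] at hx
    rw [hx]
    exact h.1
  | succ k ih =>
    intro A z y hG h hd
    obtain ⟨q, hq⟩ : ∃ q : ℕ, q = dq kap G k / kap := ⟨_, rfl⟩
    have hd1 : dq kap G (k + 1) = 2 * dq kap G k + q + G + 1 := by rw [hq]; rfl
    have ha1 : aq kap G k = dq kap G k + q + G := by rw [hq]; rfl
    obtain ⟨u, hu1, hu2⟩ := ih A z y hG h (by omega)
    obtain ⟨z', h1, h2, h3⟩ := vex_exit (a := aq kap G k) (by omega) h.2 (by omega)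
    have h4 := hammingDist_triangle z z' y
    obtain ⟨v, hv1, hv2⟩ := ih _ z' y hG h3 (by omega)
    refine ⟨u ++ v, ?_, ?_⟩
    · simp only [V, Finset.mem_biUnion, Finset.mem_image, Finset.mem_filter, Finset.mem_product]
      refine ⟨z', ?_, (u, v), ⟨⟨hu1, hv1⟩, fun x hx => (hv2 x hx).2⟩, rfl⟩
      simp only [ball, Finset.mem_filter, Finset.mem_univ, true_and]
      rw [hammingDist_comm]
      exact h2
    · intro x hx
      rw [List.mem_append] at hx
      rcases hx with hx | hx
      · exact hu2 x hx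
      · exact (hv2 x hx).1

end Pool.Agent.Lib.MP_33d9ce_co.Star
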