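import Pool.Agent.Lib.MP_33d9ce_co.Star.QStm

/-!
# Spanning hypercubes: piece vgrow (linear growth of dyadic sequences)
-/

set_option autoImplicit false

noncomputable section

open Classical Finset

namespace Pool.Agent.Lib.MP_33d9ce_co.Star

/-- counting indices is counting entries -/
private lemma vgrow_count {α : Type} (x₀ : α) (p : α → Bool) (l : List α) :
    ((range l.length).filter fun s => p (l.getD s x₀) = true).card = l.countP p := by
  induction l with
  | nil => simp
  | cons a l ih =>
    rw [List.length_cons, Finset.range_add_one', Finset.filter_insert, List.countP_cons, ← ih]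
    have h1 : (Finset.filter (fun s => p ((a :: l).getD s x₀) = true)
        ((range l.length).map ⟨Nat.succ, Nat.succ_injective⟩)).card =
        ((range l.length).filter fun s => p (l.getD s x₀) = true).card := by
      rw [Finset.filter_map, Finset.card_map]
      congr 1
    by_cases ha : p a = true
    · simp only [List.getD_cons_zero, ha, if_true]
      rw [Finset.card_insert_of_notMem, ← h1]
      simp
    · simp only [List.getD_cons_zero, ha]
      simp only [Bool.false_eq_true, if_false, add_zero]
      rw [← h1]

theorem p_vgrow (h1 : S_vlen) (h2 : S_vone) (h3 : S_vcnt) : S_vgrow := by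
  intro ι _ kap k z hkap l hl t _ Δ
  have hlen := (h1 ι kap _ k z l hl).1
  have hc := vgrow_count (fun _ : ι => false)
    (fun y => decide (hammingDist (l.getD t fun _ => false) y ≤ Δ)) l
  rw [hlen] at hc
  simp only [decide_eq_true_eq] at hc
  rw [hc]
  have hL : 0 < Nat.log 2 kap + 3 := by omega
  rcases Nat.lt_or_ge (2 * Δ) (400 * (Nat.log 2 kap + 3)) with h | h
  · left
    exact h2 ι kap _ k Δ z _ l hl h
  · right
    have h4 := h3 ι kap _ k Δ z (l.getD t fun _ => false) l hl hkap (by omega) h
    set c := l.countP (fun y => decide (hammingDist (l.getD t fun _ => false) y ≤ Δ)) with hcdef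
    have h5 : (Nat.log 2 kap + 3) * (400 * c) ≤ (Nat.log 2 kap + 3) * (4 * Δ) := by
      calc (Nat.log 2 kap + 3) * (400 * c) = 400 * (Nat.log 2 kap + 3) * c := by ring
        _ ≤ 4 * Δ * (Nat.log 2 kap + 3) := h4
        _ = (Nat.log 2 kap + 3) * (4 * Δ) := by ring
    have h6 := Nat.le_of_mul_le_mul_left h5 hL
    omega

end Pool.Agent.Lib.MP_33d9ce_co.Star
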