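import Pool.Agent.Lib.MP_33d9ce_co.Star.QStm

/-!
# Spanning hypercubes, dyadic sequences with small gaps: length and extent
-/

set_option autoImplicit false

noncomputable section

open Classical Finset

namespace Pool.Agent.Lib.MP_33d9ce_co.Star

theorem p_vlen : S_vlen := by
  intro ι _ kap G k
  induction k with
  | zero =>
    intro z l hl
    rw [V, mem_singleton] at hl
    subst hl
    refine ⟨rfl, ?_⟩
    intro x hx
    rw [List.mem_singleton] at hx
    subst hx
    simp [dq]
  | succ k ih =>
    intro z l hl
    rw [V, mem_biUnion] at hl
    obtain ⟨z', hz', hl⟩ := hl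
    rw [mem_image] at hl
    obtain ⟨⟨u, v⟩, huv, rfl⟩ := hl
    rw [mem_filter, mem_product] at huv
    obtain ⟨⟨hu, hv⟩, -⟩ := huv
    obtain ⟨hu1, hu2⟩ := ih z u hu
    obtain ⟨hv1, hv2⟩ := ih z' v hv
    have hzz : hammingDist z' z ≤ aq kap G k + 1 := by
      simpa [ball] using hz'
    constructor
    · simp only [List.length_append, hu1, hv1]
      ring
    · intro x hx
      simp only [List.mem_append] at hx
      have hdk : dq kap G (k + 1) = 2 * dq kap G k + dq kap G k / kap + G + 1 := rfl
      have h3 : aq kap G k = dq kap G k + dq kap G k / kap + G := rfl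
      generalize dq kap G k / kap = e at hdk h3
      rcases hx with hx | hx
      · have := hu2 x hx
        omega
      · have h1 := hv2 x hx
        have h2 := hammingDist_triangle z z' x
        rw [hammingDist_comm z z'] at h2
        omega

end Pool.Agent.Lib.MP_33d9ce_co.Star
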