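import Pool.Agent.Lib.MP_33d9ce_co.Star.QStm

/-!
# Spanning hypercubes: different entries of a dyadic sequence are far apart
-/

set_option autoImplicit false

noncomputable section

open Classical Finset

namespace Pool.Agent.Lib.MP_33d9ce_co.Star

private theorem vone_mem {ι : Type} [Fintype ι] (a : ℕ → ℕ) (k : ℕ) (z : Pt ι) (l : List (Pt ι))
    (hl : l ∈ V a (k + 1) z) :
    ∃ z' u v, u ∈ V a k z ∧ v ∈ V a k z' ∧ (∀ x ∈ v, a k ≤ hammingDist z x) ∧ l = u ++ v := by
  rw [V] at hl
  simp only [Finset.mem_biUnion, Finset.mem_image, Finset.mem_filter, Finset.mem_product] at hl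
  obtain ⟨z', _, ⟨u, v⟩, ⟨⟨hu, hv⟩, hx⟩, rfl⟩ := hl
  exact ⟨z', u, v, hu, hv, hx, rfl⟩

private theorem vone_ex {ι : Type} [Fintype ι] (x : Pt ι) (Δ : ℕ) (l : List (Pt ι))
    (h : l.countP (fun y => decide (hammingDist x y ≤ Δ)) ≠ 0) :
    ∃ y ∈ l, hammingDist x y ≤ Δ := by
  obtain ⟨y, hy, hd⟩ := List.countP_pos_iff.1 (Nat.pos_of_ne_zero h)
  exact ⟨y, hy, by simpa using hd⟩

theorem p_vone (h : S_vlen) : S_vone := by
  intro ι _ kap G k Δ
  induction k with
  | zero =>
    intro z x l hl _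
    rw [V, mem_singleton] at hl
    subst hl
    exact List.countP_le_length
  | succ k ih =>
    intro z x l hl hG
    obtain ⟨z', u, v, hu, hv, hx, rfl⟩ := vone_mem _ k z l hl
    rw [List.countP_append]
    by_cases hcu : u.countP (fun y => decide (hammingDist x y ≤ Δ)) = 0
    · rw [hcu, zero_add]
      exact ih z' x v hv hG
    by_cases hcv : v.countP (fun y => decide (hammingDist x y ≤ Δ)) = 0
    · rw [hcv, add_zero]
      exact ih z x u hu hG
    exfalso
    obtain ⟨y, hy, hyd⟩ := vone_ex x Δ u hcu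
    obtain ⟨y', hy', hyd'⟩ := vone_ex x Δ v hcv
    have h1 := hx y' hy'
    have h2 := (h ι kap G k z u hu).2 y hy
    have h3 := hammingDist_triangle z y y'
    have h4 := hammingDist_triangle y x y'
    rw [hammingDist_comm y x] at h4
    unfold aq at h1
    obtain ⟨g, hg⟩ : ∃ g, g = dq kap G k / kap := ⟨_, rfl⟩
    rw [← hg] at h1
    omega

end Pool.Agent.Lib.MP_33d9ce_co.Star
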