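import Pool.Agent.Lib.MP_33d9ce_co.Star.QStm

set_option autoImplicit false

noncomputable section

open Classical Finset

namespace Pool.Agent.Lib.MP_33d9ce_co.Star

private theorem vout_pow (kap G k : ℕ) : 2 ^ k * G ≤ dq kap G k + G := by
  induction k with
  | zero => simp
  | succ k ih =>
    have h : dq kap G (k + 1) = 2 * dq kap G k + dq kap G k / kap + G + 1 := rfl
    have h2 : 2 ^ (k + 1) * G = 2 * (2 ^ k * G) := by ring
    rw [h2, h]
    generalize dq kap G k / kap = e
    omega

theorem p_vout (h : S_vlen) : S_vout := by
  intro ι _ kap G k Δ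
  induction k with
  | zero =>
    intro z l hl
    rw [V, mem_singleton] at hl
    subst hl
    have h1 : List.countP (fun x => decide (dq kap G 0 ≤ hammingDist z x + Δ)) [z] ≤ 1 :=
      List.countP_le_length
    calc G * List.countP (fun x => decide (dq kap G 0 ≤ hammingDist z x + Δ)) [z] ≤ G * 1 :=
          Nat.mul_le_mul_left _ h1
      _ ≤ max G (2 * Δ) := by rw [mul_one]; exact le_max_left _ _
  | succ k ih =>
    intro z l hl
    rw [V, mem_biUnion] at hl
    obtain ⟨z', hz', hl⟩ := hl
    rw [mem_image] at hl
    obtain ⟨⟨u, v⟩, huv, rfl⟩ := hl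
    rw [mem_filter, mem_product] at huv
    obtain ⟨⟨hu, hv⟩, -⟩ := huv
    simp only at hu hv
    obtain ⟨hu1, hu2⟩ := h ι kap G k z u hu
    obtain ⟨hv1, hv2⟩ := h ι kap G k z' v hv
    have hzz : hammingDist z' z ≤ aq kap G k + 1 := by
      simpa [ball] using hz'
    have ha : aq kap G k = dq kap G k + dq kap G k / kap + G := rfl
    have hd : dq kap G (k + 1) = 2 * dq kap G k + dq kap G k / kap + G + 1 := rfl
    have hp := vout_pow kap G k
    have hq : dq kap G k + G ≤ aq kap G k := by
      rw [ha]
      generalize dq kap G k / kap = e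
      omega
    have hd2 : dq kap G (k + 1) = dq kap G k + aq kap G k + 1 := by
      rw [ha, hd]
      generalize dq kap G k / kap = e
      omega
    clear ha hd
    by_cases hc : aq kap G k ≤ Δ
    · have h1 : List.countP (fun x => decide (dq kap G (k + 1) ≤ hammingDist z x + Δ)) (u ++ v) ≤ 2 * 2 ^ k := by
        refine le_trans List.countP_le_length ?_
        rw [List.length_append, hu1, hv1]
        omega
      calc G * List.countP (fun x => decide (dq kap G (k + 1) ≤ hammingDist z x + Δ)) (u ++ v)
          ≤ G * (2 * 2 ^ k) := Nat.mul_le_mul_left _ h1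
        _ = 2 * (2 ^ k * G) := by ring
        _ ≤ 2 * Δ := by omega
        _ ≤ max G (2 * Δ) := le_max_right _ _
    · push Not at hc
      have h1 : List.countP (fun x => decide (dq kap G (k + 1) ≤ hammingDist z x + Δ)) u = 0 := by
        rw [List.countP_eq_zero]
        intro x hx
        have := hu2 x hx
        simp only [decide_eq_true_eq]
        omega
      have h2 : List.countP (fun x => decide (dq kap G (k + 1) ≤ hammingDist z x + Δ)) v ≤
          List.countP (fun x => decide (dq kap G k ≤ hammingDist z' x + Δ)) v := by
        apply List.countP_mono_left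
        intro x _ hx
        simp only [decide_eq_true_eq] at hx ⊢
        have h3 := hammingDist_triangle z z' x
        rw [hammingDist_comm z z'] at h3
        omega
      rw [List.countP_append, h1, zero_add]
      exact le_trans (Nat.mul_le_mul_left _ h2) (ih z' v hv)

end Pool.Agent.Lib.MP_33d9ce_co.Star
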