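import Pool.Agent.Lib.MP_33d9ce_co.Star.Final
import Pool.Agent.Lib.MP_33d9ce_co.Star.P_bc
import Pool.Agent.Lib.MP_33d9ce_co.Star.P_hit
import Pool.Agent.Lib.MP_33d9ce_co.Star.P_inter
import Pool.Agent.Lib.MP_33d9ce_co.Star.P_logs
import Pool.Agent.Lib.MP_33d9ce_co.Star.P_mom
import Pool.Agent.Lib.MP_33d9ce_co.Star.P_one
import Pool.Agent.Lib.MP_33d9ce_co.Star.P_poly
import Pool.Agent.Lib.MP_33d9ce_co.Star.P_qbd
import Pool.Agent.Lib.MP_33d9ce_co.Star.P_qineq
import Pool.Agent.Lib.MP_33d9ce_co.Star.P_qnum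
import Pool.Agent.Lib.MP_33d9ce_co.Star.P_qout
import Pool.Agent.Lib.MP_33d9ce_co.Star.P_qpart
import Pool.Agent.Lib.MP_33d9ce_co.Star.P_qsep
import Pool.Agent.Lib.MP_33d9ce_co.Star.P_qsum
import Pool.Agent.Lib.MP_33d9ce_co.Star.P_shell
import Pool.Agent.Lib.MP_33d9ce_co.Star.P_vcard
import Pool.Agent.Lib.MP_33d9ce_co.Star.P_vcnt
import Pool.Agent.Lib.MP_33d9ce_co.Star.P_vex
import Pool.Agent.Lib.MP_33d9ce_co.Star.P_vgrow
import Pool.Agent.Lib.MP_33d9ce_co.Star.P_vlen
import Pool.Agent.Lib.MP_33d9ce_co.Star.P_vone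
import Pool.Agent.Lib.MP_33d9ce_co.Star.P_vout

/-!
# Spanning hypercubes: the partition theorem with `(log n) ^ 2 log log n`
-/

set_option autoImplicit false

noncomputable section

open Classical Finset

namespace Pool.Agent.Lib.MP_33d9ce_co.Star

theorem q_sep : S_qsep := p_qsep p_hit (p_qineq p_qsum) p_bc (p_shell p_bc) (p_inter p_bc p_mom)

theorem q_grow : S_vgrow := p_vgrow p_vlen (p_vone p_vlen) (p_vcnt p_vlen (p_vout p_vlen) p_logs)

theorem q_out : S_qout := p_qout q_sep p_vlen q_grow (p_vcard p_poly)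

theorem q_part : S_qpart := p_qpart q_out p_vex p_one

theorem q_num : S_qnum := p_qnum p_qbd

/-- **Theorem P.**  For all large `n` the cube has a partition into sets contained in balls of radius `n / 4` such
that the neighbours of every vertex meet at most `200000 (log n) ^ 2 log log n` sets. -/
theorem exists_partition' : ∃ n0 : ℕ, ∀ n ≥ n0, ∃ k : ℕ,
    (k : ℝ) ≤ 200000 * (Real.log n ^ 2 * Real.log (Real.log n)) ∧ Real.log n ≤ k ∧
    HasPartition n k := by
  obtain ⟨n0, h⟩ := q_num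
  refine ⟨n0, fun n hn => ?_⟩
  obtain ⟨J, K, kap, h1, h2, h3, h4, h5, h6⟩ := h n hn
  have hc : Fintype.card (Fin n) = n := Fintype.card_fin n
  obtain ⟨lab, hl1, hl2⟩ := q_part (Fin n) J K kap (by rw [hc]; exact h1) h2 (by rw [hc]; exact h3)
    (by rw [hc]; exact h4)
  refine ⟨J + 1, by push_cast; exact h5, by push_cast; linarith, _, lab, fun x => ?_, fun y => ?_⟩
  · exact card_star_inst (fun _ h => h) (hl1 x)
  · obtain ⟨z, hz⟩ := hl2 y
    refine ⟨z, fun y' hy' => ?_⟩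
    have := hz y' hy'
    rwa [hc] at this

end Pool.Agent.Lib.MP_33d9ce_co.Star
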