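import Pool.Agent.Lib.MP_33d9ce_co.Star.PDefs

/-!
# Spanning hypercubes: dyadic sequences with small gaps, definitions

`kap` is an upper bound for the number of scales, `G` the minimal gap.  At the scale `k` the gap between the two
halves of a dyadic sequence is `dq kap G k / kap + G` (natural division).
-/

set_option autoImplicit false

noncomputable section

open Classical Finset

namespace Pool.Agent.Lib.MP_33d9ce_co.Star

/-- the radius of the dyadic sequences of length `2 ^ k` -/
def dq (kap G : ℕ) : ℕ → ℕ
  | 0 => 0
  | k + 1 => 2 * dq kap G k + dq kap G k / kap + G + 1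

/-- the exit radius at the scale `k`; `dq (k + 1) = dq k + aq k + 1` -/
def aq (kap G k : ℕ) : ℕ := dq kap G k + dq kap G k / kap + G

/-- the number of dyadic sequences of length `2 ^ k` from `z` is at most `(n + 1) ^ eq kap G k` -/
def enq (kap G : ℕ) : ℕ → ℕ
  | 0 => 0
  | k + 1 => 2 * enq kap G k + (aq kap G k + 1)

/-- dyadic sequences of length `2 ^ k` from `z` with the exit radii `a` -/
def V {ι : Type} [Fintype ι] (a : ℕ → ℕ) : ℕ → Pt ι → Finset (List (Pt ι))
  | 0, z => {[z]}
  | k + 1, z => (ball (a k + 1) z).biUnion fun z' =>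
      ((V a k z ×ˢ V a k z').filter fun p => ∀ x ∈ p.2, a k ≤ hammingDist z x).image
        fun p => p.1 ++ p.2

end Pool.Agent.Lib.MP_33d9ce_co.Star
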